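import Pool.Agent.MP_bc14e1_gt.Sing

/-! The total singular complex and its basic operators. -/

open Set Metric
open scoped Classical

namespace Pool.Agent.MP_bc14e1_gt

noncomputable section

/-- Singular simplices of all degrees. -/
abbrev TS (X : Type) [TopologicalSpace X] : Type := Σ k : ℕ, Sing X k

/-- The total singular chain complex. -/
abbrev Tot (R : Type) [CommRing R] (X : Type) [TopologicalSpace X] : Type := TS X →₀ R

section Defs

variable (R : Type) [CommRing R] {X Y : Type} [TopologicalSpace X] [TopologicalSpace Y]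

/-- Chains of degree `k` as elements of the total complex. -/
def inc (k : ℕ) : (Sing X k →₀ R) →ₗ[R] Tot R X := Finsupp.lmapDomain R R (Sigma.mk k)

/-- An operator on the total complex from operators in each degree. -/
def tl {M : Type} [AddCommGroup M] [Module R M] (F : ∀ k, (Sing X k →₀ R) →ₗ[R] M) :
    Tot R X →ₗ[R] M :=
  Finsupp.lsum R fun σ : TS X => F σ.1 ∘ₗ Finsupp.lsingle σ.2

def dK (X : Type) [TopologicalSpace X] : ∀ k, (Sing X k →₀ R) →ₗ[R] Tot R X
  | 0 => 0
  | k + 1 => inc R k ∘ₗ bd R X k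

/-- The boundary. -/
def dT (X : Type) [TopologicalSpace X] : Module.End R (Tot R X) := tl R (dK R X)

/-- Barycentric subdivision. -/
def sdT (X : Type) [TopologicalSpace X] : Module.End R (Tot R X) :=
  tl R fun k => inc R k ∘ₗ sdR R X k

/-- The homotopy from the identity to the subdivision. -/
def sdH (X : Type) [TopologicalSpace X] : Module.End R (Tot R X) :=
  tl R fun k => inc R (k + 1) ∘ₗ sdHR R X k

/-- The homotopy from the identity to the `m`-fold subdivision. -/
def sdHP (X : Type) [TopologicalSpace X] (m : ℕ) : Module.End R (Tot R X) :=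
  ∑ j ∈ Finset.range m, sdH R X * sdT R X ^ j

/-- Chains in the subset `A`. -/
def CH (A : Set X) : Submodule R (Tot R X) := Finsupp.supported R R {σ | range σ.2 ⊆ A}

/-- Chains of degree `k`. -/
def DG (X : Type) [TopologicalSpace X] (k : ℕ) : Submodule R (Tot R X) :=
  Finsupp.supported R R {σ | σ.1 = k}

/-- Keep the simplices with property `P`. -/
def flt (P : TS X → Prop) : Module.End R (Tot R X) :=
  Finsupp.lsum R fun σ : TS X => if P σ then Finsupp.lsingle σ else 0

/-- The part of a chain in `A`. -/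
def prj (A : Set X) : Module.End R (Tot R X) := flt R fun σ => range σ.2 ⊆ A

/-- The part of a chain of degree `k`. -/
def deg (X : Type) [TopologicalSpace X] (k : ℕ) : Module.End R (Tot R X) :=
  flt R fun σ => σ.1 = k

/-- Push-forward along any function; simplices on which it is not continuous go to zero. -/
def psh (f : X → Y) : Tot R X →ₗ[R] Tot R Y :=
  Finsupp.lsum R fun σ : TS X =>
    if h : Continuous (f ∘ σ.2) then Finsupp.lsingle (⟨σ.1, ⟨f ∘ σ.2, h⟩⟩ : TS Y) else 0

/-- A point as a chain. -/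
def pt (x : X) : Tot R X := Finsupp.single ⟨0, ContinuousMap.const _ x⟩ 1

/-- A path as a chain. -/
def pth (γ : C(unitInterval, X)) : Tot R X :=
  Finsupp.single ⟨1, γ.comp (stdSimplexHomeomorphUnitInterval : C(Sx 1, unitInterval))⟩ 1

/-- The linear extension of a function on points to chains of degree zero. -/
def val0 {M : Type} [AddCommGroup M] [Module R M] (f : X → M) : Tot R X →ₗ[R] M :=
  Finsupp.linearCombination R fun σ : TS X =>
    if σ.1 = 0 then f (σ.2 stdSimplex.barycenter) else 0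

/-- Multiplication by the sign `e k` in degree `k`. -/
def sgn (X : Type) [TopologicalSpace X] (e : ℕ → ℤ) : Module.End R (Tot R X) :=
  Finsupp.lsum R fun σ : TS X => e σ.1 • Finsupp.lsingle σ

/-- Multiplication by `(-1) ^ k` in degree `k`. -/
def eps (X : Type) [TopologicalSpace X] : Module.End R (Tot R X) := sgn R X fun k => (-1) ^ k

variable {R} in
/-- Change of coefficients. -/
def cast {S : Type} [CommRing S] (φ : R →+* S) (X : Type) [TopologicalSpace X] :
    Tot R X →ₛₗ[φ] Tot S X where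
  toFun := Finsupp.mapRange φ φ.map_zero
  map_add' := Finsupp.mapRange_add φ.map_add
  map_smul' a c := by ext σ; simp

/-- Integral chains as chains over `R`. -/
abbrev castZ (X : Type) [TopologicalSpace X] : Tot ℤ X →ₛₗ[Int.castRingHom R] Tot R X :=
  cast (Int.castRingHom R) X

/-- Complex conjugation of chains. -/
abbrev cjT (X : Type) [TopologicalSpace X] : Tot ℂ X →ₗ⋆[ℂ] Tot ℂ X := cast (starRingEnd ℂ) X

end Defs

section Api

open Finsupp

variable {R : Type} [CommRing R] {X Y Z : Type} [TopologicalSpace X] [TopologicalSpace Y]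
  [TopologicalSpace Z]

theorem inc_single (k : ℕ) (σ : Sing X k) (a : R) :
    inc R k (single σ a) = single ⟨k, σ⟩ a := by
  simp [inc, mapDomain_single]

theorem inc_injective (k : ℕ) : Function.Injective (inc R (X := X) k) :=
  mapDomain_injective sigma_mk_injective

theorem tl_single {M : Type} [AddCommGroup M] [Module R M] (F : ∀ k, (Sing X k →₀ R) →ₗ[R] M)
    (σ : TS X) (a : R) : tl R F (single σ a) = F σ.1 (single σ.2 a) := by
  simp [tl]

theorem tl_inc {M : Type} [AddCommGroup M] [Module R M] (F : ∀ k, (Sing X k →₀ R) →ₗ[R] M)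
    (k : ℕ) (c : Sing X k →₀ R) : tl R F (inc R k c) = F k c := by
  induction c using Finsupp.induction_linear with
  | zero => simp
  | add a b ha hb => simp [ha, hb]
  | single σ a => rw [inc_single, tl_single]

/-- Linear statements can be checked on the chains `inc k c`. -/
theorem Tot.ind {P : Tot R X → Prop} (h0 : P 0) (hadd : ∀ a b, P a → P b → P (a + b))
    (h1 : ∀ (k : ℕ) (σ : Sing X k) (a : R), P (inc R k (single σ a))) (c : Tot R X) : P c := by
  induction c using Finsupp.induction_linear with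
  | zero => exact h0
  | add a b ha hb => exact hadd a b ha hb
  | single σ a => rw [← inc_single]; exact h1 _ _ _

theorem dT_inc_zero (c : Sing X 0 →₀ R) : dT R X (inc R 0 c) = 0 := by
  rw [dT, tl_inc]; rfl

theorem dT_inc_succ (k : ℕ) (c : Sing X (k + 1) →₀ R) :
    dT R X (inc R (k + 1) c) = inc R k (bd R X k c) := by
  rw [dT, tl_inc]; rfl

theorem sdT_inc (k : ℕ) (c : Sing X k →₀ R) : sdT R X (inc R k c) = inc R k (sdR R X k c) := by
  rw [sdT, tl_inc]; rfl

theorem sdH_inc (k : ℕ) (c : Sing X k →₀ R) :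
    sdH R X (inc R k c) = inc R (k + 1) (sdHR R X k c) := by
  rw [sdH, tl_inc]; rfl

theorem dT_dT (c : Tot R X) : dT R X (dT R X c) = 0 := by
  induction c using Tot.ind with
  | h0 => simp
  | hadd a b ha hb => simp [ha, hb]
  | h1 k σ a =>
    rcases k with _ | _ | k
    · rw [dT_inc_zero, map_zero]
    · rw [dT_inc_succ, dT_inc_zero]
    · rw [dT_inc_succ, dT_inc_succ, bd_bd, map_zero]

theorem supported_ind {α : Type} {S : Set α} {P : (α →₀ R) → Prop} (h0 : P 0)
    (hadd : ∀ a b, P a → P b → P (a + b)) (h1 : ∀ σ ∈ S, ∀ a : R, P (single σ a))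
    {c : α →₀ R} (hc : c ∈ supported R R S) : P c := by
  rw [← c.sum_single, Finsupp.sum]
  exact Finset.sum_induction _ P hadd h0 fun σ hσ => h1 σ ((mem_supported R c).1 hc hσ) _

theorem mem_CH {A : Set X} {c : Tot R X} : c ∈ CH R A ↔ ∀ σ ∈ c.support, ∀ t, σ.2 t ∈ A := by
  simp only [CH, mem_supported, Set.subset_def, Finset.mem_coe, Set.mem_setOf_eq, Set.mem_range,
    forall_exists_index, forall_apply_eq_imp_iff]

theorem mem_DG {k : ℕ} {c : Tot R X} : c ∈ DG R X k ↔ ∀ σ ∈ c.support, σ.1 = k := by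
  simp only [DG, mem_supported, Set.subset_def, Finset.mem_coe, Set.mem_setOf_eq]

theorem single_mem_CH {A : Set X} {σ : TS X} (a : R) (h : ∀ t, σ.2 t ∈ A) :
    single σ a ∈ CH R A :=
  single_mem_supported R a (by rintro _ ⟨t, rfl⟩; exact h t)

theorem single_mem_DG (σ : TS X) (a : R) : single σ a ∈ DG R X σ.1 :=
  single_mem_supported R a rfl

theorem CH_ind {A : Set X} {P : Tot R X → Prop} (h0 : P 0)
    (hadd : ∀ a b, P a → P b → P (a + b))
    (h1 : ∀ (k : ℕ) (σ : Sing X k) (a : R), (∀ t, σ t ∈ A) → P (inc R k (single σ a)))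
    {c : Tot R X} (hc : c ∈ CH R A) : P c :=
  supported_ind h0 hadd (fun σ hσ a => by
    rw [← inc_single]; exact h1 _ _ _ fun t => hσ ⟨t, rfl⟩) hc

theorem inc_mem_CH {A : Set X} {k : ℕ} {c : Sing X k →₀ R} :
    inc R k c ∈ CH R A ↔ c ∈ supp R A k := by
  rw [mem_CH, mem_supp, inc, lmapDomain_apply, mapDomain_support_of_injective sigma_mk_injective]
  simp

theorem inc_mem_DG (k : ℕ) (c : Sing X k →₀ R) : inc R k c ∈ DG R X k := by
  induction c using Finsupp.induction_linear with
  | zero => simp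
  | add a b ha hb => rw [map_add]; exact add_mem ha hb
  | single σ a => rw [inc_single]; exact single_mem_DG ⟨k, σ⟩ a

theorem exists_inc {k : ℕ} {c : Tot R X} (h : c ∈ DG R X k) : ∃ b, inc R k b = c := by
  refine supported_ind (P := fun c => ∃ b, inc R k b = c) ⟨0, map_zero _⟩ ?_ ?_ h
  · rintro _ _ ⟨a, rfl⟩ ⟨b, rfl⟩; exact ⟨a + b, map_add _ _ _⟩
  · rintro ⟨_, σ⟩ rfl a; exact ⟨single σ a, inc_single _ _ _⟩

theorem CH_mono {A B : Set X} (h : A ⊆ B) : CH R A ≤ CH R B :=
  supported_mono fun _ hσ => Set.Subset.trans hσ h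

theorem CH_inter (A B : Set X) : CH R (A ∩ B) = CH R A ⊓ CH R B := by
  ext c
  simp only [Submodule.mem_inf, mem_CH, Set.mem_inter_iff, forall_and]

theorem mem_CH_univ (c : Tot R X) : c ∈ CH R (univ : Set X) := mem_CH.2 fun _ _ _ => trivial

theorem eq_zero_of_mem_CH_empty {c : Tot R X} (h : c ∈ CH R (∅ : Set X)) : c = 0 := by
  rw [← support_eq_empty, Finset.eq_empty_iff_forall_notMem]
  exact fun σ hσ => mem_CH.1 h σ hσ (Classical.arbitrary _)

theorem eq_zero_of_mem_DG {k l : ℕ} (hkl : k ≠ l) {c : Tot R X} (h : c ∈ DG R X k)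
    (h' : c ∈ DG R X l) : c = 0 := by
  rw [← support_eq_empty, Finset.eq_empty_iff_forall_notMem]
  exact fun σ hσ => hkl ((mem_DG.1 h σ hσ).symm.trans (mem_DG.1 h' σ hσ))

theorem exists_compact_CH {A : Set X} {c : Tot R X} (h : c ∈ CH R A) :
    ∃ K, IsCompact K ∧ K ⊆ A ∧ c ∈ CH R K := by
  refine ⟨⋃ σ ∈ c.support, Set.range σ.2,
    c.support.isCompact_biUnion fun σ _ => isCompact_range σ.2.continuous, ?_, ?_⟩
  · simp only [Set.iUnion_subset_iff]
    rintro σ hσ _ ⟨t, rfl⟩
    exact mem_CH.1 h σ hσ t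
  · exact mem_CH.2 fun σ hσ t => Set.mem_biUnion hσ ⟨t, rfl⟩

theorem exists_CH_of_directed {ι : Type} [Nonempty ι] {U : ι → Set X} (hU : ∀ i, IsOpen (U i))
    (hd : Directed (· ⊆ ·) U) {c : Tot R X} (h : c ∈ CH R (⋃ i, U i)) : ∃ i, c ∈ CH R (U i) := by
  obtain ⟨K, hK, hKU, hc⟩ := exists_compact_CH h
  obtain ⟨i, hi⟩ := hK.elim_directed_cover U hU hKU hd
  exact ⟨i, CH_mono hi hc⟩

/-- An operator maps `CH A` into a submodule if it does so on simplices. -/
theorem map_CH {M : Type} [AddCommGroup M] [Module R M] {A : Set X} {T : Submodule R M}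
    (F : Tot R X →ₗ[R] M) (h : ∀ (k : ℕ) (σ : Sing X k), (∀ t, σ t ∈ A) → F (single ⟨k, σ⟩ 1) ∈ T)
    {c : Tot R X} (hc : c ∈ CH R A) : F c ∈ T := by
  refine CH_ind (P := fun c => F c ∈ T) (by simp) (fun a b ha hb => by
    rw [map_add]; exact add_mem ha hb) (fun k σ a hσ => ?_) hc
  rw [inc_single, ← mul_one a, ← smul_eq_mul, ← smul_single, map_smul]
  exact T.smul_mem _ (h k σ hσ)

theorem dT_mem_CH {A : Set X} {c : Tot R X} (h : c ∈ CH R A) : dT R X c ∈ CH R A := by
  refine map_CH _ (fun k σ hσ => ?_) h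
  rw [← inc_single]
  rcases k with _ | k
  · rw [dT_inc_zero]; exact zero_mem _
  · rw [dT_inc_succ, inc_mem_CH]; exact bd_mem_supp (single_mem_supp _ hσ)

theorem dT_mem_DG {k : ℕ} {c : Tot R X} (h : c ∈ DG R X (k + 1)) : dT R X c ∈ DG R X k := by
  obtain ⟨b, rfl⟩ := exists_inc h
  rw [dT_inc_succ]; exact inc_mem_DG _ _

theorem dT_of_DG_zero {c : Tot R X} (h : c ∈ DG R X 0) : dT R X c = 0 := by
  obtain ⟨b, rfl⟩ := exists_inc h
  exact dT_inc_zero b

theorem flt_single (P : TS X → Prop) (σ : TS X) (a : R) :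
    flt R P (single σ a) = if P σ then single σ a else 0 := by
  rw [flt, lsum_single]; split_ifs <;> rfl

theorem flt_apply (P : TS X → Prop) (c : Tot R X) (σ : TS X) :
    flt R P c σ = if P σ then c σ else 0 := by
  induction c using Finsupp.induction_linear with
  | zero => simp
  | add a b ha hb => rw [map_add, Finsupp.add_apply, ha, hb, Finsupp.add_apply]; split_ifs <;> simp
  | single τ a =>
    rw [flt_single]
    by_cases h : τ = σ
    · subst h; split_ifs <;> simp
    · split_ifs <;> simp [h]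

theorem flt_mem (P : TS X → Prop) (c : Tot R X) : flt R P c ∈ supported R R {σ | P σ} :=
  (mem_supported' R _).2 fun σ hσ => by rw [flt_apply]; exact if_neg hσ

theorem flt_of_mem {P : TS X → Prop} {c : Tot R X} (h : c ∈ supported R R {σ | P σ}) :
    flt R P c = c := by
  ext σ
  rw [flt_apply]
  split_ifs with hσ
  · rfl
  · exact ((mem_supported' R _).1 h σ hσ).symm

theorem flt_mem_supported (P : TS X → Prop) {S : Set (TS X)} {c : Tot R X}
    (h : c ∈ supported R R S) : flt R P c ∈ supported R R S :=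
  (mem_supported' R _).2 fun σ hσ => by rw [flt_apply, (mem_supported' R _).1 h σ hσ, ite_self]

theorem prj_mem (A : Set X) (c : Tot R X) : prj R A c ∈ CH R A := flt_mem _ c

theorem prj_of_mem {A : Set X} {c : Tot R X} (h : c ∈ CH R A) : prj R A c = c := flt_of_mem h

theorem prj_mem_CH (A : Set X) {B : Set X} {c : Tot R X} (h : c ∈ CH R B) :
    prj R A c ∈ CH R B := flt_mem_supported _ h

theorem prj_mem_DG (A : Set X) {k : ℕ} {c : Tot R X} (h : c ∈ DG R X k) :
    prj R A c ∈ DG R X k := flt_mem_supported _ h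

theorem prj_eq_zero {A B : Set X} (hAB : Disjoint A B) {c : Tot R X} (h : c ∈ CH R B) :
    prj R A c = 0 := by
  apply eq_zero_of_mem_CH_empty
  rw [← hAB.inter_eq, CH_inter]
  exact ⟨prj_mem A c, prj_mem_CH A h⟩

theorem deg_mem (k : ℕ) (c : Tot R X) : deg R X k c ∈ DG R X k := flt_mem _ c

theorem deg_of_mem {k : ℕ} {c : Tot R X} (h : c ∈ DG R X k) : deg R X k c = c := flt_of_mem h

theorem deg_mem_CH (k : ℕ) {B : Set X} {c : Tot R X} (h : c ∈ CH R B) :
    deg R X k c ∈ CH R B := flt_mem_supported _ h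

theorem deg_eq_zero {k l : ℕ} (hkl : k ≠ l) {c : Tot R X} (h : c ∈ DG R X l) :
    deg R X k c = 0 := eq_zero_of_mem_DG hkl (deg_mem k c) (flt_mem_supported _ h)

theorem deg_inc (k l : ℕ) (c : Sing X l →₀ R) :
    deg R X k (inc R l c) = if l = k then inc R l c else 0 := by
  split_ifs with h
  · subst h; exact deg_of_mem (inc_mem_DG _ _)
  · exact deg_eq_zero (Ne.symm h) (inc_mem_DG _ _)

theorem deg_dT (k : ℕ) (c : Tot R X) : deg R X k (dT R X c) = dT R X (deg R X (k + 1) c) := by
  induction c using Tot.ind with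
  | h0 => simp
  | hadd a b ha hb => simp [ha, hb]
  | h1 l σ a =>
    rcases l with _ | l
    · rw [dT_inc_zero, deg_inc, if_neg (by omega), map_zero, map_zero]
    · rw [dT_inc_succ, deg_inc, deg_inc]
      by_cases h : l = k
      · rw [if_pos h, if_pos (by omega), dT_inc_succ]
      · rw [if_neg h, if_neg (by omega), map_zero]

/-- A chain is the sum of its homogeneous parts. -/
theorem exists_sum_deg (c : Tot R X) :
    ∃ n, ∀ m ≥ n, ∑ k ∈ Finset.range m, deg R X k c = c := by
  refine ⟨c.support.sup (fun σ => σ.1) + 1, fun m hm => ?_⟩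
  ext σ
  rw [Finsupp.finset_sum_apply]
  simp only [deg, flt_apply]
  by_cases h : σ.1 ∈ Finset.range m
  · exact (Finset.sum_eq_single_of_mem _ h fun b _ hb => if_neg (Ne.symm hb)).trans (if_pos rfl)
  · refine (Finset.sum_eq_zero fun b hb => if_neg fun e : σ.1 = b => h (e ▸ hb)).trans ?_
    by_contra h'
    have := Finset.le_sup (f := fun σ : TS X => σ.1) (mem_support_iff.2 (Ne.symm h'))
    exact h (Finset.mem_range.2 (by omega))

theorem psh_single (f : X → Y) (σ : TS X) (h : Continuous (f ∘ σ.2)) (a : R) :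
    psh R f (single σ a) = single ⟨σ.1, ⟨f ∘ σ.2, h⟩⟩ a := by
  rw [psh, lsum_single, dif_pos h]; rfl

theorem psh_single_not (f : X → Y) (σ : TS X) (h : ¬ Continuous (f ∘ σ.2)) (a : R) :
    psh R f (single σ a) = 0 := by
  rw [psh, lsum_single, dif_neg h]; rfl

theorem psh_inc (f : C(X, Y)) (k : ℕ) (c : Sing X k →₀ R) :
    psh R f (inc R k c) = inc R k (push R f k c) := by
  induction c using Finsupp.induction_linear with
  | zero => simp
  | add a b ha hb => simp [ha, hb]
  | single σ a =>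
    rw [inc_single, push_single, inc_single, psh_single _ _ (f.continuous.comp σ.continuous)]
    rfl

theorem psh_mem_CH (f : X → Y) {A : Set X} {B : Set Y} (hf : MapsTo f A B) {c : Tot R X}
    (h : c ∈ CH R A) : psh R f c ∈ CH R B := by
  refine map_CH _ (fun k σ hσ => ?_) h
  by_cases hc : Continuous (f ∘ σ)
  · rw [psh_single f ⟨k, σ⟩ hc]; exact single_mem_CH _ fun t => hf (hσ t)
  · rw [psh_single_not f ⟨k, σ⟩ hc]; exact zero_mem _

theorem psh_mem_DG (f : X → Y) {k : ℕ} {c : Tot R X} (h : c ∈ DG R X k) :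
    psh R f c ∈ DG R Y k := by
  refine map_supported _ ?_ h
  rintro σ rfl
  by_cases hc : Continuous (f ∘ σ.2)
  · rw [psh_single f σ hc]; exact single_mem_DG ⟨σ.1, _⟩ _
  · rw [psh_single_not f σ hc]; exact zero_mem _

theorem psh_congr {f g : X → Y} {A : Set X} (hfg : EqOn f g A) {c : Tot R X} (h : c ∈ CH R A) :
    psh R f c = psh R g c := by
  refine supported_ind (P := fun c => psh R f c = psh R g c) (by simp)
    (fun a b ha hb => by simp [ha, hb]) (fun σ hσ a => ?_) h
  have : f ∘ σ.2 = g ∘ σ.2 := funext fun t => hfg (hσ ⟨t, rfl⟩)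
  simp only [psh, lsum_single, this]

theorem psh_psh (g : Y → Z) {f : X → Y} {A : Set X} (hf : ContinuousOn f A) {c : Tot R X}
    (h : c ∈ CH R A) : psh R g (psh R f c) = psh R (g ∘ f) c := by
  refine supported_ind (P := fun c => psh R g (psh R f c) = psh R (g ∘ f) c) (by simp)
    (fun a b ha hb => by simp [ha, hb]) (fun σ hσ a => ?_) h
  have h1 : Continuous (f ∘ σ.2) := hf.comp_continuous σ.2.continuous fun t => hσ ⟨t, rfl⟩
  rw [psh_single f σ h1]
  by_cases hc : Continuous ((g ∘ f) ∘ σ.2)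
  · rw [psh_single _ σ hc]; exact psh_single g ⟨σ.1, ⟨f ∘ σ.2, h1⟩⟩ hc a
  · rw [psh_single_not _ σ hc]; exact psh_single_not g ⟨σ.1, ⟨f ∘ σ.2, h1⟩⟩ hc a

theorem psh_psh' (g : Y → Z) {f : X → Y} (hf : Continuous f) (c : Tot R X) :
    psh R g (psh R f c) = psh R (g ∘ f) c := psh_psh g hf.continuousOn (mem_CH_univ c)

theorem psh_id (c : Tot R X) : psh R id c = c := by
  induction c using Finsupp.induction_linear with
  | zero => simp
  | add a b ha hb => simp [ha, hb]
  | single σ a => exact psh_single id σ σ.2.continuous a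

theorem psh_of_eqOn_id {f : X → X} {A : Set X} (hf : ∀ x ∈ A, f x = x) {c : Tot R X}
    (h : c ∈ CH R A) : psh R f c = c := (psh_congr (g := id) hf h).trans (psh_id c)

/-- An operator that is natural for continuous maps is natural for maps that are continuous on
the support. -/
theorem nat_psh (F : ∀ (X : Type) [TopologicalSpace X], Module.End R (Tot R X))
    (hF : ∀ (X Y : Type) [TopologicalSpace X] [TopologicalSpace Y] (f : C(X, Y)) (c : Tot R X),
      F Y (psh R f c) = psh R f (F X c))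
    {f : X → Y} {A : Set X} (hf : ContinuousOn f A) {c : Tot R X} (h : c ∈ CH R A) :
    F Y (psh R f c) = psh R f (F X c) := by
  refine supported_ind (P := fun c => F Y (psh R f c) = psh R f (F X c)) (by simp)
    (fun a b ha hb => by simp [ha, hb]) (fun σ hσ a => ?_) h
  have h1 : Continuous (f ∘ σ.2) := hf.comp_continuous σ.2.continuous fun t => hσ ⟨t, rfl⟩
  have e : (single σ a : Tot R X) =
      psh R σ.2 (single ⟨σ.1, ContinuousMap.id _⟩ a : Tot R (Sx σ.1)) := by
    exact (psh_single σ.2 ⟨σ.1, ContinuousMap.id _⟩ σ.2.continuous a).symm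
  rw [e, psh_psh' _ σ.2.continuous, hF _ _ σ.2, psh_psh' _ σ.2.continuous]
  exact hF _ _ ⟨f ∘ σ.2, h1⟩ _

theorem dT_psh' (f : C(X, Y)) (c : Tot R X) : dT R Y (psh R f c) = psh R f (dT R X c) := by
  induction c using Tot.ind with
  | h0 => simp
  | hadd a b ha hb => simp [ha, hb]
  | h1 k σ a =>
    rcases k with _ | k
    · rw [psh_inc, dT_inc_zero, dT_inc_zero, map_zero]
    · rw [psh_inc, dT_inc_succ, dT_inc_succ, psh_inc, bd_push]

theorem dT_psh {f : X → Y} {A : Set X} (hf : ContinuousOn f A) {c : Tot R X} (h : c ∈ CH R A) :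
    dT R Y (psh R f c) = psh R f (dT R X c) :=
  nat_psh (fun X _ => dT R X) (fun _ _ _ _ => dT_psh') hf h

theorem dT_psh_cont {f : X → Y} (hf : Continuous f) (c : Tot R X) :
    dT R Y (psh R f c) = psh R f (dT R X c) := dT_psh' ⟨f, hf⟩ c

theorem sdT_psh {f : X → Y} {A : Set X} (hf : ContinuousOn f A) {c : Tot R X} (h : c ∈ CH R A) :
    sdT R Y (psh R f c) = psh R f (sdT R X c) := by
  refine nat_psh (fun X _ => sdT R X) (fun X Y _ _ f c => ?_) hf h
  induction c using Tot.ind with
  | h0 => simp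
  | hadd a b ha hb => simp [ha, hb]
  | h1 k σ a => rw [psh_inc, sdT_inc, sdT_inc, psh_inc, push_sdR]

theorem sdH_psh {f : X → Y} {A : Set X} (hf : ContinuousOn f A) {c : Tot R X} (h : c ∈ CH R A) :
    sdH R Y (psh R f c) = psh R f (sdH R X c) := by
  refine nat_psh (fun X _ => sdH R X) (fun X Y _ _ f c => ?_) hf h
  induction c using Tot.ind with
  | h0 => simp
  | hadd a b ha hb => simp [ha, hb]
  | h1 k σ a => rw [psh_inc, sdH_inc, sdH_inc, psh_inc, push_sdHR]

theorem deg_psh (f : X → Y) (k : ℕ) (c : Tot R X) :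
    deg R Y k (psh R f c) = psh R f (deg R X k c) := by
  induction c using Tot.ind with
  | h0 => simp
  | hadd a b ha hb => simp [ha, hb]
  | h1 l σ a =>
    rw [deg_inc]
    split_ifs with h
    · subst h; exact deg_of_mem (psh_mem_DG f (inc_mem_DG _ _))
    · rw [map_zero]; exact deg_eq_zero (Ne.symm h) (psh_mem_DG f (inc_mem_DG _ _))

theorem psh_pt (f : X → Y) (x : X) : psh R f (pt R x) = pt R (f x) :=
  psh_single f ⟨0, ContinuousMap.const _ x⟩ (continuous_const (y := f x)) 1

theorem pt_mem_CH {A : Set X} {x : X} (h : x ∈ A) : pt R x ∈ CH R A :=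
  single_mem_CH _ fun _ => h

theorem pt_mem_DG (x : X) : pt R x ∈ DG R X 0 := single_mem_DG ⟨0, _⟩ _

theorem dT_pt (x : X) : dT R X (pt R x) = 0 := dT_of_DG_zero (pt_mem_DG x)

theorem pth_mem_CH {A : Set X} {γ : C(unitInterval, X)} (h : ∀ t, γ t ∈ A) : pth R γ ∈ CH R A :=
  single_mem_CH _ fun _ => h _

theorem pth_mem_DG (γ : C(unitInterval, X)) : pth R γ ∈ DG R X 1 := single_mem_DG ⟨1, _⟩ _

theorem psh_pth (f : X → Y) (γ : C(unitInterval, X)) (h : Continuous (f ∘ γ)) :
    psh R f (pth R γ) = pth R ⟨f ∘ γ, h⟩ :=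
  psh_single f ⟨1, γ.comp (stdSimplexHomeomorphUnitInterval : C(Sx 1, unitInterval))⟩
    (h.comp stdSimplexHomeomorphUnitInterval.continuous) 1

theorem dT_pth (γ : C(unitInterval, X)) : dT R X (pth R γ) = pt R (γ 1) - pt R (γ 0) := by
  rw [pth, ← inc_single, dT_inc_succ, bd_single, Fin.sum_univ_two, map_add, map_zsmul, map_zsmul,
    inc_single, inc_single, pt, pt]
  have h (i : Fin 2) (y : Sx 0) : (coface i y : Sx 1) (i.succAbove 0) = 1 :=
    (coface_succAbove i y 0).trans (stdSimplex.eq_one_of_unique (X := Fin 1) y 0)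
  have h0 : face 0 (γ.comp (stdSimplexHomeomorphUnitInterval : C(Sx 1, unitInterval))) =
      ContinuousMap.const _ (γ 1) := by
    ext y
    exact congrArg γ (Subtype.ext (h 0 y))
  have h1 : face 1 (γ.comp (stdSimplexHomeomorphUnitInterval : C(Sx 1, unitInterval))) =
      ContinuousMap.const _ (γ 0) := by
    ext y
    exact congrArg γ (Subtype.ext (coface_same (1 : Fin 2) y))
  rw [h0, h1]
  simp [sub_eq_add_neg]

theorem val0_pt {M : Type} [AddCommGroup M] [Module R M] (f : X → M) (x : X) :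
    val0 R f (pt R x) = f x := by
  simp [val0, pt]

theorem val0_of_DG {M : Type} [AddCommGroup M] [Module R M] (f : X → M) {k : ℕ} (hk : k ≠ 0)
    {c : Tot R X} (h : c ∈ DG R X k) : val0 R f c = 0 := by
  refine supported_ind (P := fun c => val0 R f c = 0) (by simp)
    (fun a b ha hb => by simp [ha, hb]) ?_ h
  rintro σ rfl a
  simp [val0, hk]

/-- Chains of degree zero in `A` are combinations of points of `A`. -/
theorem DG_zero_ind {A : Set X} {P : Tot R X → Prop} (h0 : P 0)
    (hadd : ∀ a b, P a → P b → P (a + b)) (h1 : ∀ x ∈ A, ∀ a : R, P (a • pt R x))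
    {c : Tot R X} (hc : c ∈ CH R A) (hd : c ∈ DG R X 0) : P c := by
  have : c ∈ supported R R ({σ : TS X | range σ.2 ⊆ A} ∩ {σ | σ.1 = 0}) := by
    rw [supported_inter]; exact ⟨hc, hd⟩
  refine supported_ind h0 hadd ?_ this
  rintro ⟨k, σ⟩ ⟨hσ, rfl : k = 0⟩ a
  have e : σ = ContinuousMap.const _ (σ stdSimplex.barycenter) := by
    ext y; exact congrArg σ (Subsingleton.elim _ _)
  have := h1 (σ stdSimplex.barycenter) (hσ ⟨_, rfl⟩) a
  rwa [pt, smul_single, smul_eq_mul, mul_one, ← e] at this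

theorem sgn_single (e : ℕ → ℤ) (σ : TS X) (a : R) :
    sgn R X e (single σ a) = e σ.1 • single σ a := by
  rw [sgn, lsum_single]; rfl

theorem sgn_of_DG (e : ℕ → ℤ) {k : ℕ} {c : Tot R X} (h : c ∈ DG R X k) :
    sgn R X e c = e k • c := by
  refine supported_ind (P := fun c => sgn R X e c = e k • c) (by simp)
    (fun a b ha hb => by simp [ha, hb]) ?_ h
  rintro σ rfl a
  exact sgn_single e σ a

theorem sgn_mem_CH (e : ℕ → ℤ) {A : Set X} {c : Tot R X} (h : c ∈ CH R A) :
    sgn R X e c ∈ CH R A :=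
  map_CH _ (fun k σ hσ => by rw [sgn_single]; exact zsmul_mem (single_mem_CH _ hσ) _) h

theorem dT_sdT (c : Tot R X) : dT R X (sdT R X c) = sdT R X (dT R X c) := by
  induction c using Tot.ind with
  | h0 => simp
  | hadd a b ha hb => simp [ha, hb]
  | h1 k σ a =>
    rcases k with _ | k
    · rw [sdT_inc, dT_inc_zero, dT_inc_zero, map_zero]
    · rw [sdT_inc, dT_inc_succ, dT_inc_succ, sdT_inc, bd_sdR]

theorem dT_sdH (c : Tot R X) : dT R X (sdH R X c) + sdH R X (dT R X c) = c - sdT R X c := by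
  induction c using Tot.ind with
  | h0 => simp
  | hadd a b ha hb => simp only [map_add]; rw [add_add_add_comm, ha, hb]; abel
  | h1 k σ a =>
    rcases k with _ | k
    · rw [sdH_inc, sdHR_zero, dT_inc_zero, sdT_inc, sdR_zero]; simp
    · rw [sdH_inc, dT_inc_succ, dT_inc_succ, sdH_inc, sdT_inc, bd_sdHR, map_sub, map_sub]; abel

theorem sdT_mem_CH {A : Set X} {c : Tot R X} (h : c ∈ CH R A) : sdT R X c ∈ CH R A :=
  map_CH _ (fun k σ hσ => by
    rw [← inc_single, sdT_inc, inc_mem_CH]; exact sdR_mem_supp (single_mem_supp _ hσ)) h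

theorem sdH_mem_CH {A : Set X} {c : Tot R X} (h : c ∈ CH R A) : sdH R X c ∈ CH R A :=
  map_CH _ (fun k σ hσ => by
    rw [← inc_single, sdH_inc, inc_mem_CH]; exact sdHR_mem_supp (single_mem_supp _ hσ)) h

theorem sdT_mem_DG {k : ℕ} {c : Tot R X} (h : c ∈ DG R X k) : sdT R X c ∈ DG R X k := by
  obtain ⟨b, rfl⟩ := exists_inc h
  rw [sdT_inc]; exact inc_mem_DG _ _

theorem sdH_mem_DG {k : ℕ} {c : Tot R X} (h : c ∈ DG R X k) : sdH R X c ∈ DG R X (k + 1) := by
  obtain ⟨b, rfl⟩ := exists_inc h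
  rw [sdH_inc]; exact inc_mem_DG _ _

theorem pow_mem {M : Type} [AddCommGroup M] [Module R M] {f : Module.End R M}
    {S : Submodule R M} (hf : ∀ c ∈ S, f c ∈ S) (m : ℕ) {c : M} (h : c ∈ S) : (f ^ m) c ∈ S := by
  induction m with
  | zero => exact h
  | succ m ih => rw [pow_succ', Module.End.mul_apply]; exact hf _ ih

theorem sdT_pow_mem_CH {A : Set X} (m : ℕ) {c : Tot R X} (h : c ∈ CH R A) :
    (sdT R X ^ m) c ∈ CH R A := pow_mem (fun _ => sdT_mem_CH) m h

theorem sdT_pow_mem_DG {k : ℕ} (m : ℕ) {c : Tot R X} (h : c ∈ DG R X k) :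
    (sdT R X ^ m) c ∈ DG R X k := pow_mem (fun _ => sdT_mem_DG) m h

theorem sdHP_mem_CH {A : Set X} (m : ℕ) {c : Tot R X} (h : c ∈ CH R A) :
    sdHP R X m c ∈ CH R A := by
  rw [sdHP, LinearMap.sum_apply]
  exact sum_mem fun j _ => sdH_mem_CH (sdT_pow_mem_CH j h)

theorem sdHP_mem_DG {k : ℕ} (m : ℕ) {c : Tot R X} (h : c ∈ DG R X k) :
    sdHP R X m c ∈ DG R X (k + 1) := by
  rw [sdHP, LinearMap.sum_apply]
  exact sum_mem fun j _ => sdH_mem_DG (sdT_pow_mem_DG j h)

theorem dT_sdT_pow (m : ℕ) (c : Tot R X) :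
    dT R X ((sdT R X ^ m) c) = (sdT R X ^ m) (dT R X c) := by
  induction m with
  | zero => rfl
  | succ m ih => rw [pow_succ', Module.End.mul_apply, Module.End.mul_apply, dT_sdT, ih]

theorem dT_sdHP (m : ℕ) (c : Tot R X) :
    dT R X (sdHP R X m c) + sdHP R X m (dT R X c) = c - (sdT R X ^ m) c := by
  induction m with
  | zero => simp [sdHP]
  | succ m ih =>
    simp only [sdHP, Finset.sum_range_succ, LinearMap.add_apply, map_add, Module.End.mul_apply]
      at ih ⊢
    rw [add_add_add_comm, ih, ← dT_sdT_pow, dT_sdH, pow_succ', Module.End.mul_apply]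
    abel

theorem sdT_pow_inc (m k : ℕ) (c : Sing X k →₀ R) :
    (sdT R X ^ m) (inc R k c) = inc R k ((sdR R X k ^ m) c) := by
  induction m with
  | zero => rfl
  | succ m ih => rw [pow_succ', pow_succ', Module.End.mul_apply, Module.End.mul_apply, ih, sdT_inc]

/-- Small chains for any family of open sets. -/
theorem sdT_small {ι : Type} {U : ι → Set X} (hU : ∀ i, IsOpen (U i)) {c : Tot R X}
    (h : c ∈ CH R (⋃ i, U i)) : ∃ m : ℕ, ∀ m' ≥ m, (sdT R X ^ m') c ∈ ⨆ i, CH R (U i) := by
  refine CH_ind (P := fun c => ∃ m : ℕ, ∀ m' ≥ m, (sdT R X ^ m') c ∈ ⨆ i, CH R (U i))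
    ⟨0, fun _ _ => by simp⟩ ?_ (fun k σ a hσ => ?_) h
  · rintro a b ⟨m, hm⟩ ⟨n, hn⟩
    refine ⟨max m n, fun m' h' => ?_⟩
    rw [map_add]
    exact add_mem (hm _ (le_of_max_le_left h')) (hn _ (le_of_max_le_right h'))
  obtain ⟨m, hm⟩ := sdR_small hU (single_mem_supp a hσ)
  refine ⟨m, fun m' h' => ?_⟩
  rw [sdT_pow_inc]
  have : (⨆ i, supp R (U i) k) ≤ (⨆ i, CH R (U i)).comap (inc R k) :=
    iSup_le fun i c hc => Submodule.mem_iSup_of_mem i (inc_mem_CH.2 hc)
  exact this (hm m' h')

theorem sdT_small_two {U V : Set X} (hU : IsOpen U) (hV : IsOpen V) {c : Tot R X}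
    (h : c ∈ CH R (U ∪ V)) : ∃ m : ℕ, ∀ m' ≥ m, (sdT R X ^ m') c ∈ CH R U ⊔ CH R V := by
  obtain ⟨m, hm⟩ := sdT_small (U := fun b : Bool => cond b U V)
    (by rintro (_ | _) <;> assumption) (by rwa [← Set.union_eq_iUnion])
  refine ⟨m, fun m' h' => ?_⟩
  have := hm m' h'
  rwa [iSup_bool_eq] at this

/-- Chains in a disjoint union of open sets split. -/
theorem CH_union_of_disjoint {U V : Set X} (hU : IsOpen U) (hV : IsOpen V) (hd : Disjoint U V) :
    CH R (U ∪ V) = CH R U ⊔ CH R V := by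
  refine le_antisymm (fun c hc => ?_)
    (sup_le (CH_mono subset_union_left) (CH_mono subset_union_right))
  refine map_CH (T := CH R U ⊔ CH R V) LinearMap.id (fun k σ hσ => ?_) hc
  rcases (isPreconnected_range σ.continuous).subset_or_subset hU hV hd
    (by rintro _ ⟨t, rfl⟩; exact hσ t) with h | h
  · exact Submodule.mem_sup_left (single_mem_CH _ fun t => h ⟨t, rfl⟩)
  · exact Submodule.mem_sup_right (single_mem_CH _ fun t => h ⟨t, rfl⟩)

variable {S : Type} [CommRing S] (φ : R →+* S)

theorem cast_apply (c : Tot R X) (σ : TS X) : cast φ X c σ = φ (c σ) := rfl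

theorem cast_single (σ : TS X) (a : R) : cast φ X (single σ a) = single σ (φ a) :=
  mapRange_single (hf := φ.map_zero)

theorem cast_mem_supported {T : Set (TS X)} {c : Tot R X} (h : c ∈ supported R R T) :
    cast φ X c ∈ supported S S T :=
  (mem_supported' S _).2 fun σ hσ => by rw [cast_apply, (mem_supported' R _).1 h σ hσ, map_zero]

theorem cast_mem_CH {A : Set X} {c : Tot R X} (h : c ∈ CH R A) : cast φ X c ∈ CH S A :=
  cast_mem_supported φ h

theorem cast_mem_DG {k : ℕ} {c : Tot R X} (h : c ∈ DG R X k) : cast φ X c ∈ DG S X k :=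
  cast_mem_supported φ h

theorem cast_psh (f : X → Y) (c : Tot R X) : cast φ Y (psh R f c) = psh S f (cast φ X c) := by
  induction c using Finsupp.induction_linear with
  | zero => simp
  | add a b ha hb => simp [ha, hb]
  | single σ a =>
    rw [cast_single]
    by_cases h : Continuous (f ∘ σ.2)
    · rw [psh_single f σ h, psh_single f σ h, cast_single]
    · rw [psh_single_not f σ h, psh_single_not f σ h, map_zero]

theorem cast_dT (c : Tot R X) : cast φ X (dT R X c) = dT S X (cast φ X c) := by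
  induction c using Finsupp.induction_linear with
  | zero => simp
  | add a b ha hb => simp [ha, hb]
  | single σ a =>
    obtain ⟨k, σ⟩ := σ
    rw [cast_single, ← inc_single, ← inc_single]
    rcases k with _ | k
    · rw [dT_inc_zero, dT_inc_zero, map_zero]
    · rw [dT_inc_succ, dT_inc_succ, bd_single, bd_single, map_sum, map_sum, map_sum]
      refine Finset.sum_congr rfl fun i _ => ?_
      rw [map_zsmul, map_zsmul, map_zsmul, inc_single, inc_single, cast_single]

theorem cast_pt (x : X) : cast φ X (pt R x) = pt S x := by rw [pt, cast_single, map_one, pt]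

theorem cast_pth (γ : C(unitInterval, X)) : cast φ X (pth R γ) = pth S γ := by
  rw [pth, cast_single, map_one, pth]

end Api

end

end Pool.Agent.MP_bc14e1_gt
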