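import Pool.Agent.MP_bc14e1_gt.Core

/-! Cross products, homotopy operators, group actions on chains, Laurent polynomials. -/

open Set Metric
open scoped Classical

namespace Pool.Agent.MP_bc14e1_gt

noncomputable section

/-- A cross product of singular chains with its properties. -/
structure Kit where
  cx : ∀ (R : Type) [CommRing R] (X Y : Type) [TopologicalSpace X] [TopologicalSpace Y],
    Tot R X →ₗ[R] Tot R Y →ₗ[R] Tot R (X × Y)
  sw : ∀ (R : Type) [CommRing R] (X Y : Type) [TopologicalSpace X] [TopologicalSpace Y],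
    Tot R X →ₗ[R] Tot R Y →ₗ[R] Tot R (Y × X)
  leib : ∀ (R : Type) [CommRing R] (X Y : Type) [TopologicalSpace X] [TopologicalSpace Y]
    (u : Tot R X) (v : Tot R Y),
    dT R _ (cx R X Y u v) = cx R X Y (dT R X u) v + cx R X Y (eps R X u) (dT R Y v)
  nat : ∀ (R : Type) [CommRing R] (X Y X' Y' : Type) [TopologicalSpace X] [TopologicalSpace Y]
    [TopologicalSpace X'] [TopologicalSpace Y'] (f : X → X') (g : Y → Y') (A : Set X) (B : Set Y),
    ContinuousOn f A → ContinuousOn g B → ∀ u ∈ CH R A, ∀ v ∈ CH R B,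
    psh R (Prod.map f g) (cx R X Y u v) = cx R X' Y' (psh R f u) (psh R g v)
  mem : ∀ (R : Type) [CommRing R] (X Y : Type) [TopologicalSpace X] [TopologicalSpace Y]
    (A : Set X) (B : Set Y), ∀ u ∈ CH R A, ∀ v ∈ CH R B, cx R X Y u v ∈ CH R (A ×ˢ B)
  dg : ∀ (R : Type) [CommRing R] (X Y : Type) [TopologicalSpace X] [TopologicalSpace Y]
    (p q : ℕ), ∀ u ∈ DG R X p, ∀ v ∈ DG R Y q, cx R X Y u v ∈ DG R (X × Y) (p + q)
  x_pt : ∀ (R : Type) [CommRing R] (X Y : Type) [TopologicalSpace X] [TopologicalSpace Y]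
    (u : Tot R X) (y : Y), cx R X Y u (pt R y) = psh R (fun x => (x, y)) u
  pt_x : ∀ (R : Type) [CommRing R] (X Y : Type) [TopologicalSpace X] [TopologicalSpace Y]
    (x : X) (v : Tot R Y), cx R X Y (pt R x) v = psh R (fun y => (x, y)) v
  cst : ∀ (R S : Type) [CommRing R] [CommRing S] (φ : R →+* S) (X Y : Type) [TopologicalSpace X]
    [TopologicalSpace Y] (u : Tot R X) (v : Tot R Y),
    cast φ _ (cx R X Y u v) = cx S X Y (cast φ X u) (cast φ Y v)
  c22 : ∀ (X Y : Type) [TopologicalSpace X] [TopologicalSpace Y] (x : Sing X 2 →₀ ℤ)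
    (y : Sing Y 2 →₀ ℤ), cx ℤ X Y (inc ℤ 2 x) (inc ℤ 2 y) = inc ℤ 4 (cross22 x y)
  sw_d : ∀ (R : Type) [CommRing R] (X Y : Type) [TopologicalSpace X] [TopologicalSpace Y]
    (p q : ℕ), ∀ u ∈ DG R X p, ∀ v ∈ DG R Y q,
    psh R Prod.swap (cx R X Y u v) - (-1 : ℤ) ^ (p * q) • cx R Y X v u =
      dT R _ (sw R X Y u v) + sw R X Y (dT R X u) v + sw R X Y (eps R X u) (dT R Y v)
  sw_nat : ∀ (R : Type) [CommRing R] (X Y X' Y' : Type) [TopologicalSpace X] [TopologicalSpace Y]
    [TopologicalSpace X'] [TopologicalSpace Y'] (f : X → X') (g : Y → Y'),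
    Continuous f → Continuous g → ∀ u v,
    psh R (Prod.map g f) (sw R X Y u v) = sw R X' Y' (psh R f u) (psh R g v)
  sw_mem : ∀ (R : Type) [CommRing R] (X Y : Type) [TopologicalSpace X] [TopologicalSpace Y]
    (A : Set X) (B : Set Y), ∀ u ∈ CH R A, ∀ v ∈ CH R B, sw R X Y u v ∈ CH R (B ×ˢ A)
  sw_dg : ∀ (R : Type) [CommRing R] (X Y : Type) [TopologicalSpace X] [TopologicalSpace Y]
    (p q : ℕ), ∀ u ∈ DG R X p, ∀ v ∈ DG R Y q, sw R X Y u v ∈ DG R (Y × X) (p + q + 1)

section Hop

variable (κ : Kit) (R : Type) [CommRing R] {X Y Z : Type} [TopologicalSpace X]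
  [TopologicalSpace Y] [TopologicalSpace Z]

/-- The unit interval as a chain in the line. -/
def ivl : Tot R ℝ := pth R ⟨Subtype.val, continuous_subtype_val⟩

/-- The chain homotopy of a homotopy. -/
def hop (H : ℝ × X → Y) : Tot R X →ₗ[R] Tot R Y := psh R H ∘ₗ κ.cx R ℝ X (ivl R)

variable {R}

theorem ivl_mem_CH : ivl R ∈ CH R (Icc (0 : ℝ) 1) := pth_mem_CH fun t => t.2

theorem hop_mem_CH (H : ℝ × X → Y) {A : Set X} {B : Set Y} (hH : MapsTo H (Icc 0 1 ×ˢ A) B)
    {c : Tot R X} (h : c ∈ CH R A) : hop κ R H c ∈ CH R B :=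
  psh_mem_CH H hH (κ.mem R ℝ X _ _ _ ivl_mem_CH _ h)

theorem hop_mem_DG (H : ℝ × X → Y) {k : ℕ} {c : Tot R X} (h : c ∈ DG R X k) :
    hop κ R H c ∈ DG R Y (k + 1) :=
  psh_mem_DG H (add_comm 1 k ▸ κ.dg R ℝ X 1 k _ (pth_mem_DG _) _ h)

theorem dT_hop {H : ℝ × X → Y} {A : Set X} (hH : ContinuousOn H (Icc 0 1 ×ˢ A)) {c : Tot R X}
    (h : c ∈ CH R A) : dT R Y (hop κ R H c) + hop κ R H (dT R X c) =
      psh R (fun x => H (1, x)) c - psh R (fun x => H (0, x)) c := by
  have e : eps R ℝ (ivl R) = -ivl R := by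
    rw [eps, ivl, sgn_of_DG _ (pth_mem_DG _)]; simp
  have d : dT R ℝ (ivl R) = pt R 1 - pt R 0 := dT_pth _
  simp only [hop, LinearMap.comp_apply]
  rw [dT_psh hH (κ.mem R ℝ X _ _ _ ivl_mem_CH _ h), κ.leib, e, d, map_neg, LinearMap.neg_apply,
    map_add, map_neg, neg_add_cancel_right, map_sub, LinearMap.sub_apply, κ.pt_x, κ.pt_x, map_sub,
    psh_psh' _ (by fun_prop), psh_psh' _ (by fun_prop)]
  rfl

theorem psh_hop (f : Y → Z) {H : ℝ × X → Y} {A : Set X} (hH : ContinuousOn H (Icc 0 1 ×ˢ A))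
    {c : Tot R X} (h : c ∈ CH R A) : psh R f (hop κ R H c) = hop κ R (f ∘ H) c :=
  psh_psh f hH (κ.mem R ℝ X _ _ _ ivl_mem_CH _ h)

theorem hop_psh (H : ℝ × Y → Z) {f : X → Y} {A : Set X} (hf : ContinuousOn f A) {c : Tot R X}
    (h : c ∈ CH R A) : hop κ R H (psh R f c) = hop κ R (H ∘ Prod.map id f) c := by
  simp only [hop, LinearMap.comp_apply]
  have := κ.nat R ℝ X ℝ Y id f _ A continuousOn_id hf _ ivl_mem_CH _ h
  rw [psh_id] at this
  rw [← this, psh_psh H (continuousOn_id.prodMap hf) (κ.mem R ℝ X _ _ _ ivl_mem_CH _ h)]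

theorem hop_congr {H H' : ℝ × X → Y} {A : Set X} (hH : EqOn H H' (Icc 0 1 ×ˢ A)) {c : Tot R X}
    (h : c ∈ CH R A) : hop κ R H c = hop κ R H' c :=
  psh_congr hH (κ.mem R ℝ X _ _ _ ivl_mem_CH _ h)

theorem cast_hop {S : Type} [CommRing S] (φ : R →+* S) (H : ℝ × X → Y) (c : Tot R X) :
    cast φ Y (hop κ R H c) = hop κ S H (cast φ X c) := by
  simp only [hop, LinearMap.comp_apply]
  rw [cast_psh, κ.cst, ivl, cast_pth, ivl]

end Hop

/-- Laurent polynomials. -/
abbrev Lam (R : Type) [CommRing R] : Type := LaurentPolynomial R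

section Act

variable (R : Type) [CommRing R] {G : Type} [Group G] (Y : Type) [TopologicalSpace Y]
  [MulAction G Y] [ContinuousConstSMul G Y]

/-- The action of a group element on chains. -/
def gs (g : G) : Module.End R (Tot R Y) := psh R fun y : Y => g • y

/-- The action of the group on chains. -/
def gsH : G →* Module.End R (Tot R Y) where
  toFun := gs R Y
  map_one' := LinearMap.ext fun c => psh_of_eqOn_id (fun y _ => one_smul G y) (mem_CH_univ c)
  map_mul' g h := LinearMap.ext fun c => by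
    rw [Module.End.mul_apply, gs, gs, gs, psh_psh' _ (continuous_const_smul h)]
    exact psh_congr (fun y _ => mul_smul g h y) (mem_CH_univ c)

/-- The action of Laurent polynomials in `s` on chains. -/
def act (s : G) : Lam R →ₐ[R] Module.End R (Tot R Y) :=
  AddMonoidAlgebra.lift R _ ℤ ((gsH R Y).comp (zpowersHom G s))

/-- The chain complex as a module over the Laurent polynomials in `s`. -/
def Tw (_s : G) : Type := Tot R Y

instance (s : G) : AddCommGroup (Tw R Y s) := inferInstanceAs (AddCommGroup (Tot R Y))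

instance (s : G) : Module R (Tw R Y s) := inferInstanceAs (Module R (Tot R Y))

instance (s : G) : Module (Lam R) (Tw R Y s) := Module.compHom (Tot R Y) (act R Y s).toRingHom

/-- The identification of `Tw` with `Tot`. -/
def toTw (s : G) : Tot R Y ≃ₗ[R] Tw R Y s := LinearEquiv.refl R (Tot R Y)

variable {R Y}

theorem Tw.smul_def (s : G) (a : Lam R) (c : Tot R Y) :
    a • toTw R Y s c = toTw R Y s (act R Y s a c) := rfl

instance (s : G) : IsScalarTower R (Lam R) (Tw R Y s) :=
  ⟨fun r a c => by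
    change act R Y s (r • a) c = r • act R Y s a c
    rw [map_smul]; rfl⟩

theorem gs_mul (g h : G) (c : Tot R Y) : gs R Y (g * h) c = gs R Y g (gs R Y h c) := by
  change gsH R Y (g * h) c = _
  rw [map_mul]; rfl

theorem gs_one (c : Tot R Y) : gs R Y (1 : G) c = c := by
  change gsH R Y 1 c = _
  rw [map_one]; rfl

theorem act_T (s : G) (n : ℤ) : act R Y s (LaurentPolynomial.T n) = gs R Y (s ^ n) := by
  rw [act, LaurentPolynomial.T, AddMonoidAlgebra.lift_single, one_smul]; rfl

theorem act_C (s : G) (a : R) (c : Tot R Y) : act R Y s (LaurentPolynomial.C a) c = a • c := by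
  rw [LaurentPolynomial.C_eq_algebraMap, AlgHom.commutes]; rfl

theorem dT_gs (g : G) (c : Tot R Y) : dT R Y (gs R Y g c) = gs R Y g (dT R Y c) :=
  dT_psh_cont (continuous_const_smul g) c

omit [ContinuousConstSMul G Y] in
theorem gs_mem_DG (g : G) {k : ℕ} {c : Tot R Y} (h : c ∈ DG R Y k) : gs R Y g c ∈ DG R Y k :=
  psh_mem_DG _ h

omit [ContinuousConstSMul G Y] in
theorem gs_mem_CH (g : G) {A B : Set Y} (hg : ∀ y ∈ A, g • y ∈ B) {c : Tot R Y}
    (h : c ∈ CH R A) : gs R Y g c ∈ CH R B := psh_mem_CH _ hg h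

/-- A linear map that intertwines the actions of `s` and `s'` is linear over the Laurent
polynomials. -/
theorem map_act {G' Y' : Type} [Group G'] [TopologicalSpace Y'] [MulAction G' Y']
    [ContinuousConstSMul G' Y'] {s : G} {s' : G'} (f : Tot R Y →ₗ[R] Tot R Y')
    (hf : ∀ c, f (gs R Y s c) = gs R Y' s' (f c)) (a : Lam R) (c : Tot R Y) :
    f (act R Y s a c) = act R Y' s' a (f c) := by
  have hn : ∀ (n : ℕ) c, f (gs R Y (s ^ n) c) = gs R Y' (s' ^ n) (f c) := by
    intro n
    induction n with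
    | zero => intro c; rw [pow_zero, pow_zero, gs_one, gs_one]
    | succ n ih => intro c; rw [pow_succ, pow_succ, gs_mul, gs_mul, ih, hf]
  have hz : ∀ (n : ℤ) c, f (gs R Y (s ^ n) c) = gs R Y' (s' ^ n) (f c) := by
    rintro (n | n) c
    · simpa using hn n c
    · have := hn (n + 1) (gs R Y (s ^ Int.negSucc n) c)
      rw [← gs_mul, zpow_negSucc, mul_inv_cancel, gs_one] at this
      rw [this, ← gs_mul, zpow_negSucc, zpow_negSucc, inv_mul_cancel, gs_one]
  induction a using LaurentPolynomial.induction_on' with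
  | add p q hp hq => simp only [map_add, LinearMap.add_apply, hp, hq]
  | C_mul_T n a =>
    rw [map_mul, map_mul, Module.End.mul_apply, Module.End.mul_apply, act_C, act_C, act_T, act_T,
      map_smul, hz]

/-- A submodule that is stable under the powers of `s` is stable under Laurent polynomials. -/
theorem act_mem {s : G} {M : Submodule R (Tot R Y)} (hM : ∀ n : ℤ, ∀ c ∈ M, gs R Y (s ^ n) c ∈ M)
    (a : Lam R) {c : Tot R Y} (h : c ∈ M) : act R Y s a c ∈ M := by
  induction a using LaurentPolynomial.induction_on' with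
  | add p q hp hq => rw [map_add, LinearMap.add_apply]; exact add_mem hp hq
  | C_mul_T n a =>
    rw [map_mul, Module.End.mul_apply, act_C, act_T]; exact M.smul_mem _ (hM n c h)

/-- Sets that are invariant under `s`. -/
def Inv (s : G) (A : Set Y) : Prop := ∀ y, s • y ∈ A ↔ y ∈ A

omit [TopologicalSpace Y] [ContinuousConstSMul G Y] in
theorem Inv.zpow {s : G} {A : Set Y} (hA : Inv s A) (n : ℤ) (y : Y) : s ^ n • y ∈ A ↔ y ∈ A := by
  induction n using Int.induction_on generalizing y with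
  | zero => simp
  | succ n ih => rw [zpow_add_one, mul_smul, ih, hA]
  | pred n ih => rw [zpow_sub_one, mul_smul, ih, ← hA, smul_inv_smul]

theorem act_mem_CH {s : G} {A : Set Y} (hA : Inv s A) (a : Lam R) {c : Tot R Y}
    (h : c ∈ CH R A) : act R Y s a c ∈ CH R A :=
  act_mem (fun n _ hc => gs_mem_CH _ (fun y hy => (hA.zpow n y).2 hy) hc) a h

theorem act_mem_DG (s : G) (a : Lam R) {k : ℕ} {c : Tot R Y} (h : c ∈ DG R Y k) :
    act R Y s a c ∈ DG R Y k := act_mem (fun _ _ hc => gs_mem_DG _ hc) a h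

theorem dT_act (s : G) (a : Lam R) (c : Tot R Y) :
    dT R Y (act R Y s a c) = act R Y s a (dT R Y c) := map_act _ (dT_gs s) a c

theorem prj_gs (g : G) {A : Set Y} (hA : Inv g A) (c : Tot R Y) :
    prj R A (gs R Y g c) = gs R Y g (prj R A c) := by
  induction c using Finsupp.induction_linear with
  | zero => simp
  | add a b ha hb => simp [ha, hb]
  | single σ a =>
    have h : Continuous ((fun y : Y => g • y) ∘ σ.2) :=
      (continuous_const_smul g).comp σ.2.continuous
    have e : range ((fun y : Y => g • y) ∘ σ.2) ⊆ A ↔ range σ.2 ⊆ A := by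
      simp only [range_subset_iff, Function.comp_apply, hA _]
    rw [gs, psh_single _ σ h, prj, flt_single, flt_single]
    by_cases h' : range σ.2 ⊆ A
    · rw [if_pos h', psh_single _ σ h]; exact if_pos (e.2 h')
    · rw [if_neg h', map_zero]; exact if_neg fun h'' => h' (e.1 h'')

/-- An equivariant operator as a linear map over the Laurent polynomials. -/
def twMap {s : G} (f : Module.End R (Tot R Y)) (hf : ∀ c, f (gs R Y s c) = gs R Y s (f c)) :
    Tw R Y s →ₗ[Lam R] Tw R Y s where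
  toFun := f
  map_add' := f.map_add
  map_smul' := map_act f hf

/-- A stable submodule as a submodule over the Laurent polynomials. -/
def twSub {s : G} (M : Submodule R (Tot R Y)) (hM : ∀ n : ℤ, ∀ c ∈ M, gs R Y (s ^ n) c ∈ M) :
    Submodule (Lam R) (Tw R Y s) where
  carrier := M.carrier
  add_mem' := M.add_mem
  zero_mem' := M.zero_mem
  smul_mem' a _ h := act_mem hM a h

variable (R Y) in
/-- The boundary as a linear map over the Laurent polynomials. -/
def dTw (s : G) : Tw R Y s →ₗ[Lam R] Tw R Y s := twMap (dT R Y) (dT_gs s)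

variable (R) in
/-- Chains of degree `k` over the set `J` for an invariant map `f`. -/
def lvTw {S : Type} (s : G) (f : Y → S) (hf : ∀ y, f (s • y) = f y) (k : ℕ) (J : Set S) :
    Submodule (Lam R) (Tw R Y s) :=
  twSub (CH R (f ⁻¹' J) ⊓ DG R Y k) fun n _ h =>
    ⟨gs_mem_CH _ (fun y hy => (Inv.zpow (s := s) (A := f ⁻¹' J)
      (fun y => by simp only [mem_preimage, hf]) n y).2 hy) h.1, gs_mem_DG _ h.2⟩

end Act

/-- The involution of the complex Laurent polynomials. -/
def cj : Lam ℂ →+* Lam ℂ :=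
  (LaurentPolynomial.invert (R := ℂ)).toRingEquiv.toRingHom.comp
    (AddMonoidAlgebra.mapRingHom ℤ (starRingEnd ℂ))

/-- Evaluation at a point of the unit circle. -/
def evL (ω : Circle) : Lam ℂ →ₐ[ℂ] ℂ :=
  AddMonoidAlgebra.lift ℂ ℂ ℤ (Circle.coeHom.comp (zpowersHom Circle ω))

/-- The prime `T - ω`. -/
def piL (ω : Circle) : Lam ℂ := LaurentPolynomial.T 1 - LaurentPolynomial.C (ω : ℂ)

end

end Pool.Agent.MP_bc14e1_gt
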