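import Pool.Agent.MP_bc14e1_gt.Stmt

/-! The definitions of the statement written out in dimensions two and four. -/

open Set Metric
open scoped Manifold ContDiff

namespace Pool.Agent.MP_bc14e1_gt

/-- `K ⊆ S³` is smoothly slice: it bounds a smoothly and properly embedded disc in `B⁴` that is
transverse to the boundary sphere. -/
def Slice (K : Set (E 4)) : Prop :=
  ∃ d : E 2 → E 4, (∀ x ∈ closedBall (0 : E 2) 1, ContDiffAt ℝ ∞ d x) ∧
    InjOn d (closedBall 0 1) ∧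
    (∀ x ∈ closedBall (0 : E 2) 1, Function.Injective (fderiv ℝ d x)) ∧
    (∀ x ∈ ball (0 : E 2) 1, ‖d x‖ < 1) ∧ d '' sphere 0 1 = K ∧
    ∀ u ∈ sphere (0 : E 2) 1, 0 < deriv (fun r : ℝ => ‖d (r • u)‖) 1

/-- `K ⊆ S³` bounds a disc as in the definition of `0`-positive (`ε = 1`) or `0`-negative
(`ε = -1`) knots. The `4`-manifold `V` with boundary `S³` is written as the complement of the
open unit ball of a smooth chart `c` in a closed smooth oriented `4`-manifold `W`. -/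
def ZeroSign (ε : ℤ) (K : Set (E 4)) : Prop :=
  ∃ (W : Type) (_ : TopologicalSpace W) (_ : T2Space W) (_ : CompactSpace W)
    (_ : ChartedSpace (E 4) W) (_ : IsManifold (𝓡 4) ∞ W) (o : Orientation4 W)
    (c : OpenPartialHomeomorph W (E 4)) (V : Set W) (d : E 2 → W) (k : ℕ)
    (S : Fin k → (Sing W 2 →₀ ℤ)),
    c ∈ IsManifold.maximalAtlas (𝓡 4) ∞ W ∧ closedBall 0 1 ⊆ c.target ∧
    V = (c.symm '' ball 0 1)ᶜ ∧ SimplyConnectedSpace V ∧
    (∀ x ∈ closedBall (0 : E 2) 1, ContMDiffAt (𝓡 2) (𝓡 4) ∞ d x) ∧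
    InjOn d (closedBall 0 1) ∧
    (∀ x ∈ closedBall (0 : E 2) 1, Function.Injective (mfderiv (𝓡 2) (𝓡 4) d x)) ∧
    (∀ x ∈ ball (0 : E 2) 1, d x ∉ c.symm '' closedBall 0 1) ∧
    d '' sphere 0 1 = c.symm '' K ∧
    (∀ u ∈ sphere (0 : E 2) 1, deriv (fun r : ℝ => ‖c (d (r • u))‖) 1 < 0) ∧
    (∀ i, S i ∈ supp ℤ (V \ d '' closedBall 0 1) 2 ∧ bd ℤ W 1 (S i) = 0) ∧
    (∀ z ∈ supp ℤ V 2, bd ℤ W 1 z = 0 → ∃! n : Fin k → ℤ, Null V ∅ 2 (z - ∑ i, n i • S i)) ∧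
    ∀ i j, InterNum o (S i) (S j) (if i = j then ε else 0)

/-- `K ⊆ S³` is strongly positive amphichiral: an orientation reversing linear involution of `S³`
maps `K` to itself without fixed points on `K` (so it preserves the orientation of `K`). -/
def StrongPosAmph (K : Set (E 4)) : Prop :=
  ∃ ι : E 4 ≃ₗᵢ[ℝ] E 4, (∀ x, ι (ι x) = x) ∧
    LinearMap.det (ι.toLinearEquiv : E 4 →ₗ[ℝ] E 4) = -1 ∧ ι '' K = K ∧ ∀ x ∈ K, ι x ≠ x

theorem slc_iff {K : Set (E 4)} : Slc (E 2) K ↔ Slice K := Iff.rfl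

theorem ZeroSgn.zeroSign {ε : ℤ} {K : Set (E 4)} (h : ZeroSgn (E 2) ε K) : ZeroSign ε K := by
  obtain ⟨W, _, _, _, _, _, o, c, V, d, k, S, h1, h2, h3, h4, ⟨h5, h6, h7, h8, h9, h10⟩, h11, h12,
    h13⟩ := h
  exact ⟨W, _, ‹_›, ‹_›, _, ‹_›, o, c, V, d, k, S, h1, h2, h3, h4, h5, h6, h7, h8, h9, h10, h11,
    h12, h13⟩

end Pool.Agent.MP_bc14e1_gt
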