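import Pool.Agent.MP_bc14e1_gt.Str

/-! The statements of the steps of the proof. -/

open Set Metric
open scoped Classical Manifold ContDiff

namespace Pool.Agent.MP_bc14e1_gt

noncomputable section

section Defs

variable (R : Type) [CommRing R] {G : Type} [Group G] (Y : Type) [TopologicalSpace Y]
  [MulAction G Y] [ContinuousConstSMul G Y]

/-- Cycles as a module over the Laurent polynomials. -/
def ZT (s : G) (k : ℕ) : Submodule (Lam R) (Tw R Y s) :=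
  twSub (ZC R univ k) fun _ c h => ⟨⟨mem_CH_univ _, gs_mem_DG _ h.1.2⟩, by
    have : dT R Y c = 0 := h.2
    change dT R Y _ = 0
    rw [dT_gs, this, map_zero]⟩

variable {Y}

/-- There are `n` cycles whose Gram matrix is positive definite on the circle away from one. -/
def Pos1 (s : G) (b : Form Y) (n : ℕ) : Prop :=
  ∃ v : Fin n → Tot ℂ Y, (∀ i, v i ∈ ZC ℂ univ 2) ∧ ∀ η : Circle, η ≠ 1 → ∀ a : Fin n → ℂ, a ≠ 0 →
    0 < (evL η (lamF s b (∑ i, a i • v i) (∑ i, a i • v i))).re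

/-- The equivariant intersection form is positive semidefinite on the circle. -/
def Psd (s : G) (b : Form Y) : Prop :=
  ∃ bad : Set Circle, bad.Finite ∧ ∀ η ∉ bad, ∀ z ∈ ZC ℂ univ 2, 0 ≤ (evL η (lamF s b z z)).re

/-- The value of a colouring on a chain of the Dehn complex. -/
def colE {Reg G : Type} (lg : G → ℤ) (c : Reg → Eis ℤ) : ((Reg × G) →₀ ℤ) →ₗ[ℤ] Eis ℤ :=
  Finsupp.linearCombination ℤ fun x => (om ℤ ^ lg x.2 : (Eis ℤ)ˣ) * c x.1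

end Defs

/-! ### Basic homology -/

def KitStmt : Prop := Nonempty Kit

/-- Contractible sets are acyclic. -/
def CtrStmt : Prop :=
  ∀ (R : Type) [CommRing R] (X : Type) [TopologicalSpace X] (A : Set X) (x : X), Ctr A x →
    (∀ k, k ≠ 0 → ZC R A k ≤ BC R A k) ∧
    ∀ c ∈ CC R A 0, c - val0 R (fun _ => (1 : R)) c • pt R x ∈ BC R A 0

/-- The local homology of Euclidean space. -/
def LocHomStmt : Prop :=
  ∀ n : ℕ, ∃ o ∈ DG ℤ (E n) n, dT ℤ _ o ∈ CH ℤ ({0}ᶜ : Set (E n)) ∧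
    ∀ (R : Type) [CommRing R] (k : ℕ), ∀ c ∈ DG R (E n) k, dT R _ c ∈ CH R ({0}ᶜ : Set (E n)) →
      (k ≠ n → ∃ b, c - dT R _ b ∈ CH R ({0}ᶜ : Set (E n))) ∧
      (k = n → ∃! r : R, ∃ b, c - r • castZ R _ o - dT R _ b ∈ CH R ({0}ᶜ : Set (E n)))

/-- Cycles and boundaries over a flat extension of the integers. -/
def FlatStmt : Prop :=
  ∀ (S : Type) [Field S] [CharZero S] (X : Type) [TopologicalSpace X] (A B : Set X) (k : ℕ),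
    (∀ z ∈ CC S A k, dT S X z ∈ CH S B → z ∈ Submodule.span S
      (castZ S X '' {y | y ∈ CC ℤ A k ∧ dT ℤ X y ∈ CH ℤ B})) ∧
    ∀ y : Tot ℤ X, (∃ b ∈ CH S A, castZ S X y - dT S X b ∈ CH S B) →
      ∃ n : ℤ, n ≠ 0 ∧ ∃ b ∈ CH ℤ A, n • y - dT ℤ X b ∈ CH ℤ B

/-- The homology of the complement of a flat closed set of codimension `q`. -/
def LemAStmt : Prop :=
  ∀ (R : Type) [CommRing R] (M P Q : Type) [TopologicalSpace M] [NormedAddCommGroup P]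
    [NormedSpace ℝ P] [NormedAddCommGroup Q] [NormedSpace ℝ Q] [FiniteDimensional ℝ Q]
    (S : Set M) (𝒜 : Set (OpenPartialHomeomorph M (P × Q))), IsClosed S →
    (∀ e ∈ 𝒜, ∀ x ∈ e.source, x ∈ S ↔ (e x).2 = 0) → (∀ x ∈ S, ∃ e ∈ 𝒜, x ∈ e.source) →
    ∀ W, IsOpen W → ∀ k, ∀ c ∈ CC R W k, dT R M c ∈ CH R Sᶜ →
      (k < Module.finrank ℝ Q → ∃ b ∈ CH R W, c - dT R M b ∈ CH R Sᶜ) ∧
      (k = Module.finrank ℝ Q → ∃ c' ∈ Submodule.span R {y | ∃ e ∈ 𝒜, ∃ (x : P) (ρ : ℝ),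
          (∀ w ∈ ball (0 : Q) ρ, (x, w) ∈ e.target ∧ e.symm (x, w) ∈ W) ∧
          ∃ c₀ ∈ CC R (ball (0 : Q) ρ) k, dT R Q c₀ ∈ CH R ({0}ᶜ : Set Q) ∧
            y = psh R (fun w => e.symm (x, w)) c₀},
        ∃ b ∈ CH R W, c - c' - dT R M b ∈ CH R Sᶜ)

/-! ### Covers -/

def CovStmt : Prop :=
  ∀ (G X Y : Type) [Group G] [TopologicalSpace X] [TopologicalSpace Y] [MulAction G Y]
    [ContinuousConstSMul G Y] (Z : Set X) (p : Y → X), GCov G Z p →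
    IsOpen Z ∧ IsLocalHomeomorph p ∧ IsCoveringMapOn p Z ∧ (∀ x ∈ Z, ∃ y, p y = x) ∧
    (T2Space X → T2Space Y ∧ ∀ K K' : Set Y, IsCompact K → IsCompact K' →
      {g : G | ∃ y ∈ K, g • y ∈ K'}.Finite)

/-- Equivariant lifting of homotopies. -/
def HLStmt : Prop :=
  ∀ (G X Y : Type) [Group G] [TopologicalSpace X] [TopologicalSpace Y] [MulAction G Y]
    [ContinuousConstSMul G Y] (Z : Set X) (p : Y → X), GCov G Z p →
    ∀ (A : Set X) (H : ℝ × X → X), ContinuousOn H (Icc 0 1 ×ˢ (A ∩ Z)) →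
    MapsTo H (Icc 0 1 ×ˢ (A ∩ Z)) Z → (∀ x ∈ A ∩ Z, H (0, x) = x) →
    ∃ H' : ℝ × Y → Y, ContinuousOn H' (Icc 0 1 ×ˢ (p ⁻¹' A)) ∧ (∀ y, H' (0, y) = y) ∧
      (∀ θ ∈ Icc (0 : ℝ) 1, ∀ y ∈ p ⁻¹' A, p (H' (θ, y)) = H (θ, p y)) ∧
      ∀ (g : G) θ y, H' (θ, g • y) = g • H' (θ, y)

/-- Sections over contractible sets. -/
def SecStmt : Prop :=
  ∀ (G X Y : Type) [Group G] [TopologicalSpace X] [TopologicalSpace Y] [MulAction G Y]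
    [ContinuousConstSMul G Y] (Z : Set X) (p : Y → X), GCov G Z p →
    ∀ (A : Set X) (x : X), A ⊆ Z → Ctr A x → ∀ y, p y ∈ A →
    ∃ σ : X → Y, ContinuousOn σ A ∧ (∀ x ∈ A, p (σ x) = x) ∧ σ (p y) = y ∧
      (IsOpen A → IsOpen (σ '' A))

/-- Chains lift, and the kernel of the projection for a cyclic group. -/
def LiftStmt : Prop :=
  ∀ (R : Type) [CommRing R] (G X Y : Type) [Group G] [TopologicalSpace X] [TopologicalSpace Y]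
    [MulAction G Y] [ContinuousConstSMul G Y] (Z : Set X) (p : Y → X), GCov G Z p →
    (∀ k, ∀ c ∈ CC R Z k, ∃ c' ∈ DG R Y k, psh R p c' = c) ∧
    ∀ t : G, (∀ g : G, ∃ n : ℤ, g = t ^ n) → ∀ k, ∀ c ∈ DG R Y k, psh R p c = 0 →
      ∃ w ∈ DG R Y k, c = gs R Y t w - w

/-- Chains are torsion free. -/
def TfStmt : Prop :=
  ∀ (R : Type) [CommRing R] [IsDomain R] (G Y : Type) [Group G] [TopologicalSpace Y]
    [MulAction G Y] [ContinuousConstSMul G Y] (s : G), (∀ (n : ℤ) (y : Y), s ^ n • y = y → n = 0) →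
    ∀ a : Lam R, a ≠ 0 → ∀ c : Tot R Y, (act R Y s a c = 0 → c = 0) ∧
      (∀ A, Inv s A → act R Y s a c ∈ CH R A → c ∈ CH R A) ∧
      ∀ k, act R Y s a c ∈ DG R Y k → c ∈ DG R Y k

/-- The transfer of a finite cover. -/
def TrStmt : Prop :=
  ∀ (R : Type) [CommRing R] (G X Y : Type) [Group G] [Finite G] [TopologicalSpace X]
    [TopologicalSpace Y] [MulAction G Y] [ContinuousConstSMul G Y] (p : Y → X), GCov G univ p →
    ∃ tr : Tot R X →ₗ[R] Tot R Y, Function.Injective tr ∧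
      (∀ c, tr (psh R p c) = ∑ᶠ g : G, gs R Y g c) ∧ (∀ c, dT R Y (tr c) = tr (dT R X c)) ∧
      (∀ k, ∀ c, tr c ∈ DG R Y k ↔ c ∈ DG R X k) ∧
      (∀ c, (∀ g : G, gs R Y g c = c) ↔ c ∈ LinearMap.range tr) ∧
      ∀ (f : X → X) (f' : Y ≃ₜ Y), Continuous f → (∀ y, p (f' y) = f (p y)) →
        (∀ g : G, ∃ g' : G, ∀ y, f' (g • y) = g' • f' y) →
        ∀ c, psh R f' (tr c) = tr (psh R f c)

/-- The rotation about the surface. -/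
def RotStmt : Prop :=
  ∀ (R : Type) [CommRing R] (G X Y : Type) [Group G] [TopologicalSpace X] [TopologicalSpace Y]
    [MulAction G Y] [ContinuousConstSMul G Y] (F : Set X) (p : Y → X) (s : G), TC F p s →
    ∀ (e : OpenPartialHomeomorph X (ℂ × ℂ)) (B : Set (ℂ × ℂ)), FlatCh F e → IsOpen B →
    B ⊆ e.target → DiscCl B → ∃ H : Module.End R (Tot R Y),
      (∀ c, H (gs R Y s c) = gs R Y s (H c)) ∧ (∀ k, ∀ c ∈ DG R Y k, H c ∈ DG R Y (k + 1)) ∧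
      (∀ B' ⊆ B, RotInv B' → ∀ c ∈ CH R (p ⁻¹' (e.symm '' B')),
        H c ∈ CH R (p ⁻¹' (e.symm '' B'))) ∧
      ∀ c ∈ CH R (p ⁻¹' (e.symm '' B)), dT R Y (H c) + H (dT R Y c) = gs R Y s c - c

/-- Deformation along the levels of the shell. -/
def RetrStmt : Prop :=
  ∀ (κ : Kit) (K : Set (E 4)) (ι : E 4 ≃ₗᵢ[ℝ] E 4) (Γ : Geo κ K ι) (G Y : Type) [Group G]
    [TopologicalSpace Y] [MulAction G Y] [ContinuousConstSMul G Y] (p : Y → Γ.X) (s : G),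
    GCov G Γ.Fᶜ p → ∀ hf : ∀ y, (Γ.h ∘ p) (s • y) = (Γ.h ∘ p) y,
    (∀ a' a b b' : ℝ, -1 ≤ a' → a' ≤ a → a < b → b ≤ b' → b' ≤ 1 →
      Retr (dTw ℂ Y s) (lvTw ℂ s (Γ.h ∘ p) hf) (Ioo a' b') (Ioo a b)) ∧
    ∀ b b' : ℝ, -1 < b → b ≤ b' → b' ≤ 1 →
      Retr (dTw ℂ Y s) (lvTw ℂ s (Γ.h ∘ p) hf) (Iio b') (Iio b)

/-- The infinite cyclic cover and the lift of the involution. -/
def Pack1Stmt : Prop :=
  ∀ (κ : Kit) (X : Type) [TopologicalSpace X] [T2Space X] [ChartedSpace (E 4) X]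
    (o : Orientation4 X) (F : Set X) (n : ℕ) (φ : Tot ℤ X →ₗ[ℤ] ℤ) (I : X ≃ₜ X), Flat F →
    XPack κ o F n φ → (∀ x, I (I x) = x) → (∀ x, I x ∈ F ↔ x ∈ F) →
    ∃ (Y : Type) (_ : TopologicalSpace Y) (_ : T2Space Y) (_ : MulAction (Multiplicative ℤ) Y)
      (_ : ContinuousConstSMul (Multiplicative ℤ) Y) (p : Y → X) (l : Y → ℤ),
      Pack1 F φ p (Multiplicative.ofAdd (1 : ℤ)) l ∧ ∃ (J : Y ≃ₜ Y) (ε : ℤ), (ε = 1 ∨ ε = -1) ∧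
        (∀ y, p (J y) = I (p y)) ∧ (∀ (g : Multiplicative ℤ) y, J (g • y) = g ^ ε • J y) ∧
        ∃ g : Multiplicative ℤ, ∀ y, J (J y) = g • y

/-- The metabelian cover. -/
def Pack2Stmt : Prop :=
  ∀ (X G Y A : Type) [TopologicalSpace X] [T2Space X] [ChartedSpace (E 4) X] [Group G]
    [TopologicalSpace Y] [MulAction G Y] [ContinuousConstSMul G Y] [AddCommGroup A] [Finite A]
    (F : Set X) (φ : Tot ℤ X →ₗ[ℤ] ℤ) (p : Y → X) (t : G) (l : Y → ℤ) (τ : A ≃ₗ[ℤ] A) (m : ℕ)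
    (α₀ : ZC ℤ (univ : Set Y) 1 →+ A), Pack1 F φ p t l → 0 < m → τ ^ m = 1 →
    (∀ a, τ a = a → a = 0) → (∀ z : ZC ℤ (univ : Set Y) 1, z.1 ∈ BC ℤ univ 1 → α₀ z = 0) →
    (∀ z z' : ZC ℤ (univ : Set Y) 1, z'.1 = gs ℤ Y t z.1 → α₀ z' = τ (α₀ z)) →
    ∃ (α : Tot ℤ Y →+ A) (G' Y' : Type) (_ : Group G') (_ : TopologicalSpace Y') (_ : T2Space Y')
      (_ : MulAction G' Y') (_ : ContinuousConstSMul G' Y') (q : Y' → Y)
      (j : Multiplicative A →* G') (t' : G') (l' : Y' → A),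
      Pack2 F p t τ m α q j t' l' ∧ ∀ z : ZC ℤ (univ : Set Y) 1, α z.1 = α₀ z

/-! ### The intersection pairing -/

def ThomExStmt : Prop :=
  ∀ (X Y : Type) [TopologicalSpace X] [T2Space X] [ChartedSpace (E 4) X] [TopologicalSpace Y]
    [T2Space Y] (o : Orientation4 X) (q : Y → X), IsLocalHomeomorph q → ∃ τ, IsThom o q τ

/-- An invariant Thom cocycle. -/
def ThomInvStmt : Prop :=
  ∀ (X G Y : Type) [TopologicalSpace X] [T2Space X] [ChartedSpace (E 4) X] [Group G]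
    [TopologicalSpace Y] [T2Space Y] [MulAction G Y] [ContinuousConstSMul G Y]
    (o : Orientation4 X) (F : Set X) (p : Y → X) (s : G) (A : Subgroup G), TC F p s → Finite A →
    ∃ τ, IsThom o p τ ∧ ThomInv τ (fun y => s • y) ∧ ∀ a ∈ A, ThomInv τ fun y => a • y

def PairStmt : Prop :=
  ∀ (κ : Kit) (X G Y : Type) [TopologicalSpace X] [T2Space X] [ChartedSpace (E 4) X] [Group G]
    [TopologicalSpace Y] [T2Space Y] [MulAction G Y] [ContinuousConstSMul G Y]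
    (o : Orientation4 X) (F : Set X) (p : Y → X) (s : G) (τ : TS (Y × Y) → ℝ), TC F p s →
    IsThom o p τ → ThomInv τ (fun y => s • y) → Pair o p s (beta κ τ) ∧
      ∀ g : G, ThomInv τ (fun y => g • y) →
        ∀ u v, beta κ τ (gs ℂ Y g u) (gs ℂ Y g v) = beta κ τ u v

/-- Invariance under a lift of an orientation preserving homeomorphism. -/
def InvStmt : Prop :=
  ∀ (κ : Kit) (X G Y : Type) [TopologicalSpace X] [T2Space X] [ChartedSpace (E 4) X] [Group G]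
    [TopologicalSpace Y] [T2Space Y] [MulAction G Y] [ContinuousConstSMul G Y]
    (o : Orientation4 X) (F : Set X) (p : Y → X) (s : G) (τ : TS (Y × Y) → ℝ) (I : X ≃ₜ X)
    (J : Y ≃ₜ Y), TC F p s → IsThom o p τ → ThomInv τ (fun y => s • y) → OriPres o I →
    (∀ y, p (J y) = I (p y)) → (∀ y, J (s • y) = s⁻¹ • J y) →
    ∃ E₁ E₂, LK s E₁ ∧ LK s E₂ ∧ ∀ u ∈ DG ℂ Y 2, ∀ v ∈ DG ℂ Y 2,
      beta κ τ (psh ℂ J u) (psh ℂ J v) - beta κ τ u v = E₁ (dT ℂ Y u) v + E₂ u (dT ℂ Y v)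

/-- Comparison of the pairings of a cover and of its base. -/
def CompStmt : Prop :=
  ∀ (κ : Kit) (X X' G Y Y' : Type) [TopologicalSpace X] [T2Space X] [ChartedSpace (E 4) X]
    [TopologicalSpace X'] [T2Space X'] [ChartedSpace (E 4) X'] [Group G]
    [TopologicalSpace Y] [T2Space Y] [TopologicalSpace Y'] [T2Space Y'] [MulAction G Y]
    [ContinuousConstSMul G Y] (o : Orientation4 X) (o' : Orientation4 X') (p : Y → X)
    (p' : Y' → X') (q : Y → Y') (τ : TS (Y × Y) → ℝ) (τ' : TS (Y' × Y') → ℝ),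
    IsLocalHomeomorph p → IsLocalHomeomorph p' → IsLocalHomeomorph q →
    (∀ (g : G) y, p (g • y) = p y) → (∀ y c r, LocDeg o' (p' ∘ q) y c r → LocDeg o p y c r) →
    (∀ (g : G) (y : Y), g • y = y → g = 1) → (∀ y y', q y = q y' ↔ ∃ g : G, y' = g • y) →
    (∀ K K' : Set Y, IsCompact K → IsCompact K' → {g : G | ∃ y ∈ K, g • y ∈ K'}.Finite) →
    IsThom o p τ → IsThom o' p' τ' → ∀ u ∈ ZC ℂ univ 2, ∀ v ∈ ZC ℂ univ 2,
      ∑ᶠ g : G, beta κ τ u (gs ℂ Y g v) = beta κ τ' (psh ℂ q u) (psh ℂ q v)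

/-- The pairing computes intersection numbers. -/
def InterStmt : Prop :=
  ∀ (κ : Kit) (X : Type) [TopologicalSpace X] (o : Orientation4 X) (τ : TS (X × X) → ℝ),
    IsThom o id τ → ∀ x y n, InterNum o x y n →
      beta κ τ (castZ ℂ X (inc ℤ 2 x)) (castZ ℂ X (inc ℤ 2 y)) = n

/-- The equivariant form. -/
def LamStmt : Prop :=
  ∀ (X G Y : Type) [TopologicalSpace X] [T2Space X] [Group G] [TopologicalSpace Y]
    [MulAction G Y] [ContinuousConstSMul G Y] (F : Set X) (p : Y → X) (s : G) (b : Form Y),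
    TC F p s → LK s b → Sesq (C := Tw ℂ Y s) (lamF s b) ∧
      (∀ A B : Set Y, Inv s B → Disjoint A B → ∀ u ∈ CH ℂ A, ∀ v ∈ CH ℂ B, lamF s b u v = 0) ∧
      (∀ u v, {g : G | b u (gs ℂ Y g v) ≠ 0}.Finite) ∧
      (∀ u v n, (lamF s b u v).coeff n = b u (gs ℂ Y (s ^ n) v)) ∧
      ∀ (η : Circle) u v,
        evL η (lamF s b u v) = ∑ᶠ n : ℤ, ((η ^ n : Circle) : ℂ) * b u (gs ℂ Y (s ^ n) v)

/-- Facts on Laurent polynomials. -/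
def LaurStmt : Prop :=
  IsPrincipalIdealRing (Lam ℂ) ∧ (∀ (R : Type) [CommRing R] [IsNoetherianRing R],
    IsNoetherianRing (Lam R)) ∧ (∀ a, cj (cj a) = a) ∧
  (∀ n, cj (LaurentPolynomial.T n) = LaurentPolynomial.T (-n)) ∧
  (∀ a : ℂ, cj (LaurentPolynomial.C a) = LaurentPolynomial.C (starRingEnd ℂ a)) ∧
  (∀ (η : Circle) n, evL η (LaurentPolynomial.T n) = ((η ^ n : Circle) : ℂ)) ∧
  (∀ (η : Circle) (a : ℂ), evL η (LaurentPolynomial.C a) = a) ∧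
  (∀ η a, evL η (cj a) = starRingEnd ℂ (evL η a)) ∧ (∀ η a, evL η a = 0 ↔ piL η ∣ a) ∧
  (∀ η, Prime (piL η)) ∧
  (∀ η : Circle, cj (piL η) =
    -(LaurentPolynomial.T (-1) * LaurentPolynomial.C ((η⁻¹ : Circle) : ℂ)) * piL η) ∧
  (∀ a : Lam ℂ, Continuous fun η => evL η a) ∧
  (∀ a : Lam ℂ, a ≠ 0 → {η | evL η a = 0}.Finite) ∧
  ∀ (η : Circle) (a : Lam ℂ) (bad : Set Circle), bad.Finite → cj a = a →
    (∀ ξ ∉ bad, 0 ≤ (evL ξ a).re) → evL η a = 0 → piL η ^ 2 ∣ a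

/-! ### Duality -/

def PDIStmt : Prop :=
  ∀ (X G Y : Type) [TopologicalSpace X] [T2Space X] [ChartedSpace (E 4) X] [Group G]
    [TopologicalSpace Y] [T2Space Y] [MulAction G Y] [ContinuousConstSMul G Y]
    (o : Orientation4 X) (F : Set X) (p : Y → X) (s : G) (β : Form Y), TC F p s → Pair o p s β →
    ∀ ζ : Circle, ζ ≠ 1 → ∀ (n : ℕ) (O K : Set X), IsOpen O → IsCompact K → K ⊆ O →
    ∀ u ∈ CH ℂ (p ⁻¹' K), dT ℂ Y u ∈ Mul0 s (piL ζ ^ n) →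
    (¬ ∃ w ∈ CH ℂ (p ⁻¹' O), u - dT ℂ Y w ∈ Mul0 s (piL ζ ^ n)) →
    ∃ b, dT ℂ Y b ∈ CH ℂ (p ⁻¹' Kᶜ) ⊔ Mul0 s (piL ζ ^ n) ∧ ¬ piL ζ ^ n ∣ lamF s β b u

/-- The form is unimodular away from one. -/
def UniStmt : Prop :=
  ∀ (X G Y : Type) [TopologicalSpace X] [T2Space X] [CompactSpace X] [ChartedSpace (E 4) X]
    [Group G] [TopologicalSpace Y] [T2Space Y] [MulAction G Y] [ContinuousConstSMul G Y]
    (o : Orientation4 X) (F : Set X) (p : Y → X) (s : G) (β : Form Y), TC F p s → Pair o p s β →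
    ∀ ζ : Circle, ζ ≠ 1 → ∀ f : ZT ℂ Y s 2 →ₗ[Lam ℂ] Lam ℂ,
    (∀ z : ZT ℂ Y s 2, (toTw ℂ Y s).symm z.1 ∈ BC ℂ univ 2 → f z = 0) → ∀ v, f v = 1 →
    ∃ w ∈ ZC ℂ univ 2, evL ζ (lamF s β v.1 w) ≠ 0

def Inj0Stmt : Prop :=
  ∀ (X G Y : Type) [TopologicalSpace X] [T2Space X] [ChartedSpace (E 4) X] [Group G]
    [TopologicalSpace Y] [T2Space Y] [MulAction G Y] [ContinuousConstSMul G Y]
    (o : Orientation4 X) (F : Set X) (p : Y → X) (s : G) (β : Form Y), TC F p s → Pair o p s β →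
    ∀ (ζ : Circle) (U K : Set Y), IsOpen U → Inv s U → Cocpt s K → K ⊆ U →
    ∀ u ∈ DG ℂ Y 2, dT ℂ Y u ∈ Mul0 s (piL ζ) →
    (∀ x ∈ CC ℂ U 2, dT ℂ Y x ∈ Mul0 s (piL ζ) → evL ζ (lamF s β u x) = 0) →
    ∃ w, u - dT ℂ Y w ∈ CH ℂ Kᶜ ⊔ Mul0 s (piL ζ)

/-! ### Finiteness -/

def FGStmt : Prop :=
  ∀ (R : Type) [CommRing R] [IsNoetherianRing R] (X G Y : Type) [TopologicalSpace X] [T2Space X]
    [ChartedSpace (E 4) X] [Group G] [TopologicalSpace Y] [MulAction G Y]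
    [ContinuousConstSMul G Y] (F : Set X) (p : Y → X) (s : G), TC F p s →
    ∀ L O : Set X, IsCompact L → IsOpen O → L ⊆ O → ∀ k, FGI R s (p ⁻¹' L) (p ⁻¹' O) k

/-- Near the surface the homology is killed by a power of `s - 1`. -/
def PAStmt : Prop :=
  ∀ (R : Type) [CommRing R] (X G Y : Type) [TopologicalSpace X] [T2Space X] [Group G]
    [TopologicalSpace Y] [MulAction G Y] [ContinuousConstSMul G Y] (F : Set X) (p : Y → X)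
    (s : G), TC F p s → IsCompact F → ∀ N', IsOpen N' → F ⊆ N' →
    ∃ N, IsOpen N ∧ F ⊆ N ∧ N ⊆ N' ∧ ∃ k : ℕ, ∀ z ∈ CH R (p ⁻¹' N), dT R Y z = 0 →
      ∃ b ∈ CH R (p ⁻¹' N'), ((gs R Y s - 1) ^ k) z = dT R Y b

/-- The finite cover is trivial near the surface. -/
def KapStmt : Prop :=
  ∀ (X G Y A G' Y' : Type) [TopologicalSpace X] [T2Space X] [ChartedSpace (E 4) X] [Group G]
    [TopologicalSpace Y] [MulAction G Y] [ContinuousConstSMul G Y] [AddCommGroup A]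
    [Group G'] [TopologicalSpace Y'] [MulAction G' Y'] [ContinuousConstSMul G' Y']
    (F : Set X) (φ : Tot ℤ X →ₗ[ℤ] ℤ) (p : Y → X) (t : G) (l : Y → ℤ) (τ : A ≃ₗ[ℤ] A) (m : ℕ)
    (α : Tot ℤ Y →+ A) (q : Y' → Y) (j : Multiplicative A →* G') (t' : G') (l' : Y' → A),
    IsCompact F → Pack1 F φ p t l → Pack2 F p t τ m α q j t' l' → (∀ a, τ a = a → a = 0) →
    ∃ N, IsOpen N ∧ F ⊆ N ∧ ∃ k : Y' → A, ∀ y, p (q y) ∈ N → (∀ᶠ y' in nhds y, k y' = k y) ∧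
      (∀ a, k (j (Multiplicative.ofAdd a) • y) = a + k y) ∧ k (t' ^ m • y) = k y

def Rank1Stmt : Prop :=
  ∀ (X G Y : Type) [TopologicalSpace X] [T2Space X] [CompactSpace X] [ChartedSpace (E 4) X]
    [Group G] [TopologicalSpace Y] [MulAction G Y] [ContinuousConstSMul G Y] (F : Set X)
    (φ : Tot ℤ X →ₗ[ℤ] ℤ) (p : Y → X) (t : G) (l : Y → ℤ) (n : ℕ), Pack1 F φ p t l →
    Dep0 (ZMod 2) Fᶜ n → Dep (ZMod 2) Y t ∅ n

def Rank2Stmt : Prop :=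
  ∀ (X G Y : Type) [TopologicalSpace X] [T2Space X] [CompactSpace X] [ChartedSpace (E 4) X]
    [Group G] [TopologicalSpace Y] [MulAction G Y] [ContinuousConstSMul G Y] (F : Set X)
    (p : Y → X) (s : G) (B : Subgroup G) (n : ℕ), TC F p s → Finite B →
    Dep (ZMod 2) Y s B n → Dep ℂ Y s B n

def Rank3Stmt : Prop :=
  ∀ (X G Y A G' Y' : Type) [TopologicalSpace X] [Group G]
    [TopologicalSpace Y] [MulAction G Y] [ContinuousConstSMul G Y] [AddCommGroup A] [Finite A]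
    [Group G'] [TopologicalSpace Y'] [MulAction G' Y'] [ContinuousConstSMul G' Y']
    (F : Set X) (p : Y → X) (t : G) (τ : A ≃ₗ[ℤ] A) (m : ℕ)
    (α : Tot ℤ Y →+ A) (q : Y' → Y) (j : Multiplicative A →* G') (t' : G') (l' : Y' → A) (n r : ℕ),
    Pack2 F p t τ m α q j t' l' → 0 < m → Nat.card A = 2 ^ r → Dep (ZMod 2) Y t ∅ n →
    ∀ B : AddSubgroup A,
      Dep (ZMod 2) Y' (t' ^ m) (B.toSubgroup.map j : Subgroup G') (B.index * (m * n))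

/-! ### Positivity -/

def PsdAlgStmt : Prop :=
  ∀ (H : Type) [AddCommGroup H] [Module (Lam ℂ) H] (B : Submodule (Lam ℂ) H) (l : H → H → Lam ℂ)
    (n : ℕ), Module.Finite (Lam ℂ) (H ⧸ B) → Sesq l → (∀ u v, cj (l u v) = l v u) →
    (∀ u ∈ B, ∀ v, l u v = 0) →
    (∀ ζ : Circle, ζ ≠ 1 → ∀ f : H →ₗ[Lam ℂ] Lam ℂ, (∀ z ∈ B, f z = 0) → ∀ v, f v = 1 →
      ∃ w, evL ζ (l v w) ≠ 0) →
    (∀ z : Fin (n + 1) → H, ∃ a : Fin (n + 1) → Lam ℂ, a ≠ 0 ∧ ∑ i, a i • z i ∈ B) →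
    (∃ u : Fin n → H, ∀ i j, evL 1 (l (u i) (u j)) = if i = j then 1 else 0) →
    (∃ v : Fin n → H, ∀ η : Circle, ∀ a : Fin n → ℂ, a ≠ 0 →
      0 < (evL η (l (∑ i, (LaurentPolynomial.C (a i) : Lam ℂ) • v i)
        (∑ i, (LaurentPolynomial.C (a i) : Lam ℂ) • v i))).re) ∧
    ∀ (η : Circle) z, 0 ≤ (evL η (l z z)).re

def Psd1Stmt : Prop :=
  ∀ (κ : Kit) (X G Y : Type) [TopologicalSpace X] [T2Space X] [CompactSpace X]
    [ChartedSpace (E 4) X] [Group G] [TopologicalSpace Y] [T2Space Y] [MulAction G Y]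
    [ContinuousConstSMul G Y] (o : Orientation4 X) (F : Set X) (n : ℕ) (φ : Tot ℤ X →ₗ[ℤ] ℤ)
    (p : Y → X) (t : G) (l : Y → ℤ) (τ : TS (Y × Y) → ℝ), XPack κ o F n φ → Pack1 F φ p t l →
    IsThom o p τ → ThomInv τ (fun y => t • y) → Pos1 t (beta κ τ) n ∧ Psd t (beta κ τ)

/-- The linear algebra of a tower of double covers. -/
def TowerStmt : Prop :=
  ∀ (V A : Type) [AddCommGroup V] [Module ℂ V] [AddCommGroup A] [Finite A]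
    (b : V →ₗ[ℂ] V →ₗ⋆[ℂ] ℂ) (ρ : Multiplicative A →* Module.End ℂ V) (n r : ℕ),
    Nat.card A = 2 ^ r → (∀ u v, starRingEnd ℂ (b u v) = b v u) →
    (∀ a u v, b (ρ a u) (ρ a v) = b u v) →
    (∃ v : Fin n → V, (∀ i a, ρ a (v i) = v i) ∧ ∀ a : Fin n → ℂ, a ≠ 0 →
      0 < (b (∑ i, a i • v i) (∑ i, a i • v i)).re) →
    (∀ (B : AddSubgroup A) (z : Fin (B.index * n + 1) → V),
      (∀ i, ∀ a ∈ B, ρ (Multiplicative.ofAdd a) (z i) = z i) →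
      ∃ a : Fin (B.index * n + 1) → ℂ, a ≠ 0 ∧ ∀ v, b (∑ i, a i • z i) v = 0) →
    (∀ B' B : AddSubgroup A, B' ≤ B → B'.relIndex B = 2 → ∃ M₁ M₂ : Submodule ℂ V,
      (∀ a ∈ B', ∀ x ∈ M₁, ρ (Multiplicative.ofAdd a) x ∈ M₁) ∧
      (∀ a ∈ B, a ∉ B' → ∀ x ∈ M₁, ρ (Multiplicative.ofAdd a) x ∈ M₂) ∧
      (∀ a ∈ B, a ∉ B' → ∀ x ∈ M₂, ρ (Multiplicative.ofAdd a) x ∈ M₁) ∧
      (∀ x ∈ M₁, ∀ y ∈ M₂, b x y = 0) ∧
      ∀ u, (∀ x ∈ M₁, b u x = 0) → ∃ u' ∈ M₂, ∀ v, b (u - u') v = 0) →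
    ∀ v, 0 ≤ (b v v).re

/-- Cutting the cover along the zero set of an anti-invariant function. -/
def NovStmt : Prop :=
  ∀ (X G Y A G' Y' : Type) [TopologicalSpace X] [T2Space X] [CompactSpace X]
    [ChartedSpace (E 4) X] [IsManifold (𝓡 4) ∞ X] [Group G]
    [TopologicalSpace Y] [MulAction G Y] [ContinuousConstSMul G Y] [AddCommGroup A] [Finite A]
    [Group G'] [TopologicalSpace Y'] [T2Space Y'] [MulAction G' Y'] [ContinuousConstSMul G' Y']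
    (o : Orientation4 X) (F : Set X) (φ : Tot ℤ X →ₗ[ℤ] ℤ) (p : Y → X) (t : G) (l : Y → ℤ)
    (τ : A ≃ₗ[ℤ] A) (m : ℕ) (α : Tot ℤ Y →+ A) (q : Y' → Y) (j : Multiplicative A →* G') (t' : G')
    (l' : Y' → A) (β : Form Y'), Pack1 F φ p t l → Pack2 F p t τ m α q j t' l' →
    (∀ a, τ a = a → a = 0) → Pair o (p ∘ q) (t' ^ m) β →
    ∀ B' B : AddSubgroup A, B' ≤ B → B'.relIndex B = 2 → ∃ f : Y' → ℝ,
      (∀ y, f (t' ^ m • y) = f y) ∧ (∀ a ∈ B', ∀ y, f (j (Multiplicative.ofAdd a) • y) = f y) ∧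
      (∀ a ∈ B, a ∉ B' → ∀ y, f (j (Multiplicative.ofAdd a) • y) = -f y) ∧
      ∀ ζ : Circle, ζ ≠ 1 → ∀ u ∈ DG ℂ Y' 2, dT ℂ Y' u ∈ Mul0 (t' ^ m) (piL ζ) →
        (∀ x ∈ CC ℂ {y | 0 < f y} 2, dT ℂ Y' x ∈ Mul0 (t' ^ m) (piL ζ) →
          evL ζ (lamF (t' ^ m) β u x) = 0) →
        ∃ u' ∈ CC ℂ {y | f y < 0} 2, ∃ w, u - u' - dT ℂ Y' w ∈ Mul0 (t' ^ m) (piL ζ)

def Psd2Stmt : Prop :=
  ∀ (κ : Kit) (X G Y A G' Y' : Type) [TopologicalSpace X] [T2Space X] [CompactSpace X]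
    [ChartedSpace (E 4) X] [IsManifold (𝓡 4) ∞ X] [Group G]
    [TopologicalSpace Y] [T2Space Y] [MulAction G Y] [ContinuousConstSMul G Y] [AddCommGroup A]
    [Finite A] [Group G'] [TopologicalSpace Y'] [T2Space Y'] [MulAction G' Y']
    [ContinuousConstSMul G' Y'] (o : Orientation4 X) (F : Set X) (φ : Tot ℤ X →ₗ[ℤ] ℤ) (p : Y → X)
    (t : G) (l : Y → ℤ) (τ : A ≃ₗ[ℤ] A) (m : ℕ) (α : Tot ℤ Y →+ A) (q : Y' → Y)
    (j : Multiplicative A →* G') (t' : G') (l' : Y' → A) (n r : ℕ) (τ₁ : TS (Y × Y) → ℝ)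
    (τ₂ : TS (Y' × Y') → ℝ), Pack1 F φ p t l → Pack2 F p t τ m α q j t' l' → 0 < m →
    Nat.card A = 2 ^ r → (∀ a, τ a = a → a = 0) → Dep0 (ZMod 2) Fᶜ n →
    IsThom o p τ₁ → ThomInv τ₁ (fun y => t • y) → Pos1 t (beta κ τ₁) n →
    IsThom o (p ∘ q) τ₂ → ThomInv τ₂ (fun y => t' ^ m • y) →
    (∀ a, ThomInv τ₂ fun y => j a • y) → Psd (t' ^ m) (beta κ τ₂)

/-! ### The double -/

def NegStmt : Prop := ∀ K, ZeroSign (-1) K → ZeroSign 1 K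

def SliceZeroStmt : Prop := ∀ K, K ⊆ sphere 0 1 → Slice K → ZeroSign 1 K

def DblStmt : Prop :=
  ∀ (κ : Kit) (K : Set (E 4)) (ι : E 4 ≃ₗᵢ[ℝ] E 4), K ⊆ sphere 0 1 → (∀ x, ι (ι x) = x) →
    LinearMap.det (ι.toLinearEquiv : E 4 →ₗ[ℝ] E 4) = -1 → ι '' K = K → ZeroSign 1 K →
    Nonempty (Geo κ K ι)

def XPStmt : Prop :=
  ∀ (κ : Kit) (K : Set (E 4)) (ι : E 4 ≃ₗᵢ[ℝ] E 4) (Γ : Geo κ K ι),
    ∃ φ, XPack κ Γ.o Γ.F (2 * Γ.k) φ

/-! ### The Dehn presentation -/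

def DehnStmt : Prop :=
  ∀ (G X Y Reg Cr : Type) [Group G] [TopologicalSpace X] [TopologicalSpace Y] [MulAction G Y]
    [ContinuousConstSMul G Y] [Finite Reg] [Finite Cr] [Nonempty Reg] (Z O : Set X) (p : Y → X)
    (reg : Cr → Fin 4 → Reg) (D : DehnData O reg) (σU σL : X → Y) (h : Reg → G),
    GCov G Z p → O ⊆ Z → DehnSec D p σU σL h →
    DehnMap (p ⁻¹' O) reg h (D.ell σU σL h) (σU D.n) (σL D.s)

/-- The action of a lifted symmetry on the Dehn complex. -/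
def DehnSymStmt : Prop :=
  ∀ (G X Y Reg Cr : Type) [Group G] [TopologicalSpace X] [TopologicalSpace Y] [MulAction G Y]
    [ContinuousConstSMul G Y] (Z O : Set X) (p : Y → X)
    (reg : Cr → Fin 4 → Reg) (D : DehnData O reg) (σU σL : X → Y) (h : Reg → G) (I : X → X)
    (ρ : Reg → Reg) (J : Y → Y) (θ : G →* G), GCov G Z p → O ⊆ Z → DehnSec D p σU σL h →
    D.Sym I ρ → Continuous J → (∀ y, p (J y) = I (p y)) → (∀ g y, J (g • y) = θ g • J y) →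
    ∃ a b : G, (∀ r, θ (h r) = a * h (ρ r) * b) ∧ ∀ x : (Reg × G) →₀ ℤ, d1A ℤ h x = 0 →
      psh ℤ J (ellC ℤ (D.ell σU σL h) x) -
        ellC ℤ (D.ell σU σL h) (x.mapDomain fun z => (ρ z.1, θ z.2 * a)) ∈ BC ℤ (p ⁻¹' O) 1

/-- Transport of the diagram to the double. -/
def DehnPushStmt : Prop :=
  ∀ (κ : Kit) (K : Set (E 4)) (ι : E 4 ≃ₗᵢ[ℝ] E 4) (Γ : Geo κ K ι) (Reg Cr : Type)
    (reg : Cr → Fin 4 → Reg) (ρ : Reg → Reg) (D : DehnData (shellO K) reg), D.Sym (invS ι) ρ →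
    ∃ D' : DehnData (Γ.h ⁻¹' Ioo (-1) 1 ∩ Γ.Fᶜ) reg, D'.Sym Γ.I ρ

def KnotStmt : Prop :=
  ∃ (K : LongKnot) (ι : E 4 ≃ₗᵢ[ℝ] E 4) (Reg Cr : Type) (_ : Finite Reg) (_ : Finite Cr)
    (reg : Cr → Fin 4 → Reg) (ρ : Reg → Reg) (D : DehnData (shellO (closeUp K.f)) reg),
    Slice (closeUp (sumCurve K K)) ∧ (∀ x, ι (ι x) = x) ∧
    LinearMap.det (ι.toLinearEquiv : E 4 →ₗ[ℝ] E 4) = -1 ∧ ι '' closeUp K.f = closeUp K.f ∧
    (∀ x ∈ closeUp K.f, ι x ≠ x) ∧ D.Sym (invS ι) ρ ∧ Nonempty (Cert reg ρ)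

/-! ### The algebraic shadow -/

def ASStmt : Prop :=
  ∀ (κ : Kit) (K : Set (E 4)) (ι : E 4 ≃ₗᵢ[ℝ] E 4) (Γ : Geo κ K ι) (G Y : Type) [Group G]
    [TopologicalSpace Y] [T2Space Y] [MulAction G Y] [ContinuousConstSMul G Y] (p : Y → Γ.X)
    (s : G) (β : Form Y), TC Γ.F p s → Pair Γ.o p s β → Psd s β →
    ∀ hf : ∀ y, (Γ.h ∘ p) (s • y) = (Γ.h ∘ p) y,
      IsAS (dTw ℂ Y s) (lvTw ℂ s (Γ.h ∘ p) hf) (lamF s β)

def A3Stmt : Prop :=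
  ∀ (C : Type) [AddCommGroup C] [Module (Lam ℂ) C] (d : C →ₗ[Lam ℂ] C)
    (M : ℕ → Set ℝ → Submodule (Lam ℂ) C) (l : C → C → Lam ℂ) (J : C →+ C) (ζ : Circle),
    IsAS d M l → H0N d M → JInv d M l J → ζ ≠ 1 → Len2 d M ζ → Line d M ζ

def ClashStmt : Prop :=
  ∀ (C : Type) [AddCommGroup C] [Module (Lam ℂ) C] (d : C →ₗ[Lam ℂ] C)
    (M : ℕ → Set ℝ → Submodule (Lam ℂ) C) (l : C → C → Lam ℂ) (e : C →ₗ[Lam ℂ] C) (ζ : Circle)
    (x : C), IsAS d M l → H0N d M → Proj d M l e → ζ ≠ 1 → Len1 d M e ζ x → False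

/-! ### From the diagram to the algebra -/

def FlipStmt : Prop :=
  ∀ (κ : Kit) (X G Y : Type) [TopologicalSpace X] [Group G] [TopologicalSpace Y] [MulAction G Y]
    (o : Orientation4 X) (F : Set X) (n : ℕ) (φ : Tot ℤ X →ₗ[ℤ] ℤ) (p : Y → X) (t : G)
    (l : Y → ℤ), XPack κ o F n φ → Pack1 F φ p t l →
    XPack κ o F n (-φ) ∧ Pack1 F (-φ) p t⁻¹ fun y => -l y

/-- Normalised sections of the infinite cyclic cover. -/
def Norm1Stmt : Prop :=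
  ∀ (X G Y Reg Cr : Type) [TopologicalSpace X] [Group G] [TopologicalSpace Y] [MulAction G Y]
    [ContinuousConstSMul G Y] [Finite Reg] [Finite Cr] (F N : Set X) (φ : Tot ℤ X →ₗ[ℤ] ℤ)
    (p : Y → X) (t : G) (l : Y → ℤ) (reg : Cr → Fin 4 → Reg) (ρ : Reg → Reg)
    (D : DehnData (N ∩ Fᶜ) reg) (C : Cert reg ρ), Pack1 F φ p t l → IsOpen N →
    (F ∩ N).Nonempty → ∃ t', (t' = t ∨ t' = t⁻¹) ∧ ∃ σU σL : X → Y,
      DehnSec D p σU σL fun r => t' ^ C.gap r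

def H0Stmt : Prop :=
  ∀ (G Y Reg Cr : Type) [Group G] [TopologicalSpace Y] [MulAction G Y] [ContinuousConstSMul G Y]
    (f : Y → ℝ) (t : G) (m : ℕ) (hf : ∀ y, f (t ^ m • y) = f y) (reg : Cr → Fin 4 → Reg)
    (h : Reg → G) (l : Reg → Tot ℤ Y) (yn ys : Y) (R0 R1 : Reg),
    DehnMap (f ⁻¹' Ioo (-1) 1) reg h l yn ys → (∀ (g : G) y, f (g • y) = f y) →
    (∀ g, g * t ^ m = t ^ m * g) → h R0 = 1 → h R1 = t →
    H0N (dTw ℂ Y (t ^ m)) (lvTw ℂ (t ^ m) f hf)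

def Len2Stmt : Prop :=
  ∀ (G Y Reg Cr : Type) [Group G] [TopologicalSpace Y] [MulAction G Y] [ContinuousConstSMul G Y]
    (f : Y → ℝ) (t : G) (hf : ∀ y, f (t • y) = f y) (reg : Cr → Fin 4 → Reg) (gap : Reg → ℤ)
    (l : Reg → Tot ℤ Y) (yn ys : Y) (ζ : Circle),
    DehnMap (f ⁻¹' Ioo (-1) 1) reg (fun r => t ^ gap r) l yn ys → (∀ g : G, ∃ n : ℤ, g = t ^ n) →
    (∀ n : ℤ, t ^ n = 1 → n = 0) → Len2T reg gap ζ → Len2 (dTw ℂ Y t) (lvTw ℂ t f hf) ζ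

def JStmt : Prop :=
  ∀ (κ : Kit) (K : Set (E 4)) (ι : E 4 ≃ₗᵢ[ℝ] E 4) (Γ : Geo κ K ι) (G Y : Type) [Group G]
    [TopologicalSpace Y] [T2Space Y] [MulAction G Y] [ContinuousConstSMul G Y] (p : Y → Γ.X)
    (s : G) (τ : TS (Y × Y) → ℝ) (J : Y ≃ₜ Y), TC Γ.F p s → IsThom Γ.o p τ →
    ThomInv τ (fun y => s • y) → (∀ y, p (J y) = Γ.I (p y)) → (∀ y, J (s • y) = s⁻¹ • J y) →
    (∀ y, J (J y) = y) → ∀ hf : ∀ y, (Γ.h ∘ p) (s • y) = (Γ.h ∘ p) y,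
      JInv (dTw ℂ Y s) (lvTw ℂ s (Γ.h ∘ p) hf) (lamF s (beta κ τ))
        ((cjT Y).toAddMonoidHom.comp (psh ℂ J).toAddMonoidHom)

/-- The choice of the colouring. -/
def ColStmt : Prop :=
  ∀ (G Y Reg Cr : Type) [Group G] [TopologicalSpace Y] [MulAction G Y] [ContinuousConstSMul G Y]
    (f : Y → ℝ) (t : G) (hf : ∀ y, f (t • y) = f y) (lg : G → ℤ) (reg : Cr → Fin 4 → Reg)
    (ρ : Reg → Reg) (C : Cert reg ρ) (l : Reg → Tot ℤ Y) (yn ys : Y) (J : Y → Y) (a₀ : G),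
    DehnMap (f ⁻¹' Ioo (-1) 1) reg (fun r => t ^ C.gap r) l yn ys → (∀ g : G, t ^ lg g = g) →
    (∀ n : ℤ, t ^ n = 1 → n = 0) → Continuous J →
    (∀ x : (Reg × G) →₀ ℤ, d1A ℤ (fun r => t ^ C.gap r) x = 0 →
      psh ℤ J (ellC ℤ l x) - ellC ℤ l (x.mapDomain fun z => (ρ z.1, z.2⁻¹ * a₀)) ∈
        BC ℤ (f ⁻¹' Ioo (-1) 1) 1) →
    Line (dTw ℂ Y t) (lvTw ℂ t f hf) omC →
    ∃ (c : Reg → Eis ℤ) (χ : AddChar (Eis (ZMod 8)) ℂ), IsCol reg C.gap c ∧ c C.R0 = 0 ∧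
      c C.R1 = 0 ∧ TwOK reg C.gap χ (fun r => red8 (c r)) ∧ ∀ x : (Reg × G) →₀ ℤ,
        d1A ℤ (fun r => t ^ C.gap r) x = 0 → ellC ℤ l x ∈ BC ℤ univ 1 → colE lg c x = 0

/-- Extension of a character to a finite quotient of two-power order. -/
def ExtStmt : Prop :=
  ∀ (H : Type) [AddCommGroup H] [Module (Lam ℤ) H] [Module.Finite (Lam ℤ) H]
    (M : Submodule (Lam ℤ) H) (c : M →+ Eis ℤ) (χ : AddChar (Eis (ZMod 8)) ℂ),
    (∀ y : M, c ((LaurentPolynomial.T 1 : Lam ℤ) • y) = (om ℤ : (Eis ℤ)ˣ) * c y) →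
    ∃ (A : Type) (_ : AddCommGroup A) (_ : Finite A) (r e : ℕ) (τ : A ≃ₗ[ℤ] A) (α : H →+ A)
      (ψ : AddChar A ℂ), Nat.card A = 2 ^ r ∧ τ ^ (6 * 2 ^ e) = 1 ∧ (∀ a, τ a = a → a = 0) ∧
      (∀ y, α ((LaurentPolynomial.T 1 : Lam ℤ) • y) = τ (α y)) ∧
      ∀ y : M, ψ (α y) = χ (red8 (c y))

def AlphaStmt : Prop :=
  ∀ (G Y Reg Cr : Type) [Group G] [TopologicalSpace Y] [MulAction G Y] [ContinuousConstSMul G Y]
    (O : Set Y) (t : G) (lg : G → ℤ) (reg : Cr → Fin 4 → Reg) (gap : Reg → ℤ)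
    (l : Reg → Tot ℤ Y) (yn ys : Y) (c : Reg → Eis ℤ) (χ : AddChar (Eis (ZMod 8)) ℂ),
    DehnMap O reg (fun r => t ^ gap r) l yn ys → (∀ g : G, t ^ lg g = g) →
    (∀ n : ℤ, t ^ n = 1 → n = 0) → FGI ℤ t (univ : Set Y) univ 1 →
    (∀ x : (Reg × G) →₀ ℤ, d1A ℤ (fun r => t ^ gap r) x = 0 → ellC ℤ l x ∈ BC ℤ univ 1 →
      colE lg c x = 0) →
    ∃ (A : Type) (_ : AddCommGroup A) (_ : Finite A) (r e : ℕ) (τ : A ≃ₗ[ℤ] A)
      (α₀ : ZC ℤ (univ : Set Y) 1 →+ A) (ψ : AddChar A ℂ), Nat.card A = 2 ^ r ∧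
      τ ^ (6 * 2 ^ e) = 1 ∧ (∀ a, τ a = a → a = 0) ∧
      (∀ z : ZC ℤ (univ : Set Y) 1, z.1 ∈ BC ℤ univ 1 → α₀ z = 0) ∧
      (∀ z z' : ZC ℤ (univ : Set Y) 1, z'.1 = gs ℤ Y t z.1 → α₀ z' = τ (α₀ z)) ∧
      ∀ (x : (Reg × G) →₀ ℤ) (z : ZC ℤ (univ : Set Y) 1), d1A ℤ (fun r => t ^ gap r) x = 0 →
        z.1 = ellC ℤ l x → ψ (α₀ z) = χ (red8 (colE lg c x))

/-- Normalised sections of the metabelian cover. -/
def Norm2Stmt : Prop :=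
  ∀ (X G Y A G' Y' Reg Cr : Type) [TopologicalSpace X] [Group G]
    [TopologicalSpace Y] [MulAction G Y] [ContinuousConstSMul G Y] [AddCommGroup A] [Finite A]
    [Group G'] [TopologicalSpace Y'] [MulAction G' Y'] [ContinuousConstSMul G' Y']
    (F O : Set X) (φ : Tot ℤ X →ₗ[ℤ] ℤ) (p : Y → X) (t : G) (l : Y → ℤ) (τ : A ≃ₗ[ℤ] A) (m : ℕ)
    (α : Tot ℤ Y →+ A) (q : Y' → Y) (j : Multiplicative A →* G') (t' : G') (l' : Y' → A)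
    (reg : Cr → Fin 4 → Reg) (gap : Reg → ℤ) (R0 R1 : Reg) (D : DehnData O reg) (σU σL : X → Y)
    (lg : G → ℤ) (c : Reg → Eis ℤ) (χ : AddChar (Eis (ZMod 8)) ℂ) (ψ : AddChar A ℂ),
    Pack1 F φ p t l → Pack2 F p t τ m α q j t' l' → (∀ a, τ a = a → a = 0) → O ⊆ Fᶜ →
    DehnSec D p σU σL (fun r => t ^ gap r) → gap R0 = 0 → gap R1 = 1 → c R0 = 0 → c R1 = 0 →
    (∀ g : G, t ^ lg g = g) →
    (∀ x : (Reg × G) →₀ ℤ, d1A ℤ (fun r => t ^ gap r) x = 0 →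
      ψ (α (ellC ℤ (D.ell σU σL fun r => t ^ gap r) x)) = χ (red8 (colE lg c x))) →
    ∃ (a : Reg → A) (σU' σL' : X → Y'),
      DehnSec D (p ∘ q) σU' σL' (fun r => j (Multiplicative.ofAdd (a r)) * t' ^ gap r) ∧
      a R0 = 0 ∧ a R1 = 0 ∧ ∀ r (n : ℤ),
        ψ ((τ ^ n) (a r)) = χ ((om (ZMod 8) ^ n : (Eis (ZMod 8))ˣ) * red8 (c r))

def Len1Stmt : Prop :=
  ∀ (G Y A Reg Cr : Type) [Group G] [TopologicalSpace Y] [MulAction G Y] [ContinuousConstSMul G Y]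
    [AddCommGroup A] [Finite A] (f : Y → ℝ) (t : G) (m : ℕ) (hf : ∀ y, f (t ^ m • y) = f y)
    (τ : A ≃ₗ[ℤ] A) (j : Multiplicative A →* G) (reg : Cr → Fin 4 → Reg) (gap : Reg → ℤ)
    (a : Reg → A) (l : Reg → Tot ℤ Y) (yn ys : Y) (ψ : AddChar A ℂ) (lam : Tot ℂ Y → Tot ℂ Y → Lam ℂ)
    (ζ : Circle) (x : (Reg × ℤ) →₀ ℂ),
    DehnMap (f ⁻¹' Ioo (-1) 1) reg (fun r => j (Multiplicative.ofAdd (a r)) * t ^ gap r) l yn ys →
    (∀ (g : G) y, f (g • y) = f y) → Function.Injective j →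
    (∀ a, t * j (Multiplicative.ofAdd a) * t⁻¹ = j (Multiplicative.ofAdd (τ a))) →
    (∀ g, ∃ (a : A) (n : ℤ), g = j (Multiplicative.ofAdd a) * t ^ n) →
    (∀ g, g * t ^ m = t ^ m * g) → (∀ n : ℤ, (t ^ m) ^ n = 1 → n = 0) →
    Sesq (C := Tw ℂ Y (t ^ m)) lam → (∀ a u v, lam (gs ℂ Y (j a) u) (gs ℂ Y (j a) v) = lam u v) →
    Len1T reg gap (fun r n => ψ ((τ ^ n) (a r))) m ζ x →
    ∃ (e : Tw ℂ Y (t ^ m) →ₗ[Lam ℂ] Tw ℂ Y (t ^ m)) (x' : Tw ℂ Y (t ^ m)),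
      Proj (dTw ℂ Y (t ^ m)) (lvTw ℂ (t ^ m) f hf) lam e ∧
      Len1 (dTw ℂ Y (t ^ m)) (lvTw ℂ (t ^ m) f hf) e ζ x'

/-- The obstruction: there is no double. -/
def ObsStmt : Prop :=
  ∀ (κ : Kit) (K : Set (E 4)) (ι : E 4 ≃ₗᵢ[ℝ] E 4) (Reg Cr : Type) [Finite Reg] [Finite Cr]
    (reg : Cr → Fin 4 → Reg) (ρ : Reg → Reg) (D : DehnData (shellO K) reg),
    D.Sym (invS ι) ρ → Nonempty (Cert reg ρ) → IsEmpty (Geo κ K ι)

/-- The basic facts. -/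
structure Bas1 : Prop where
  kit : KitStmt
  ctr : CtrStmt
  locHom : LocHomStmt
  flat : FlatStmt
  cov : CovStmt
  hl : HLStmt
  sec : SecStmt
  lift : LiftStmt
  tf : TfStmt
  tr : TrStmt
  laur : LaurStmt
  lam : LamStmt

/-- The general theorems on covers and pairings. -/
structure Bas2 : Prop extends Bas1 where
  lemA : LemAStmt
  rot : RotStmt
  thomEx : ThomExStmt
  thomInv : ThomInvStmt
  pair : PairStmt
  inv : InvStmt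
  comp : CompStmt
  inter : InterStmt
  fg : FGStmt
  pa : PAStmt

end

end Pool.Agent.MP_bc14e1_gt
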