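import Pool.Agent.MP_bc14e1_gt.If

/-! Statements: construction of covers, finiteness, ranks. -/

open Set Metric
open scoped Classical

namespace Pool.Agent.MP_bc14e1_gt

noncomputable section

/-- The cover defined by a cocycle with values in an abelian group. -/
def ExCovStmt : Prop :=
  ∀ (X A : Type) [TopologicalSpace X] [AddCommGroup A] (Z : Set X) (α : Tot ℤ X →+ A),
    (∀ x ∈ Z, ∃ U, IsOpen U ∧ U ⊆ Z ∧ Ctr U x ∧ ∀ y ∈ U, ∀ V ∈ nhds y, ∃ V' ∈ nhds y,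
      V' ⊆ V ∧ IsPathConnected V') →
    (∀ c ∈ CH ℤ Z, α (dT ℤ X c) = 0) → (∀ k, k ≠ 1 → ∀ c ∈ DG ℤ X k, α c = 0) →
    ∃ (Y : Type) (_ : TopologicalSpace Y) (_ : MulAction (Multiplicative A) Y)
      (_ : ContinuousConstSMul (Multiplicative A) Y) (p : Y → X) (l : Y → A),
      GCov (Multiplicative A) Z p ∧ (∀ a y, l (Multiplicative.ofAdd a • y) = a + l y) ∧
      (∀ c : Tot ℤ Y, α (psh ℤ p c) = val0 ℤ l (dT ℤ Y c)) ∧
      ∀ f : Y → Y, Continuous (p ∘ f) →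
        (∀ γ : C(unitInterval, Y), l (f (γ 1)) - l (f (γ 0)) = α (psh ℤ (p ∘ f) (pth ℤ γ))) →
        Continuous f

/-- Open subsets of manifolds and of their covers are locally contractible. -/
def LocCtrStmt : Prop :=
  ∀ (X Y : Type) [TopologicalSpace X] [ChartedSpace (E 4) X] [TopologicalSpace Y] (p : Y → X),
    IsLocalHomeomorph p → ∀ y : Y, ∀ W ∈ nhds y,
      (∃ e : OpenPartialHomeomorph Y (E 4), y ∈ e.source ∧ e.source ⊆ W ∧ InjOn p e.source) ∧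
      (∃ U, IsOpen U ∧ U ⊆ W ∧ Ctr U y) ∧ ∃ V' ∈ nhds y, V' ⊆ W ∧ IsPathConnected V'

/-- The infinite cyclic cover. -/
def P1aStmt : Prop :=
  ∀ (κ : Kit) (X Y : Type) [TopologicalSpace X] [TopologicalSpace Y]
    [MulAction (Multiplicative ℤ) Y] [ContinuousConstSMul (Multiplicative ℤ) Y]
    (o : Orientation4 X) (F : Set X) (n : ℕ) (φ : Tot ℤ X →ₗ[ℤ] ℤ) (p : Y → X) (l : Y → ℤ), Flat F →
    XPack κ o F n φ → GCov (Multiplicative ℤ) Fᶜ p →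
    (∀ a y, l (Multiplicative.ofAdd a • y) = a + l y) →
    (∀ c : Tot ℤ Y, φ (psh ℤ p c) = val0 ℤ l (dT ℤ Y c)) →
    Pack1 F φ p (Multiplicative.ofAdd (1 : ℤ)) l

/-- Equivariant extension of a homomorphism from cycles to chains. -/
def P2aStmt : Prop :=
  ∀ (G Y A : Type) [Group G] [TopologicalSpace Y] [MulAction G Y] [ContinuousConstSMul G Y]
    [AddCommGroup A] (t : G) (τ : A ≃ₗ[ℤ] A) (α₀ : ZC ℤ (univ : Set Y) 1 →+ A),
    PathConnectedSpace Y → (∀ (n : ℤ) (y : Y), t ^ n • y = y → n = 0) →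
    (∀ z : ZC ℤ (univ : Set Y) 1, z.1 ∈ BC ℤ univ 1 → α₀ z = 0) →
    (∀ z z' : ZC ℤ (univ : Set Y) 1, z'.1 = gs ℤ Y t z.1 → α₀ z' = τ (α₀ z)) →
    ∃ α : Tot ℤ Y →+ A, (∀ z : ZC ℤ (univ : Set Y) 1, α z.1 = α₀ z) ∧
      (∀ c, α (dT ℤ Y c) = 0) ∧ (∀ k, k ≠ 1 → ∀ c ∈ DG ℤ Y k, α c = 0) ∧
      ∀ c, α (gs ℤ Y t c) = τ (α c)

/-- The finiteness property of a compact set. -/
def FGL (R : Type) [CommRing R] {X G Y : Type} [TopologicalSpace X] [Group G] [TopologicalSpace Y]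
    [MulAction G Y] [ContinuousConstSMul G Y] (p : Y → X) (s : G) (L : Set X) : Prop :=
  ∀ k O, IsOpen O → L ⊆ O → ∃ N, IsOpen N ∧ L ⊆ N ∧ N ⊆ O ∧ FGI R s (p ⁻¹' N) (p ⁻¹' O) k

def FGMVStmt : Prop :=
  ∀ (R : Type) [CommRing R] [IsNoetherianRing R] (X G Y : Type) [TopologicalSpace X] [T2Space X]
    [Group G] [TopologicalSpace Y] [MulAction G Y] [ContinuousConstSMul G Y] (p : Y → X) (s : G),
    Continuous p → (∀ y, p (s • y) = p y) → FGL R p s ∅ ∧ ∀ A B : Set X, IsCompact A →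
      IsCompact B → FGL R p s A → FGL R p s B → FGL R p s (A ∩ B) → FGL R p s (A ∪ B)

/-- Contractible open sets off the surface. -/
def FGCtrStmt : Prop :=
  ∀ (R : Type) [CommRing R] (X G Y : Type) [TopologicalSpace X]
    [Group G] [TopologicalSpace Y] [MulAction G Y] [ContinuousConstSMul G Y] (F : Set X)
    (p : Y → X) (s : G), TC F p s → ∀ N x, IsOpen N → N ⊆ Fᶜ → Ctr N x →
    ∀ k, FGI R s (p ⁻¹' N) (p ⁻¹' N) k

def FGOffStmt : Prop :=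
  ∀ (R : Type) [CommRing R] [IsNoetherianRing R] (X G Y : Type) [TopologicalSpace X] [T2Space X]
    [ChartedSpace (E 4) X] [Group G] [TopologicalSpace Y] [MulAction G Y]
    [ContinuousConstSMul G Y] (F : Set X) (p : Y → X) (s : G), TC F p s →
    ∀ L, IsCompact L → L ⊆ Fᶜ → FGL R p s L

/-- Convex rotation invariant sets in a flat chart. -/
def FGRotStmt : Prop :=
  ∀ (R : Type) [CommRing R] [IsNoetherianRing R] (X G Y : Type) [TopologicalSpace X] [T2Space X]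
    [ChartedSpace (E 4) X] [Group G] [TopologicalSpace Y] [MulAction G Y]
    [ContinuousConstSMul G Y] (F : Set X) (p : Y → X) (s : G), TC F p s →
    ∀ (e : OpenPartialHomeomorph X (ℂ × ℂ)) (L : Set (ℂ × ℂ)), FlatCh F e → IsCompact L →
    Convex ℝ L → RotInv L → L ⊆ e.target → FGL R p s (e.symm '' L)

/-- The rank does not exceed the rank of the reduction modulo a prime element. -/
def DropStmt : Prop :=
  ∀ (Λ H : Type) [CommRing Λ] [IsDomain Λ] [AddCommGroup H] [Module Λ H] [Module.Finite Λ H]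
    (ϖ : Λ) (n : ℕ), Prime ϖ →
    (∀ z : Fin (n + 1) → H, ∃ a : Fin (n + 1) → Λ, (∃ i, ¬ ϖ ∣ a i) ∧
      ∃ w, ∑ i, a i • z i = ϖ • w) →
    ∀ z : Fin (n + 1) → H, ∃ a : Fin (n + 1) → Λ, a ≠ 0 ∧ ∑ i, a i • z i = 0

/-- Ranks under a finite extension, in exact sequences and under extension of scalars. -/
def RkAlgStmt : Prop :=
  (∀ (Λ Λ' H : Type) [CommRing Λ] [IsDomain Λ] [CommRing Λ'] [IsDomain Λ'] [AddCommGroup H]
    [Module Λ' H] (f : Λ →+* Λ') (m n : ℕ) (e : Fin m → Λ'), Function.Injective f →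
    (∀ x : Λ', ∃ a : Fin m → Λ, x = ∑ i, f (a i) * e i) →
    (∀ z : Fin (n + 1) → H, ∃ a : Fin (n + 1) → Λ', a ≠ 0 ∧ ∑ i, a i • z i = 0) →
    ∀ z : Fin (m * n + 1) → H, ∃ a : Fin (m * n + 1) → Λ, a ≠ 0 ∧ ∑ i, f (a i) • z i = 0) ∧
  (∀ (Λ H₁ H₂ H₃ : Type) [CommRing Λ] [IsDomain Λ] [AddCommGroup H₁] [Module Λ H₁]
    [AddCommGroup H₂] [Module Λ H₂] [AddCommGroup H₃] [Module Λ H₃] (f : H₁ →ₗ[Λ] H₂)
    (g : H₂ →ₗ[Λ] H₃) (n : ℕ), LinearMap.ker g ≤ LinearMap.range f →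
    (∀ z : Fin (n + 1) → H₁, ∃ a : Fin (n + 1) → Λ, a ≠ 0 ∧ ∑ i, a i • z i = 0) →
    (∀ z : Fin (n + 1) → H₃, ∃ a : Fin (n + 1) → Λ, a ≠ 0 ∧ ∑ i, a i • z i = 0) →
    ∀ z : Fin (2 * n + 1) → H₂, ∃ a : Fin (2 * n + 1) → Λ, a ≠ 0 ∧ ∑ i, a i • z i = 0) ∧
  ∀ (Λ Λ' H : Type) [CommRing Λ] [IsDomain Λ] [CommRing Λ'] [IsDomain Λ'] [AddCommGroup H]
    [Module Λ' H] (f : Λ →+* Λ') (S : Set H) (n : ℕ), Function.Injective f →
    Submodule.span Λ' S = ⊤ →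
    (∀ z : Fin (n + 1) → H, (∀ i, z i ∈ S) → ∃ a : Fin (n + 1) → Λ, a ≠ 0 ∧
      ∑ i, f (a i) • z i = 0) →
    ∀ z : Fin (n + 1) → H, ∃ a : Fin (n + 1) → Λ', a ≠ 0 ∧ ∑ i, a i • z i = 0

/-- From the field with two elements to the integers. -/
def Rank2aStmt : Prop :=
  ∀ (G Y : Type) [Group G] [TopologicalSpace Y] [MulAction G Y] [ContinuousConstSMul G Y] (s : G)
    (B : Set G) (n : ℕ), (∀ g, g * s = s * g) → FGI ℤ s (univ : Set Y) univ 2 →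
    Dep (ZMod 2) Y s B n →
    ∀ z : Fin (n + 1) → Tot ℤ Y, (∀ i, z i ∈ ZC ℤ univ 2 ∧ ∀ g ∈ B, gs ℤ Y g (z i) = z i) →
      ∃ a : Fin (n + 1) → Lam ℤ, a ≠ 0 ∧ ∑ i, act ℤ Y s (a i) (z i) ∈ BC ℤ univ 2

/-- The doubling step. -/
def RankDStmt : Prop :=
  ∀ (G Y : Type) [Group G] [TopologicalSpace Y] [MulAction G Y] [ContinuousConstSMul G Y] (s : G)
    (B' B : Subgroup G) (n : ℕ), (∀ g, g * s = s * g) → (∀ (g : G) (y : Y), g • y = y → g = 1) →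
    B' ≤ B → B'.relIndex B = 2 → Dep (ZMod 2) Y s B n → Dep (ZMod 2) Y s B' (2 * n)

end

end Pool.Agent.MP_bc14e1_gt
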