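import Pool.Agent.MP_bc14e1_gt.If

/-! Statements: the construction of the double. -/

open Set Metric
open scoped Classical Manifold ContDiff

namespace Pool.Agent.MP_bc14e1_gt

noncomputable section

section Exc

variable {R : Type} [CommRing R] {X : Type} [TopologicalSpace X]

/-- Excision, onto. -/
theorem exc_surj {A U : Set X} (hA : IsClosed A) (hU : IsOpen U) (hAU : A ⊆ U) {k : ℕ}
    {c : Tot R X} (hc : c ∈ DG R X k) (hd : dT R X c ∈ CH R Aᶜ) :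
    ∃ z ∈ CC R U k, ∃ w, z - c - dT R X w ∈ CH R Aᶜ := by
  obtain ⟨m, hm⟩ := sdT_small_two hU hA.isOpen_compl (c := c)
    (CH_mono (fun x _ => (em (x ∈ A)).imp (@hAU x) id) (mem_CH_univ c))
  obtain ⟨a, ha, b, hb, hab⟩ := Submodule.mem_sup.1 (hm m le_rfl)
  have e : deg R X k a + deg R X k b = (sdT R X ^ m) c := by
    rw [← map_add, hab, deg_of_mem (sdT_pow_mem_DG m hc)]
  refine ⟨deg R X k a, ⟨deg_mem_CH k ha, deg_mem k a⟩, -sdHP R X m c, ?_⟩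
  have h := dT_sdHP m c
  have : deg R X k a - c - dT R X (-sdHP R X m c) =
      -sdHP R X m (dT R X c) - deg R X k b := by
    rw [map_neg, eq_sub_of_add_eq h, ← e]; abel
  rw [this]
  exact sub_mem (neg_mem (sdHP_mem_CH m hd)) (deg_mem_CH k hb)

/-- Excision, injective. -/
theorem exc_inj {A U : Set X} (hA : IsClosed A) (hU : IsOpen U) (hAU : A ⊆ U) {z w : Tot R X}
    (hz : z ∈ CH R U) (h : z - dT R X w ∈ CH R Aᶜ) :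
    ∃ w' ∈ CH R U, z - dT R X w' ∈ CH R (U \ A) := by
  obtain ⟨m, hm⟩ := sdT_small_two hU hA.isOpen_compl (c := w)
    (CH_mono (fun x _ => (em (x ∈ A)).imp (@hAU x) id) (mem_CH_univ w))
  obtain ⟨a, ha, b, hb, hab⟩ := Submodule.mem_sup.1 (hm m le_rfl)
  have hd : dT R X z ∈ CH R Aᶜ := by simpa [dT_dT] using dT_mem_CH h
  refine ⟨a + sdHP R X m z, add_mem ha (sdHP_mem_CH m hz), ?_⟩
  rw [diff_eq, CH_inter]
  refine ⟨sub_mem hz (dT_mem_CH (add_mem ha (sdHP_mem_CH m hz))), ?_⟩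
  have : z - dT R X (a + sdHP R X m z) =
      (sdT R X ^ m) (z - dT R X w) + dT R X b + sdHP R X m (dT R X z) := by
    rw [map_add, eq_sub_of_add_eq (dT_sdHP m z), map_sub, ← dT_sdT_pow, ← hab, map_add]; abel
  rw [SetLike.mem_coe, this]
  exact add_mem (add_mem (sdT_pow_mem_CH m h) (dT_mem_CH hb)) (sdHP_mem_CH m hd)

variable (R) in
/-- Equality in the local homology at `x`. -/
def RelEq (x : X) (a b : Tot R X) : Prop := ∃ w, a - b - dT R X w ∈ CH R {x}ᶜ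

end Exc

/-- The data of `ZeroSign 1 K`. -/
structure ZD (K : Set (E 4)) where
  W : Type
  [top : TopologicalSpace W]
  [t2 : T2Space W]
  [cpt : CompactSpace W]
  [ch : ChartedSpace (E 4) W]
  [mf : IsManifold (𝓡 4) ∞ W]
  o : Orientation4 W
  c : OpenPartialHomeomorph W (E 4)
  d : E 2 → W
  k : ℕ
  S : Fin k → (Sing W 2 →₀ ℤ)
  atl : c ∈ IsManifold.maximalAtlas (𝓡 4) ∞ W
  tgt : closedBall 0 1 ⊆ c.target
  sc : SimplyConnectedSpace ↥(c.symm '' ball 0 1)ᶜ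
  sm : ∀ x ∈ closedBall (0 : E 2) 1, ContMDiffAt (𝓡 2) (𝓡 4) ∞ d x
  inj : InjOn d (closedBall 0 1)
  imm : ∀ x ∈ closedBall (0 : E 2) 1, Function.Injective (mfderiv (𝓡 2) (𝓡 4) d x)
  out : ∀ x ∈ ball (0 : E 2) 1, d x ∉ c.symm '' closedBall 0 1
  bdy : d '' sphere 0 1 = c.symm '' K
  tr : ∀ u ∈ sphere (0 : E 2) 1, deriv (fun r : ℝ => ‖c (d (r • u))‖) 1 < 0
  Sm : ∀ i, S i ∈ supp ℤ ((c.symm '' ball 0 1)ᶜ \ d '' closedBall 0 1) 2 ∧ bd ℤ W 1 (S i) = 0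
  gen : ∀ z ∈ supp ℤ (c.symm '' ball 0 1)ᶜ 2, bd ℤ W 1 z = 0 →
    ∃! n : Fin k → ℤ, Null (c.symm '' ball 0 1)ᶜ ∅ 2 (z - ∑ i, n i • S i)
  num : ∀ i j, InterNum o (S i) (S j) (if i = j then 1 else 0)

attribute [instance] ZD.top ZD.t2 ZD.cpt ZD.ch ZD.mf

theorem ZeroSign.zd {K : Set (E 4)} (h : ZeroSign 1 K) : Nonempty (ZD K) := by
  obtain ⟨W, _, _, _, _, _, o, c, V, d, k, S, h1, h2, rfl, h3, h4, h5, h6, h7, h8, h9, h10, h11,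
    h12⟩ := h
  exact ⟨⟨W, o, c, d, k, S, h1, h2, h3, h4, h5, h6, h7, h8, h9, h10, h11, h12⟩⟩

namespace ZD

variable {K : Set (E 4)} (Z : ZD K)

/-- The complement of the half ball. -/
def U1 : Set Z.W := (Z.c.symm '' closedBall 0 (1 / 2))ᶜ

/-- The disc together with the cone over the knot. -/
def FW : Set Z.W := Z.d '' closedBall 0 1 ∪ Z.c.symm '' {v | v ∈ shell ∧ ‖v‖⁻¹ • v ∈ K}

/-- The level function. -/
def hW (w : Z.W) : ℝ := if w ∈ Z.c.symm '' ball 0 1 then 3 - 4 * ‖Z.c w‖ else -1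

end ZD

/-- Two copies of `U1` glued along the shell. -/
structure Gl {K : Set (E 4)} (Z : ZD K) (ι : E 4 ≃ₗᵢ[ℝ] E 4) where
  X : Type
  [top : TopologicalSpace X]
  i : OpenPartialHomeomorph Z.W X
  I : X ≃ₜ X
  src : i.source = Z.U1
  II : ∀ x, I (I x) = x
  cover : ∀ x, x ∈ i.target ∨ I x ∈ i.target
  glue : ∀ x ∈ Z.U1, ∀ y ∈ Z.U1,
    I (i x) = i y ↔ ∃ v ∈ shell, x = Z.c.symm v ∧ y = Z.c.symm (invS ι v)

attribute [instance] Gl.top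

namespace Gl

variable {K : Set (E 4)} {Z : ZD K} {ι : E 4 ≃ₗᵢ[ℝ] E 4} (Γ : Gl Z ι)

def h (x : Γ.X) : ℝ := if x ∈ Γ.i.target then Z.hW (Γ.i.symm x) else 1

def F : Set Γ.X := Γ.i '' Z.FW ∪ Γ.I '' (Γ.i '' Z.FW)

/-- The point set topology of the double. -/
structure GTop : Prop where
  t2 : T2Space Γ.X
  cpt : CompactSpace Γ.X
  hc : Continuous Γ.h
  hI : ∀ x, Γ.h (Γ.I x) = -Γ.h x
  hi : ∀ w ∈ Z.U1, Γ.h (Γ.i w) = Z.hW w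
  tgt : Γ.i.target = Γ.h ⁻¹' Iio 1
  sub : Z.FW ⊆ Z.U1
  Fi : ∀ w ∈ Z.U1, Γ.i w ∈ Γ.F ↔ w ∈ Z.FW
  IF : ∀ x, Γ.I x ∈ Γ.F ↔ x ∈ Γ.F
  cl : IsClosed Γ.F
  emb : ∃ e : OpenPartialHomeomorph (E 4) Γ.X, e.source = shell ∧
    e.target = Γ.h ⁻¹' Ioo (-1) 1 ∧ (∀ x ∈ shell, Γ.h (e x) = 3 - 4 * ‖x‖) ∧
    (∀ x ∈ shell, e x ∈ Γ.F ↔ ‖x‖⁻¹ • x ∈ K) ∧ ∀ x ∈ shell, Γ.I (e x) = e (invS ι x)

end Gl

/-- The open embedding `i` preserves the orientations. -/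
def OC {W X : Type} [TopologicalSpace W] [TopologicalSpace X] (o : Orientation4 W)
    (o' : Orientation4 X) (i : OpenPartialHomeomorph W X) : Prop :=
  ∀ w ∈ i.source, ∀ z ∈ CC ℤ i.source 4, RelEq ℤ w z (inc ℤ 4 (o.o w)) →
    RelEq ℤ (i w) (psh ℤ i z) (inc ℤ 4 (o'.o (i w)))

def GlueStmt : Prop :=
  ∀ (K : Set (E 4)) (ι : E 4 ≃ₗᵢ[ℝ] E 4) (Z : ZD K), (∀ x, ι (ι x) = x) → Nonempty (Gl Z ι)

def GTopStmt : Prop :=
  ∀ (K : Set (E 4)) (ι : E 4 ≃ₗᵢ[ℝ] E 4) (Z : ZD K) (Γ : Gl Z ι), K ⊆ sphere 0 1 →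
    (∀ x, ι (ι x) = x) → ι '' K = K → Γ.GTop

def GManStmt : Prop :=
  ∀ (K : Set (E 4)) (ι : E 4 ≃ₗᵢ[ℝ] E 4) (Z : ZD K) (Γ : Gl Z ι),
    ∃ _ : ChartedSpace (E 4) Γ.X, IsManifold (𝓡 4) ∞ Γ.X

/-- Isometries with the same determinant act in the same way on the local homology. -/
def ReflStmt : Prop :=
  ∀ A B : E 4 ≃ₗᵢ[ℝ] E 4, LinearMap.det (A.toLinearEquiv : E 4 →ₗ[ℝ] E 4) =
    LinearMap.det (B.toLinearEquiv : E 4 →ₗ[ℝ] E 4) → ∀ z ∈ DG ℤ (E 4) 4,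
    dT ℤ _ z ∈ CH ℤ ({0}ᶜ : Set (E 4)) → RelEq ℤ 0 (psh ℤ A z) (psh ℤ B z)

/-- The involution of the shell preserves the local orientations. -/
def InvDegStmt : Prop :=
  ∀ ι : E 4 ≃ₗᵢ[ℝ] E 4, LinearMap.det (ι.toLinearEquiv : E 4 →ₗ[ℝ] E 4) = -1 →
    ∀ v ∈ shell, ∀ z ∈ CC ℤ shell 4, dT ℤ _ z ∈ CH ℤ ({v}ᶜ : Set (E 4)) →
      RelEq ℤ 0 (psh ℤ (fun x => invS ι x - invS ι v) z) (psh ℤ (fun x => x - v) z)

/-- An orientation is constant in a chart. -/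
def ChOriStmt : Prop :=
  ∀ (W : Type) [TopologicalSpace W] [T2Space W] (o : Orientation4 W)
    (c : OpenPartialHomeomorph W (E 4)) (T : Set (E 4)), T ⊆ c.target → IsPreconnected T →
    ∃ z₀ : Tot ℤ (E 4), ∀ v ∈ T, ∀ z ∈ CC ℤ c.source 4, dT ℤ W z ∈ CH ℤ {c.symm v}ᶜ →
      (RelEq ℤ (c.symm v) z (inc ℤ 4 (o.o (c.symm v))) ↔
        RelEq ℤ 0 (psh ℤ (fun w => c w - v) z) z₀)

/-- Gluing of orientations. -/
def OriGlueStmt : Prop :=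
  ∀ (W X : Type) [TopologicalSpace W] [T2Space W] [LocallyCompactSpace W] [TopologicalSpace X]
    [T2Space X] (o : Orientation4 W) (i : OpenPartialHomeomorph W X) (I : X ≃ₜ X),
    (∀ x, I (I x) = x) → (∀ x, x ∈ i.target ∨ I x ∈ i.target) →
    (∀ w ∈ i.source, ∀ w' ∈ i.source, I (i w) = i w' → ∃ z ∈ CC ℤ i.source 4,
      ∃ z' ∈ CC ℤ i.source 4, RelEq ℤ w z (inc ℤ 4 (o.o w)) ∧ RelEq ℤ w' z' (inc ℤ 4 (o.o w')) ∧
        psh ℤ I (psh ℤ i z) = psh ℤ i z') →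
    ∃ o' : Orientation4 X, OriPres o' I ∧ OC o o' i

def GOriStmt : Prop :=
  ∀ (K : Set (E 4)) (ι : E 4 ≃ₗᵢ[ℝ] E 4) (Z : ZD K) (Γ : Gl Z ι), T2Space Γ.X →
    (∀ x, ι (ι x) = x) → LinearMap.det (ι.toLinearEquiv : E 4 →ₗ[ℝ] E 4) = -1 →
    ∃ o' : Orientation4 Γ.X, OriPres o' Γ.I ∧ OC Z.o o' Γ.i

/-- An immersed disc is locally flat. -/
def ImmStmt : Prop :=
  ∀ (g : E 2 → E 4) (x : E 2), ContDiffAt ℝ 1 g x → Function.Injective (fderiv ℝ g x) →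
    ∀ N ∈ nhds x, ∃ N', IsOpen N' ∧ x ∈ N' ∧ N' ⊆ N ∧
      ∃ e : OpenPartialHomeomorph (E 4) (ℂ × ℂ), g x ∈ e.source ∧
        ∀ y ∈ e.source, (e y).2 = 0 ↔ y ∈ g '' N'

/-- The union of the disc and of the cone over its boundary is flat along the cone. -/
def SeamStmt : Prop :=
  ∀ (g : E 2 → E 4) (u : E 2), ‖u‖ = 1 → ContDiffAt ℝ 1 g u → Function.Injective (fderiv ℝ g u) →
    (∀ᶠ x in nhds u, ‖x‖ = 1 → ‖g x‖ = 1) → (∀ᶠ x in nhds u, ‖x‖ < 1 → 1 < ‖g x‖) →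
    deriv (fun r : ℝ => ‖g (r • u)‖) 1 < 0 →
    ∀ N ∈ nhds u, ∃ N', IsOpen N' ∧ u ∈ N' ∧ N' ⊆ N ∧
      ∃ e : OpenPartialHomeomorph (E 4) (ℂ × ℂ), (∀ r ∈ Ioc (0 : ℝ) 1, r • g u ∈ e.source) ∧
        ∀ y ∈ e.source, (e y).2 = 0 ↔
          y ∈ g '' (N' ∩ closedBall 0 1) ∨ (‖y‖ < 1 ∧ ‖y‖⁻¹ • y ∈ g '' (N' ∩ sphere 0 1))

def FlatWStmt : Prop :=
  ∀ (K : Set (E 4)) (Z : ZD K), K ⊆ sphere 0 1 → ∀ w ∈ Z.FW, ∃ e, FlatCh Z.FW e ∧ w ∈ e.source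

def DiscWStmt : Prop :=
  ∀ (K : Set (E 4)) (Z : ZD K), K ⊆ sphere 0 1 → ∃ δ : E 2 → Z.W,
    ContinuousOn δ (closedBall 0 1) ∧ InjOn δ (closedBall 0 1) ∧
    δ '' closedBall 0 1 = Z.FW ∩ Z.hW ⁻¹' Iic 0 ∧ δ '' sphere 0 1 = Z.FW ∩ Z.hW ⁻¹' {0}

/-- The first homology of a simply connected set vanishes. -/
def HurStmt : Prop :=
  ∀ (X : Type) [TopologicalSpace X] (V : Set X), SimplyConnectedSpace V → ZC ℤ V 1 ≤ BC ℤ V 1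

def HomWStmt : Prop :=
  ∀ (K : Set (E 4)) (Z : ZD K), IsPathConnected Z.U1 ∧ ZC ℤ Z.U1 1 ≤ BC ℤ Z.U1 1 ∧
    ∀ z ∈ ZC ℤ Z.U1 2, ∃ n : Fin Z.k → ℤ, z - ∑ i, n i • inc ℤ 2 (Z.S i) ∈ BC ℤ Z.U1 2

/-- Intersection numbers are preserved by oriented open embeddings. -/
def GNumStmt : Prop :=
  ∀ (κ : Kit) (W X : Type) [TopologicalSpace W] [T2Space W] [ChartedSpace (E 4) W]
    [TopologicalSpace X] [T2Space X] [ChartedSpace (E 4) X] (o : Orientation4 W)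
    (o' : Orientation4 X) (i : OpenPartialHomeomorph W X), OC o o' i →
    ∀ τ, IsThom o' id τ → ∀ x ∈ supp ℤ i.source 2, ∀ y ∈ supp ℤ i.source 2,
      bd ℤ W 1 x = 0 → bd ℤ W 1 y = 0 → ∀ n, InterNum o x y n →
      beta κ τ (castZ ℂ X (psh ℤ i (inc ℤ 2 x))) (castZ ℂ X (psh ℤ i (inc ℤ 2 y))) = n

end

end Pool.Agent.MP_bc14e1_gt
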