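import Pool.Agent.MP_bc14e1_gt.If

/-! Statements: the linking form on the algebraic shadow. -/

open Set Metric
open scoped Classical

namespace Pool.Agent.MP_bc14e1_gt

noncomputable section

section

variable {C : Type} [AddCommGroup C] [Module (Lam ℂ) C] (d : C →ₗ[Lam ℂ] C)
  (M : ℕ → Set ℝ → Submodule (Lam ℂ) C) (l : C → C → Lam ℂ) (ζ : Circle)

/-- Cycles over the shell that are zero modulo `T - ζ`. -/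
def PB : Submodule (Lam ℂ) C := (ZN d M).map (LinearMap.lsmul (Lam ℂ) C (piL ζ)) ⊔ BN d M

/-- Cycles over the shell whose class is killed by `T - ζ`. -/
def TN : Submodule (Lam ℂ) C := ZN d M ⊓ (BN d M).comap (LinearMap.lsmul (Lam ℂ) C (piL ζ))

/-- Two-chains over the shell that are cycles modulo `T - ζ`. -/
def QN : Submodule (Lam ℂ) C :=
  M 2 (Ioo (-1) 1) ⊓ (LinearMap.range (LinearMap.lsmul (Lam ℂ) C (piL ζ))).comap d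

/-- The pairing of a one-cycle with a two-cycle modulo `T - ζ`. -/
def Pk (y c : C) (r : ℂ) : Prop :=
  ∃ a b : ℝ, -1 < a ∧ b < 1 ∧ c ∈ M 2 (Icc a b) ∧ ∃ e ∈ M 2 (Iio 1), ∃ y₁ ∈ M 1 (Ioo b 1),
    ∃ y₂ ∈ M 1 (Iio a), ∃ a₀ ∈ M 1 (Iio 1), y - y₁ ∈ PB d M ζ ∧ d e = y₁ + y₂ + piL ζ • a₀ ∧
      r = evL ζ (l e c)

structure PkF (P : C → C → ℂ) : Prop where
  spec : ∀ y ∈ ZN d M, ∀ c ∈ QN d M ζ, ∀ r, Pk d M l ζ y c r ↔ r = P y c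
  add_left : ∀ y ∈ ZN d M, ∀ y' ∈ ZN d M, ∀ c ∈ QN d M ζ, P (y + y') c = P y c + P y' c
  smul_left : ∀ a : Lam ℂ, ∀ y ∈ ZN d M, ∀ c ∈ QN d M ζ, P (a • y) c = evL ζ a * P y c
  add_right : ∀ y ∈ ZN d M, ∀ c ∈ QN d M ζ, ∀ c' ∈ QN d M ζ, P y (c + c') = P y c + P y c'
  smul_right : ∀ a : Lam ℂ, ∀ y ∈ ZN d M, ∀ c ∈ QN d M ζ,
    P y (a • c) = starRingEnd ℂ (evL ζ a) * P y c
  zero_left : ∀ y ∈ PB d M ζ, ∀ c ∈ QN d M ζ, P y c = 0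
  zero_d : ∀ y ∈ ZN d M, ∀ w ∈ M 3 (Ioo (-1) 1), P y (d w) = 0
  zero_pi : ∀ y ∈ ZN d M, ∀ w ∈ M 2 (Ioo (-1) 1), P y (piL ζ • w) = 0

end

/-- Cycles modulo `T - ζ` in the half pair trivially with those over the shell. -/
def KeyStmt : Prop :=
  ∀ (C : Type) [AddCommGroup C] [Module (Lam ℂ) C] (d : C →ₗ[Lam ℂ] C)
    (M : ℕ → Set ℝ → Submodule (Lam ℂ) C) (l : C → C → Lam ℂ) (ζ : Circle), IsAS d M l →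
    (∀ z ∈ M 2 (Iio 1), (∃ a, d z = piL ζ • a) → ∀ c ∈ QN d M ζ, evL ζ (l z c) = 0) ∧
    (∀ z ∈ M 2 (Iio 1), d z = 0 → ∀ q ∈ M 2 (Ioo (-1) 1), d q = 0 → l z q = 0) ∧
    (∀ a b : ℝ, -1 ≤ a → a < b → b ≤ 1 → ∀ y ∈ ZN d M, ∃ y' ∈ M 1 (Ioo a b), y - y' ∈ BN d M ∧
      ∀ g : Lam ℂ, g • y ∈ BN d M → ∃ c ∈ M 2 (Ioo a b), d c = g • y') ∧
    (∀ a b : ℝ, -1 ≤ a → a < b → b ≤ 1 → ∀ y ∈ M 1 (Ioo a b), y ∈ BN d M →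
      ∃ c ∈ M 2 (Ioo a b), d c = y) ∧
    (∀ b : ℝ, -1 < b → b ≤ 1 → ∀ y ∈ M 1 (Iio b), ∀ e ∈ M 2 (Iio 1), ∀ a ∈ M 1 (Iio 1),
      ∀ g : Lam ℂ, g ≠ 0 → y = d e + g • a →
      ∃ e' ∈ M 2 (Iio b), ∃ a' ∈ M 1 (Iio b), y = d e' + g • a') ∧
    (∀ k, ∀ c ∈ M k (Ioo (-1) 1), ∃ a b : ℝ, -1 < a ∧ a < b ∧ b < 1 ∧ c ∈ M k (Ioo a b)) ∧
    ∀ k, ∀ c ∈ M k (Iio 1), ∃ b : ℝ, -1 < b ∧ b < 1 ∧ c ∈ M k (Iio b)

def PkStmt : Prop :=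
  ∀ (C : Type) [AddCommGroup C] [Module (Lam ℂ) C] (d : C →ₗ[Lam ℂ] C)
    (M : ℕ → Set ℝ → Submodule (Lam ℂ) C) (l : C → C → Lam ℂ) (ζ : Circle), IsAS d M l →
    ∃ P, PkF d M l ζ P

/-- The linking form is nonsingular. -/
def NSStmt : Prop :=
  ∀ (C : Type) [AddCommGroup C] [Module (Lam ℂ) C] (d : C →ₗ[Lam ℂ] C)
    (M : ℕ → Set ℝ → Submodule (Lam ℂ) C) (l : C → C → Lam ℂ) (ζ : Circle) (P : C → C → ℂ),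
    IsAS d M l → H0N d M → ζ ≠ 1 → PkF d M l ζ P → ∀ x ∈ ZN d M, x ∉ BN d M →
    ∀ c ∈ M 2 (Ioo (-1) 1), d c = piL ζ • x → ∃ y ∈ ZN d M, P y c ≠ 0

/-- Torsion classes pair trivially with cycles, and the linking form is hermitian. -/
def HerStmt : Prop :=
  ∀ (C : Type) [AddCommGroup C] [Module (Lam ℂ) C] (d : C →ₗ[Lam ℂ] C)
    (M : ℕ → Set ℝ → Submodule (Lam ℂ) C) (l : C → C → Lam ℂ) (ζ : Circle) (P : C → C → ℂ),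
    IsAS d M l → PkF d M l ζ P →
    (∀ y ∈ TN d M ζ, ∀ q ∈ M 2 (Ioo (-1) 1), d q = 0 → P y q = 0) ∧
    ∀ x ∈ ZN d M, ∀ y ∈ ZN d M, ∀ c ∈ M 2 (Ioo (-1) 1), ∀ c' ∈ M 2 (Ioo (-1) 1),
      d c = piL ζ • x → d c' = piL ζ • y →
      P y c = -((ζ⁻¹ : Circle) : ℂ) ^ 2 * starRingEnd ℂ (P x c')

/-- Classes that die in the half are isotropic. -/
def IsoStmt : Prop :=
  ∀ (C : Type) [AddCommGroup C] [Module (Lam ℂ) C] (d : C →ₗ[Lam ℂ] C)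
    (M : ℕ → Set ℝ → Submodule (Lam ℂ) C) (l : C → C → Lam ℂ) (ζ : Circle) (P : C → C → ℂ),
    IsAS d M l → PkF d M l ζ P → ∀ x ∈ ZN d M, x ∈ (M 2 (Iio 1)).map d →
    ∀ y ∈ TN d M ζ, y ∈ (M 2 (Iio 1)).map d → ∀ c ∈ M 2 (Ioo (-1) 1), d c = piL ζ • x → P y c = 0

def SkewStmt : Prop :=
  ∀ (C : Type) [AddCommGroup C] [Module (Lam ℂ) C] (d : C →ₗ[Lam ℂ] C)
    (M : ℕ → Set ℝ → Submodule (Lam ℂ) C) (l : C → C → Lam ℂ) (ζ : Circle) (P : C → C → ℂ)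
    (J : C →+ C), IsAS d M l → PkF d M l ζ P → JInv d M l J → ∀ x ∈ ZN d M,
    ∀ c ∈ M 2 (Ioo (-1) 1), d c = piL ζ • x → P (J x) c = 0

/-- Restriction to the image of a projector. -/
def RestrStmt : Prop :=
  ∀ (C : Type) [AddCommGroup C] [Module (Lam ℂ) C] (d : C →ₗ[Lam ℂ] C)
    (M : ℕ → Set ℝ → Submodule (Lam ℂ) C) (l : C → C → Lam ℂ) (e : C →ₗ[Lam ℂ] C) (ζ : Circle)
    (x : C), IsAS d M l → H0N d M → Proj d M l e → Len1 d M e ζ x →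
    ∃ (C' : Type) (_ : AddCommGroup C') (_ : Module (Lam ℂ) C') (d' : C' →ₗ[Lam ℂ] C')
      (M' : ℕ → Set ℝ → Submodule (Lam ℂ) C') (l' : C' → C' → Lam ℂ) (x' : C'),
      IsAS d' M' l' ∧ H0N d' M' ∧ Len1 d' M' LinearMap.id ζ x'

/-- The generator dies in the half. -/
def CoStmt : Prop :=
  ∀ (C : Type) [AddCommGroup C] [Module (Lam ℂ) C] (d : C →ₗ[Lam ℂ] C)
    (M : ℕ → Set ℝ → Submodule (Lam ℂ) C) (l : C → C → Lam ℂ) (ζ : Circle) (x : C),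
    IsAS d M l → ζ ≠ 1 → Len1 d M LinearMap.id ζ x → x ∈ (M 2 (Iio 1)).map d

end

end Pool.Agent.MP_bc14e1_gt
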