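import Pool.Agent.MP_bc14e1_gt.If

/-! Statements: positivity. -/

open Set Metric
open scoped Classical Manifold ContDiff ComplexOrder

namespace Pool.Agent.MP_bc14e1_gt

noncomputable section

/-- Cycles lift to the infinite cyclic cover. -/
def LiftZStmt : Prop :=
  ∀ (κ : Kit) (X G Y : Type) [TopologicalSpace X] [T2Space X] [CompactSpace X]
    [ChartedSpace (E 4) X] [Group G] [TopologicalSpace Y] [MulAction G Y]
    [ContinuousConstSMul G Y] (o : Orientation4 X) (F : Set X) (n : ℕ) (φ : Tot ℤ X →ₗ[ℤ] ℤ)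
    (p : Y → X) (t : G) (l : Y → ℤ), XPack κ o F n φ → Pack1 F φ p t l →
    ∀ x ∈ ZC ℤ Fᶜ 2, ∃ u ∈ ZC ℤ (univ : Set Y) 2, psh ℤ p u = x

/-- A continuous family of nondegenerate hermitian forms on the circle. -/
def HermStmt : Prop :=
  ∀ (n : ℕ) (M : Circle → Matrix (Fin n) (Fin n) ℂ), Continuous M → (∀ η, (M η).IsHermitian) →
    (∀ η, η ≠ 1 → (M η).det ≠ 0) → (M 1).PosDef → ∀ η, (M η).PosDef

/-- At `x` the function `f` decreases in some direction of a chart. -/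
def Mono {X : Type} [TopologicalSpace X] (f : X → ℝ) (x : X) : Prop :=
  ∃ (e : OpenPartialHomeomorph X (E 4)) (v : E 4) (c r : ℝ), x ∈ e.source ∧ 0 < c ∧ 0 < r ∧
    ball (e x) r ⊆ e.target ∧ ∀ z ∈ ball (e x) r, ∀ θ : ℝ, 0 ≤ θ → z + θ • v ∈ ball (e x) r →
      f (e.symm (z + θ • v)) ≤ f (e.symm z) - c * θ

/-- A family of functions all of whose signed sums have regular zeros. -/
def TransStmt : Prop :=
  ∀ (X ι : Type) [TopologicalSpace X] [T2Space X] [CompactSpace X] [ChartedSpace (E 4) X]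
    [IsManifold (𝓡 4) ∞ X] (F N : Set X) (U : ι → Set X), IsClosed F → IsOpen N → F ⊆ N →
    (∀ i, IsOpen (U i)) → Fᶜ ⊆ ⋃ i, U i →
    ∃ (n : ℕ) (i : Fin n → ι) (g₀ : X → ℝ) (g : Fin n → X → ℝ) (N' : Set X),
      Continuous g₀ ∧ (∀ k, Continuous (g k)) ∧ tsupport g₀ ⊆ N ∧
      (∀ k, tsupport (g k) ⊆ U (i k)) ∧ IsOpen N' ∧ F ⊆ N' ∧ N' ⊆ N ∧ (∀ x ∈ N', g₀ x = 1) ∧
      (∀ k, ∀ x ∈ N', g k x = 0) ∧ ∀ (ε₀ : ℝ) (ε : Fin n → ℝ), |ε₀| = 1 → (∀ k, |ε k| = 1) →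
        ∀ x, ε₀ * g₀ x + ∑ k, ε k * g k x = 0 → Mono (fun x => ε₀ * g₀ x + ∑ k, ε k * g k x) x

/-- The analytic core of the transversality argument. -/
def SardStmt : Prop :=
  ∀ (ι : Type) [Finite ι] (U : Set (E 4)) (f : ι → E 4 → ℝ), IsOpen U →
    (∀ i, ContDiffOn ℝ 2 (f i) U) → Dense {q : ℝ × (E 4 →L[ℝ] ℝ) | ∀ i, ∀ x ∈ U,
      f i x + q.1 + q.2 x = 0 → fderiv ℝ (f i) x + q.2 ≠ 0}

/-- The anti-invariant function. -/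
def FnStmt : Prop :=
  ∀ (X G Y A G' Y' : Type) [TopologicalSpace X] [T2Space X] [CompactSpace X]
    [ChartedSpace (E 4) X] [IsManifold (𝓡 4) ∞ X] [Group G]
    [TopologicalSpace Y] [MulAction G Y] [ContinuousConstSMul G Y] [AddCommGroup A] [Finite A]
    [Group G'] [TopologicalSpace Y'] [MulAction G' Y'] [ContinuousConstSMul G' Y']
    (F : Set X) (φ : Tot ℤ X →ₗ[ℤ] ℤ) (p : Y → X) (t : G) (l : Y → ℤ)
    (τ : A ≃ₗ[ℤ] A) (m : ℕ) (α : Tot ℤ Y →+ A) (q : Y' → Y) (j : Multiplicative A →* G') (t' : G')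
    (l' : Y' → A), Pack1 F φ p t l → Pack2 F p t τ m α q j t' l' → (∀ a, τ a = a → a = 0) →
    ∀ B' B : AddSubgroup A, B' ≤ B → B'.relIndex B = 2 → ∃ f : Y' → ℝ, Continuous f ∧
      (∀ y, f (t' ^ m • y) = f y) ∧ (∀ a ∈ B', ∀ y, f (j (Multiplicative.ofAdd a) • y) = f y) ∧
      (∀ a ∈ B, a ∉ B' → ∀ y, f (j (Multiplicative.ofAdd a) • y) = -f y) ∧
      (∃ N, IsOpen N ∧ F ⊆ N ∧ ∀ y, p (q y) ∈ N → |f y| = 1) ∧ ∀ y, f y = 0 → Mono f y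

/-- One equivariant local push. -/
def Push1Stmt : Prop :=
  ∀ (X G Y : Type) [TopologicalSpace X] [T2Space X] [ChartedSpace (E 4) X] [Group G]
    [TopologicalSpace Y] [T2Space Y] [MulAction G Y] [ContinuousConstSMul G Y] (F : Set X)
    (p : Y → X) (s : G) (f : Y → ℝ), TC F p s → (∀ y, f (s • y) = f y) → ∀ y, Mono f y →
    ∃ (W W' : Set Y) (c : ℝ) (H : ℝ × Y → Y), IsOpen W ∧ IsCompact W' ∧ y ∈ interior W' ∧ W' ⊆ W ∧
      0 < c ∧ Continuous H ∧ (∀ z, H (0, z) = z) ∧ (∀ θ z, H (θ, s • z) = s • H (θ, z)) ∧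
      (∀ θ ∈ Icc (0 : ℝ) 1, ∀ z, f (H (θ, z)) ≤ f z) ∧
      ∀ θ ∈ Icc (0 : ℝ) 1, ∀ z ∈ W, f (H (θ, z)) ≤ f z - c * θ

def PushStmt : Prop :=
  ∀ (X G Y : Type) [TopologicalSpace X] [T2Space X] [ChartedSpace (E 4) X] [Group G]
    [TopologicalSpace Y] [T2Space Y] [MulAction G Y] [ContinuousConstSMul G Y] (F : Set X)
    (p : Y → X) (s : G) (f : Y → ℝ), TC F p s → Continuous f → (∀ y, f (s • y) = f y) →
    Cocpt s {y | |f y| ≤ 1 / 2} → (∀ y, f y = 0 → Mono f y) →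
    ∃ ε : ℝ, 0 < ε ∧ ε < 1 / 2 ∧ ∃ r H : Module.End ℂ (Tot ℂ Y),
      (∀ c, r (gs ℂ Y s c) = gs ℂ Y s (r c)) ∧ (∀ c, H (gs ℂ Y s c) = gs ℂ Y s (H c)) ∧
      (∀ k, ∀ c ∈ DG ℂ Y k, r c ∈ DG ℂ Y k) ∧
      (∀ c ∈ CH ℂ {y | f y < ε}, r c ∈ CH ℂ {y | f y < 0}) ∧
      ∀ c, dT ℂ Y (H c) + H (dT ℂ Y c) = c - r c

/-- Away from finitely many points the first and second homology have no torsion. -/
def GenStmt : Prop :=
  ∀ (G Y : Type) [Group G] [TopologicalSpace Y] [MulAction G Y] [ContinuousConstSMul G Y] (s : G)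
    (k : ℕ), FGI ℂ s (univ : Set Y) univ k → ∃ bad : Set Circle, bad.Finite ∧ ∀ ζ ∉ bad,
      ∀ z ∈ ZC ℂ (univ : Set Y) k, act ℂ Y s (piL ζ) z ∈ BC ℂ univ k → z ∈ BC ℂ univ k

/-- The positive family on the finite cover. -/
def Pos0Stmt : Prop :=
  ∀ (κ : Kit) (X G Y A G' Y' : Type) [TopologicalSpace X] [T2Space X]
    [ChartedSpace (E 4) X] [Group G]
    [TopologicalSpace Y] [T2Space Y] [MulAction G Y] [ContinuousConstSMul G Y] [AddCommGroup A]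
    [Finite A] [Group G'] [TopologicalSpace Y'] [T2Space Y'] [MulAction G' Y']
    [ContinuousConstSMul G' Y'] (o : Orientation4 X) (F : Set X) (φ : Tot ℤ X →ₗ[ℤ] ℤ) (p : Y → X)
    (t : G) (l : Y → ℤ) (τ : A ≃ₗ[ℤ] A) (m : ℕ) (α : Tot ℤ Y →+ A) (q : Y' → Y)
    (j : Multiplicative A →* G') (t' : G') (l' : Y' → A) (n : ℕ) (τ₁ : TS (Y × Y) → ℝ)
    (τ₂ : TS (Y' × Y') → ℝ), Pack1 F φ p t l → Pack2 F p t τ m α q j t' l' → 0 < m →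
    IsThom o p τ₁ → ThomInv τ₁ (fun y => t • y) → Pos1 t (beta κ τ₁) n →
    IsThom o (p ∘ q) τ₂ → ThomInv τ₂ (fun y => t' ^ m • y) →
    ∃ v : Fin (m * n) → Tot ℂ Y', (∀ i, v i ∈ ZC ℂ univ 2 ∧ ∀ a, gs ℂ Y' (j a) (v i) = v i) ∧
      ∀ ζ : Circle, ζ ≠ 1 → ∀ a : Fin (m * n) → ℂ, a ≠ 0 →
        0 < (evL ζ (lamF (t' ^ m) (beta κ τ₂) (∑ i, a i • v i) (∑ i, a i • v i))).re

/-- The sum over the roots of a point of the circle. -/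
def RootStmt : Prop :=
  ∀ (m : ℕ) (ζ : Circle), 0 < m → ∃ S : Finset Circle, S.card = m ∧ (∀ η ∈ S, η ^ m = ζ) ∧
    ∀ a : Lam ℂ, ∑ η ∈ S, evL η a = m * ∑ᶠ n : ℤ, ((ζ ^ n : Circle) : ℂ) * a.coeff (m * n)

/-- The dimension bound at a generic point. -/
def DimStmt : Prop :=
  ∀ (G Y : Type) [Group G] [TopologicalSpace Y] [MulAction G Y] [ContinuousConstSMul G Y] (s : G)
    (B : Subgroup G) (n : ℕ) (ζ : Circle), Finite B → (∀ g, g * s = s * g) →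
    (∀ (n : ℤ) (y : Y), s ^ n • y = y → n = 0) → Dep ℂ Y s B n →
    (∀ k, k = 1 ∨ k = 2 → ∀ z ∈ ZC ℂ (univ : Set Y) k,
      act ℂ Y s (piL ζ) z ∈ BC ℂ univ k → z ∈ BC ℂ univ k) →
    ∀ z : Fin (n + 1) → Tot ℂ Y, (∀ i, z i ∈ DG ℂ Y 2 ∧ dT ℂ Y (z i) ∈ Mul0 s (piL ζ) ∧
      ∀ g ∈ B, gs ℂ Y g (z i) = z i) →
      ∃ a : Fin (n + 1) → ℂ, a ≠ 0 ∧ ∃ w, ∑ i, a i • z i - dT ℂ Y w ∈ Mul0 s (piL ζ)

end

end Pool.Agent.MP_bc14e1_gt
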