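import Pool.Agent.MP_bc14e1_gt.If

/-! Statements: Poincare duality modulo a power of a prime. -/

open Set Metric
open scoped Classical

namespace Pool.Agent.MP_bc14e1_gt

noncomputable section

/-- A Frobenius functional of the quotient by `g`. -/
structure Frob (g : Lam ℂ) (ρ : Lam ℂ →ₗ[ℂ] ℂ) : Prop where
  ne : g ≠ 0
  cjd : g ∣ cj g
  kill : ∀ a, ρ (g * a) = 0
  inj : ∀ a', (∀ a, ρ (a * cj a') = 0) → g ∣ a'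
  surj : ∀ f : Lam ℂ →ₗ[ℂ] ℂ, (∀ a, f (g * a) = 0) → ∃ a', ∀ a, f a = ρ (a * cj a')

def FrobStmt : Prop :=
  ∀ ζ : Circle, Frob (piL ζ) (evL ζ).toLinearMap ∧ ∀ n : ℕ, ∃ ρ, Frob (piL ζ ^ n) ρ

section

variable {G Y : Type} [Group G] [TopologicalSpace Y] [MulAction G Y]

/-- A pairing modulo the subcomplex `Z`. -/
structure PP (s : G) (B : Tot ℂ Y →ₗ[ℂ] Tot ℂ Y →+ ℂ) (Z : Submodule ℂ (Tot ℂ Y)) : Prop where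
  stokes : ∀ b u, B (dT ℂ Y b) u = B b (dT ℂ Y u)
  loc : ∀ A A' : Set Y, Inv s A → Inv s A' → Disjoint A A' → ∀ b ∈ CH ℂ A, ∀ u ∈ CH ℂ A',
    B b u = 0
  zl : ∀ b ∈ Z, ∀ u, B b u = 0
  zr : ∀ b, ∀ u ∈ Z, B b u = 0
  d : ∀ c ∈ Z, dT ℂ Y c ∈ Z
  sd : ∀ c ∈ Z, sdT ℂ Y c ∈ Z
  sh : ∀ c ∈ Z, sdH ℂ Y c ∈ Z
  pr : ∀ A, Inv s A → ∀ c ∈ Z, prj ℂ A c ∈ Z

/-- A family of supports for the open set `U`. -/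
structure Adm (s : G) (𝒦 : Set (Set Y)) (U : Set Y) : Prop where
  op : IsOpen U
  inv : Inv s U
  cl : ∀ K ∈ 𝒦, IsClosed K
  kinv : ∀ K ∈ 𝒦, Inv s K
  sub : ∀ K ∈ 𝒦, K ⊆ U
  union : ∀ K ∈ 𝒦, ∀ K' ∈ 𝒦, K ∪ K' ∈ 𝒦
  ex : ∀ L, IsCompact L → L ⊆ U → ∃ K ∈ 𝒦, L ⊆ K

/-- The families of supports of two open sets, their intersection and their union. -/
structure MVF {Y : Type} (𝒦₁ 𝒦₂ 𝒦₀ 𝒦 : Set (Set Y)) : Prop where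
  inter : ∀ K ∈ 𝒦₁, ∀ K' ∈ 𝒦₂, K ∩ K' ∈ 𝒦₀
  union : ∀ K ∈ 𝒦₁, ∀ K' ∈ 𝒦₂, K ∪ K' ∈ 𝒦
  le₁ : 𝒦₀ ⊆ 𝒦₁
  le₂ : 𝒦₀ ⊆ 𝒦₂
  spl : ∀ K ∈ 𝒦, ∃ K₁ ∈ 𝒦₁, ∃ K₂ ∈ 𝒦₂, K ⊆ K₁ ∪ K₂

/-- The saturation of a set. -/
def sat (s : G) (A : Set Y) : Set Y := ⋃ n : ℤ, (fun y => s ^ n • y) '' A

/-- Supports that are compact modulo `s`. -/
def KY (s : G) (U : Set Y) : Set (Set Y) := {K | Cocpt s K ∧ K ⊆ U}

/-- Supports that are preimages of compact sets. -/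
def KX {X Y : Type} [TopologicalSpace X] (p : Y → X) (O : Set X) : Set (Set Y) :=
  {K | ∃ L, IsCompact L ∧ L ⊆ O ∧ K = p ⁻¹' L}

variable (B : Tot ℂ Y →ₗ[ℂ] Tot ℂ Y →+ ℂ) (Z : Submodule ℂ (Tot ℂ Y)) (𝒦 : Set (Set Y))

def PDi (U : Set Y) : Prop :=
  ∀ K ∈ 𝒦, ∀ u ∈ CH ℂ K, dT ℂ Y u ∈ Z →
    (∀ b, dT ℂ Y b ∈ CH ℂ Kᶜ ⊔ Z → B b u = 0) → ∃ w ∈ CH ℂ U, u - dT ℂ Y w ∈ Z

def PDs : Prop :=
  ∀ K ∈ 𝒦, ∀ f : Tot ℂ Y →ₗ[ℂ] ℂ, (∀ b, f (dT ℂ Y b) = 0) →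
    (∀ b ∈ CH ℂ Kᶜ ⊔ Z, f b = 0) → ∃ K' ∈ 𝒦, K ⊆ K' ∧ ∃ u ∈ CH ℂ K', dT ℂ Y u ∈ Z ∧
      ∀ b, dT ℂ Y b ∈ CH ℂ K'ᶜ ⊔ Z → B b u = f b

end

def MViStmt : Prop :=
  ∀ (G Y : Type) [Group G] [TopologicalSpace Y] [MulAction G Y] (s : G)
    (B : Tot ℂ Y →ₗ[ℂ] Tot ℂ Y →+ ℂ) (Z : Submodule ℂ (Tot ℂ Y)) (𝒦₁ 𝒦₂ 𝒦₀ 𝒦 : Set (Set Y))
    (U V : Set Y), PP s B Z → Adm s 𝒦₁ U → Adm s 𝒦₂ V → Adm s 𝒦₀ (U ∩ V) → MVF 𝒦₁ 𝒦₂ 𝒦₀ 𝒦 →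
    PDi B Z 𝒦₁ U → PDi B Z 𝒦₂ V → PDi B Z 𝒦₀ (U ∩ V) → PDs B Z 𝒦₀ → PDi B Z 𝒦 (U ∪ V)

def MVsStmt : Prop :=
  ∀ (G Y : Type) [Group G] [TopologicalSpace Y] [MulAction G Y] (s : G)
    (B : Tot ℂ Y →ₗ[ℂ] Tot ℂ Y →+ ℂ) (Z : Submodule ℂ (Tot ℂ Y)) (𝒦₁ 𝒦₂ 𝒦₀ 𝒦 : Set (Set Y))
    (U V : Set Y), PP s B Z → Adm s 𝒦₁ U → Adm s 𝒦₂ V → Adm s 𝒦₀ (U ∩ V) → MVF 𝒦₁ 𝒦₂ 𝒦₀ 𝒦 →
    PDi B Z 𝒦₁ U → PDi B Z 𝒦₂ V → PDs B Z 𝒦₁ → PDs B Z 𝒦₂ → PDs B Z 𝒦₀ → PDs B Z 𝒦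

/-- The pairing `ρ ∘ lam`. -/
def PPStmt : Prop :=
  ∀ (X G Y : Type) [TopologicalSpace X] [T2Space X] [Group G]
    [TopologicalSpace Y] [MulAction G Y] [ContinuousConstSMul G Y]
    (o : Orientation4 X) (F : Set X) (p : Y → X) (s : G) (β : Form Y), TC F p s → Pair o p s β →
    ∀ g ρ, Frob g ρ → ∃ B : Tot ℂ Y →ₗ[ℂ] Tot ℂ Y →+ ℂ,
      (∀ b u, B b u = ρ (lamF s β b u)) ∧ PP s B (Mul0 s g)

/-- The two families of supports. -/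
def FamStmt : Prop :=
  ∀ (X G Y : Type) [TopologicalSpace X] [T2Space X] [ChartedSpace (E 4) X] [Group G]
    [TopologicalSpace Y] [T2Space Y] [MulAction G Y] [ContinuousConstSMul G Y]
    (F : Set X) (p : Y → X) (s : G), TC F p s →
    (∀ L : Set Y, IsCompact L → Cocpt s (sat s L)) ∧
    (∀ K : Set Y, Cocpt s K → ∃ L, IsCompact L ∧ K = sat s L) ∧
    (∀ U : Set Y, IsOpen U → Inv s U → Adm s (KY s U) U) ∧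
    (∀ U V : Set Y, IsOpen U → Inv s U → IsOpen V → Inv s V →
      MVF (KY s U) (KY s V) (KY s (U ∩ V)) (KY s (U ∪ V))) ∧
    (∀ K : Set Y, Cocpt s K → IsCompact (p '' K)) ∧
    (∀ L : Set X, IsCompact L → L ⊆ Fᶜ → Cocpt s (p ⁻¹' L)) ∧
    (∀ O, IsOpen O → Adm s (KX p O) (p ⁻¹' O)) ∧
    ∀ O O', IsOpen O → IsOpen O' → MVF (KX p O) (KX p O') (KX p (O ∩ O')) (KX p (O ∪ O'))

/-- The homology over the translates of a convex chart set. -/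
def Base1HStmt : Prop :=
  ∀ (X G Y : Type) [TopologicalSpace X] [T2Space X] [Group G]
    [TopologicalSpace Y] [T2Space Y] [MulAction G Y] [ContinuousConstSMul G Y]
    (o : Orientation4 X) (F : Set X) (p : Y → X) (s : G), TC F p s →
    ∀ g : Lam ℂ, g ≠ 0 → ∀ e : OpenPartialHomeomorph Y (E 4), InjOn p e.source →
    ∀ V, IsOpen V → Convex ℝ V → V ⊆ e.target → ∀ x ∈ V,
      (∀ u ∈ CH ℂ (sat s (e.symm '' V)), dT ℂ Y u ∈ Mul0 s g →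
        ∃ a : Lam ℂ, ∃ w ∈ CH ℂ (sat s (e.symm '' V)),
          u - act ℂ Y s a (pt ℂ (e.symm x)) - dT ℂ Y w ∈ Mul0 s g) ∧
      ∀ L, IsCompact L → Convex ℝ L → L ⊆ V → x ∈ L →
        ∃ c ∈ CH ℝ (e.symm '' V), LocDeg o p (e.symm x) c 1 ∧ dT ℝ Y c ∈ CH ℝ (e.symm '' L)ᶜ ∧
          ∀ b, dT ℂ Y b ∈ CH ℂ (sat s (e.symm '' L))ᶜ ⊔ Mul0 s g → ∃ (a : Lam ℂ) (w : Tot ℂ Y),
            b - act ℂ Y s a (cast Complex.ofRealHom Y c) - dT ℂ Y w ∈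
              CH ℂ (sat s (e.symm '' L))ᶜ ⊔ Mul0 s g

/-- Duality over the translates of a convex chart set. -/
def Base1Stmt : Prop :=
  ∀ (X G Y : Type) [TopologicalSpace X] [T2Space X] [ChartedSpace (E 4) X] [Group G]
    [TopologicalSpace Y] [T2Space Y] [MulAction G Y] [ContinuousConstSMul G Y]
    (o : Orientation4 X) (F : Set X) (p : Y → X) (s : G) (β : Form Y), TC F p s → Pair o p s β →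
    ∀ g ρ, Frob g ρ → ∀ B : Tot ℂ Y →ₗ[ℂ] Tot ℂ Y →+ ℂ, (∀ b u, B b u = ρ (lamF s β b u)) →
    PP s B (Mul0 s g) → ∀ e : OpenPartialHomeomorph Y (E 4), InjOn p e.source →
    ∀ V, IsOpen V → Convex ℝ V → V ⊆ e.target →
      PDi B (Mul0 s g) (KY s (sat s (e.symm '' V))) (sat s (e.symm '' V)) ∧
      PDs B (Mul0 s g) (KY s (sat s (e.symm '' V)))

def PD1Stmt : Prop :=
  ∀ (X G Y : Type) [TopologicalSpace X] [T2Space X] [ChartedSpace (E 4) X] [Group G]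
    [TopologicalSpace Y] [T2Space Y] [MulAction G Y] [ContinuousConstSMul G Y]
    (o : Orientation4 X) (F : Set X) (p : Y → X) (s : G) (β : Form Y), TC F p s → Pair o p s β →
    ∀ g ρ, Frob g ρ → ∀ B : Tot ℂ Y →ₗ[ℂ] Tot ℂ Y →+ ℂ, (∀ b u, B b u = ρ (lamF s β b u)) →
    PP s B (Mul0 s g) → ∀ U, IsOpen U → Inv s U →
      PDi B (Mul0 s g) (KY s U) U ∧ PDs B (Mul0 s g) (KY s U)

/-- Duality over a neighbourhood of the surface in a flat chart: both sides vanish. -/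
def Base2Stmt : Prop :=
  ∀ (X G Y : Type) [TopologicalSpace X] [T2Space X] [Group G]
    [TopologicalSpace Y] [MulAction G Y] [ContinuousConstSMul G Y]
    (F : Set X) (p : Y → X) (s : G), TC F p s → ∀ ζ : Circle, ζ ≠ 1 → ∀ (n : ℕ)
    (B : Tot ℂ Y →ₗ[ℂ] Tot ℂ Y →+ ℂ) (e : OpenPartialHomeomorph X (ℂ × ℂ)) (V : Set (ℂ × ℂ)),
    FlatCh F e → IsOpen V → V ⊆ e.target → DiscCl V →
      PDi B (Mul0 s (piL ζ ^ n)) (KX p (e.symm '' V)) (p ⁻¹' (e.symm '' V)) ∧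
      PDs B (Mul0 s (piL ζ ^ n)) (KX p (e.symm '' V))

def PD2Stmt : Prop :=
  ∀ (X G Y : Type) [TopologicalSpace X] [T2Space X] [ChartedSpace (E 4) X] [Group G]
    [TopologicalSpace Y] [T2Space Y] [MulAction G Y] [ContinuousConstSMul G Y]
    (o : Orientation4 X) (F : Set X) (p : Y → X) (s : G) (β : Form Y), TC F p s → Pair o p s β →
    ∀ ζ : Circle, ζ ≠ 1 → ∀ (n : ℕ) ρ, Frob (piL ζ ^ n) ρ →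
    ∀ B : Tot ℂ Y →ₗ[ℂ] Tot ℂ Y →+ ℂ, (∀ b u, B b u = ρ (lamF s β b u)) →
    PP s B (Mul0 s (piL ζ ^ n)) → ∀ O, IsOpen O →
      PDi B (Mul0 s (piL ζ ^ n)) (KX p O) (p ⁻¹' O) ∧ PDs B (Mul0 s (piL ζ ^ n)) (KX p O)

end

end Pool.Agent.MP_bc14e1_gt
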