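import Pool.Agent.MP_bc14e1_gt.If

/-! Statements: flat closed sets and Thom cocycles. -/

open Set Metric
open scoped Classical

namespace Pool.Agent.MP_bc14e1_gt

noncomputable section

/-- Chains of degree `k` in `W` with boundary off `S`. -/
def RC (R : Type) [CommRing R] {M : Type} [TopologicalSpace M] (W S : Set M) (k : ℕ) :
    Submodule R (Tot R M) := CC R W k ⊓ (CH R Sᶜ).comap (dT R M)

/-- The diagonal. -/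
def dia (Y : Type) : Set (Y × Y) := {z | z.1 = z.2}

/-- The conclusion of `LemAStmt` for the open set `W`. -/
def LA (R : Type) [CommRing R] {M P Q : Type} [TopologicalSpace M] [NormedAddCommGroup P]
    [NormedAddCommGroup Q] [NormedSpace ℝ Q] (S : Set M)
    (𝒜 : Set (OpenPartialHomeomorph M (P × Q))) (W : Set M) : Prop :=
  ∀ k, ∀ c ∈ CC R W k, dT R M c ∈ CH R Sᶜ →
    (k < Module.finrank ℝ Q → ∃ b ∈ CH R W, c - dT R M b ∈ CH R Sᶜ) ∧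
    (k = Module.finrank ℝ Q → ∃ c' ∈ Submodule.span R {y | ∃ e ∈ 𝒜, ∃ (x : P) (ρ : ℝ),
        (∀ w ∈ ball (0 : Q) ρ, (x, w) ∈ e.target ∧ e.symm (x, w) ∈ W) ∧
        ∃ c₀ ∈ CC R (ball (0 : Q) ρ) k, dT R Q c₀ ∈ CH R ({0}ᶜ : Set Q) ∧
          y = psh R (fun w => e.symm (x, w)) c₀},
      ∃ b ∈ CH R W, c - c' - dT R M b ∈ CH R Sᶜ)

def LABaseStmt : Prop :=
  ∀ (R : Type) [CommRing R] (M P Q : Type) [TopologicalSpace M] [NormedAddCommGroup P]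
    [NormedSpace ℝ P] [NormedAddCommGroup Q] [NormedSpace ℝ Q] [FiniteDimensional ℝ Q]
    (S : Set M) (𝒜 : Set (OpenPartialHomeomorph M (P × Q))), ∀ e ∈ 𝒜,
    (∀ x ∈ e.source, x ∈ S ↔ (e x).2 = 0) → ∀ V, IsOpen V → Convex ℝ V →
    Bornology.IsBounded V → V ⊆ e.target → LA R S 𝒜 (e.symm '' V)

def LAMVStmt : Prop :=
  ∀ (R : Type) [CommRing R] (M P Q : Type) [TopologicalSpace M] [NormedAddCommGroup P]
    [NormedAddCommGroup Q] [NormedSpace ℝ Q] (S : Set M)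
    (𝒜 : Set (OpenPartialHomeomorph M (P × Q))),
    (∀ W, W ⊆ Sᶜ → LA R S 𝒜 W) ∧
    (∀ A B, IsOpen A → IsOpen B → LA R S 𝒜 A → LA R S 𝒜 B → LA R S 𝒜 (A ∩ B) →
      LA R S 𝒜 (A ∪ B)) ∧
    ∀ (ι : Type) [Nonempty ι] (U : ι → Set M), (∀ i, IsOpen (U i)) → Directed (· ⊆ ·) U →
      (∀ i, LA R S 𝒜 (U i)) → LA R S 𝒜 (⋃ i, U i)

/-- Existence and uniqueness of local degrees. -/
def LocDegStmt : Prop :=
  ∀ (X Y : Type) [TopologicalSpace X] [T2Space X] [TopologicalSpace Y] [T2Space Y]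
    (o : Orientation4 X) (q : Y → X), IsLocalHomeomorph q → ∀ y : Y,
    (∀ U, IsOpen U → y ∈ U → InjOn q U → ∀ c ∈ CC ℝ U 4, dT ℝ Y c ∈ CH ℝ {y}ᶜ →
      ∃ r, LocDeg o q y c r) ∧
    (∀ c r r', LocDeg o q y c r → LocDeg o q y c r' → r = r') ∧
    (∀ U, IsOpen U → y ∈ U → ∃ c ∈ CH ℝ U, LocDeg o q y c 1) ∧
    (∀ c r, LocDeg o q y c r → ∀ U, IsOpen U → y ∈ U → ∃ c' ∈ CH ℝ U, LocDeg o q y c' r ∧
      ∀ W, c ∈ CH ℝ W → c' ∈ CH ℝ W ∧ ∃ b ∈ CH ℝ W, c - c' - dT ℝ Y b ∈ CH ℝ (W \ {y})) ∧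
    ∀ c, LocDeg o q y c 0 → ∀ U, IsOpen U → y ∈ U → InjOn q U → c ∈ CH ℝ U →
      ∃ b ∈ CH ℝ U, c - dT ℝ Y b ∈ CH ℝ (U \ {y})

/-- A Thom functional over the open set `W`. -/
structure ThQ {X Y : Type} [TopologicalSpace X] [TopologicalSpace Y] (o : Orientation4 X)
    (q : Y → X) (W : Set (Y × Y)) (θ : Tot ℝ (Y × Y) →ₗ[ℝ] ℝ) : Prop where
  dg : ∀ k, k ≠ 4 → ∀ c ∈ DG ℝ (Y × Y) k, θ c = 0
  coc : ∀ b ∈ CH ℝ W, θ (dT ℝ _ b) = 0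
  off : ∀ c ∈ CH ℝ (W \ dia Y), θ c = 0
  one : ∀ y c r, LocDeg o q y c r → psh ℝ (fun x => (x, y)) c ∈ CH ℝ W →
    θ (psh ℝ (fun x => (x, y)) c) = r

/-- The homology of the complement of the diagonal. -/
def DiaStmt : Prop :=
  ∀ (X Y : Type) [TopologicalSpace X] [T2Space X] [ChartedSpace (E 4) X] [TopologicalSpace Y]
    [T2Space Y] (o : Orientation4 X) (q : Y → X), IsLocalHomeomorph q → ∀ W, IsOpen W →
    (∀ c ∈ RC ℝ W (dia Y) 3, ∃ b ∈ CC ℝ W 4, c - dT ℝ _ b ∈ CH ℝ (dia Y)ᶜ) ∧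
    ∀ θ : Tot ℝ (Y × Y) →ₗ[ℝ] ℝ, (∀ b ∈ CC ℝ W 5, θ (dT ℝ _ b) = 0) →
      (∀ c ∈ CC ℝ (W \ dia Y) 4, θ c = 0) →
      (∀ y c r, LocDeg o q y c r → psh ℝ (fun x => (x, y)) c ∈ CH ℝ W →
        θ (psh ℝ (fun x => (x, y)) c) = 0) → ∀ c ∈ RC ℝ W (dia Y) 4, θ c = 0

def ThBaseStmt : Prop :=
  ∀ (X Y : Type) [TopologicalSpace X] [T2Space X] [ChartedSpace (E 4) X] [TopologicalSpace Y]
    [T2Space Y] (o : Orientation4 X) (q : Y → X), IsLocalHomeomorph q → ∀ y : Y,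
    ∃ W, IsOpen W ∧ (y, y) ∈ W ∧ ∃ θ, ThQ o q W θ

def ThMVStmt : Prop :=
  ∀ (X Y : Type) [TopologicalSpace X] [T2Space X] [ChartedSpace (E 4) X] [TopologicalSpace Y]
    [T2Space Y] (o : Orientation4 X) (q : Y → X), IsLocalHomeomorph q →
    (∀ A B, IsOpen A → IsOpen B → (∃ θ, ThQ o q A θ) → (∃ θ, ThQ o q B θ) →
      ∃ θ, ThQ o q (A ∪ B) θ) ∧
    ∀ (ι : Type) [Nonempty ι] (U : ι → Set (Y × Y)), (∀ i, IsOpen (U i)) → Directed (· ⊆ ·) U →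
      (∀ i, ∃ θ, ThQ o q (U i) θ) → ∃ θ, ThQ o q (⋃ i, U i) θ

/-- An invariant functional that kills the relative cycles is an invariant coboundary. -/
def EtaStmt : Prop :=
  ∀ (X G Y : Type) [TopologicalSpace X] [T2Space X] [ChartedSpace (E 4) X] [Group G]
    [TopologicalSpace Y] [T2Space Y] [MulAction G Y] [ContinuousConstSMul G Y]
    (o : Orientation4 X) (F : Set X) (p : Y → X) (s : G), TC F p s →
    ∀ D : Tot ℝ (Y × Y) →ₗ[ℝ] ℝ, (∀ c ∈ RC ℝ univ (dia Y) 4, D c = 0) →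
    (∀ c, D (gs ℝ (Y × Y) s c) = D c) → ∃ η : TS (Y × Y) → ℝ,
      (∀ c ∈ CH ℝ (dia Y)ᶜ, coevR η c = 0) ∧ ThomInv η (fun y => s • y) ∧
      ∀ c ∈ DG ℝ (Y × Y) 4, D c = coevR η (dT ℝ _ c)

/-- A Thom cocycle is symmetric on relative cycles. -/
def SwapStmt : Prop :=
  ∀ (X Y : Type) [TopologicalSpace X] [T2Space X] [ChartedSpace (E 4) X] [TopologicalSpace Y]
    [T2Space Y] (o : Orientation4 X) (q : Y → X) (τ : TS (Y × Y) → ℝ), IsLocalHomeomorph q →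
    IsThom o q τ → ∀ c ∈ RC ℝ univ (dia Y) 4, coevR τ (psh ℝ Prod.swap c) = coevR τ c

/-- The properties of the pairing except for the symmetry. -/
def PairAStmt : Prop :=
  ∀ (κ : Kit) (Y : Type) [TopologicalSpace Y] (τ : TS (Y × Y) → ℝ),
    ((∀ c ∈ CH ℝ (dia Y)ᶜ, coevR τ c = 0) →
      ∀ A B : Set Y, Disjoint A B → ∀ u ∈ CH ℂ A, ∀ v ∈ CH ℂ B, beta κ τ u v = 0) ∧
    (∀ f : Y → Y, Continuous f → ThomInv τ f →
      ∀ u v, beta κ τ (psh ℂ f u) (psh ℂ f v) = beta κ τ u v) ∧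
    ((∀ c, coevR τ (dT ℝ _ c) = 0) → ∀ u v, beta κ τ (dT ℂ Y u) v = beta κ τ u (dT ℂ Y v)) ∧
    ((∀ σ : TS (Y × Y), σ.1 ≠ 4 → τ σ = 0) →
      ∀ k l, k + l ≠ 4 → ∀ u ∈ DG ℂ Y k, ∀ v ∈ DG ℂ Y l, beta κ τ u v = 0) ∧
    (∀ y, ∀ c ∈ DG ℝ Y 4, beta κ τ (cast Complex.ofRealHom Y c) (pt ℂ y) =
      -(coevR τ (psh ℝ (fun x => (x, y)) c) : ℝ)) ∧
    (∀ u v, beta κ τ (cjT Y u) (cjT Y v) = starRingEnd ℂ (beta κ τ u v)) ∧
    ∀ (Z : Type) [TopologicalSpace Z] (a b : TS (Y × Y) → ℝ) (L : Tot ℝ Z →ₗ[ℝ] Tot ℝ (Y × Y))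
      (L' : Tot ℂ Z →ₗ[ℂ] Tot ℂ (Y × Y)) (N : Tot ℝ Z →ₗ[ℝ] Tot ℝ (Y × Y))
      (N' : Tot ℂ Z →ₗ[ℂ] Tot ℂ (Y × Y)) (S : Set (TS Z)),
      (∀ c, cast Complex.ofRealHom _ (L c) = L' (cast Complex.ofRealHom _ c)) →
      (∀ c, cast Complex.ofRealHom _ (N c) = N' (cast Complex.ofRealHom _ c)) →
      (∀ c ∈ Finsupp.supported ℝ ℝ S, coevR a (L c) = coevR b (N c)) →
      ∀ c ∈ Finsupp.supported ℂ ℂ S, coevC a (L' c) = coevC b (N' c)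

end

end Pool.Agent.MP_bc14e1_gt
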