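import Mathlib

/-! Induction principles of Mayer-Vietoris type. -/

open Set Metric

namespace Pool.Agent.MP_bc14e1_gt

/-- Finite unions of members of a family that is closed under intersections. -/
theorem ind_fin {M : Type} {𝓑 : Set (Set M)} {P Q : Set M → Prop}
    (hQ : ∀ A B, Q A → Q B → Q (A ∪ B)) (hQ0 : Q ∅) (hQB : ∀ B ∈ 𝓑, Q B) (h0 : P ∅)
    (hI : ∀ A ∈ 𝓑, ∀ B ∈ 𝓑, A ∩ B ∈ 𝓑) (hB : ∀ B ∈ 𝓑, P B)
    (hMV : ∀ A B, Q A → Q B → P A → P B → P (A ∩ B) → P (A ∪ B)) {ι : Type} (s : Finset ι)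
    (U : ι → Set M) (hU : ∀ i ∈ s, U i ∈ 𝓑) : P (⋃ i ∈ s, U i) := by
  classical
  have hQs : ∀ (s : Finset ι) (U : ι → Set M), (∀ i ∈ s, U i ∈ 𝓑) → Q (⋃ i ∈ s, U i) := by
    intro s U hU
    induction s using Finset.induction_on with
    | empty => simpa using hQ0
    | insert a s ha ih =>
      rw [Finset.set_biUnion_insert]
      exact hQ _ _ (hQB _ (hU a (Finset.mem_insert_self _ _)))
        (ih fun i hi => hU i (Finset.mem_insert_of_mem hi))
  induction s using Finset.induction_on generalizing U with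
  | empty => simpa using h0
  | insert a s ha ih =>
    have ha' := hU a (Finset.mem_insert_self _ _)
    have hs : ∀ i ∈ s, U i ∈ 𝓑 := fun i hi => hU i (Finset.mem_insert_of_mem hi)
    rw [Finset.set_biUnion_insert]
    refine hMV _ _ (hQB _ ha') (hQs s U hs) (hB _ ha') (ih U hs) ?_
    rw [inter_iUnion₂]
    exact ih (fun i => U a ∩ U i) fun i hi => hI _ ha' _ (hs i hi)

/-- Arbitrary unions of members of a family that is closed under intersections. -/
theorem ind_union {M : Type} {𝓑 : Set (Set M)} {P Q : Set M → Prop}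
    (hQ : ∀ A B, Q A → Q B → Q (A ∪ B)) (hQ0 : Q ∅) (hQB : ∀ B ∈ 𝓑, Q B) (h0 : P ∅)
    (hI : ∀ A ∈ 𝓑, ∀ B ∈ 𝓑, A ∩ B ∈ 𝓑) (hB : ∀ B ∈ 𝓑, P B)
    (hMV : ∀ A B, Q A → Q B → P A → P B → P (A ∩ B) → P (A ∪ B))
    (hD : ∀ (ι : Type) [Nonempty ι] (U : ι → Set M), (∀ i, Q (U i)) → Directed (· ⊆ ·) U →
      (∀ i, P (U i)) → P (⋃ i, U i)) {ι : Type} (U : ι → Set M) (hU : ∀ i, U i ∈ 𝓑) :
    P (⋃ i, U i) := by
  classical
  rw [iUnion_eq_iUnion_finset]
  refine hD (Finset ι) _ (fun s => ?_) (Monotone.directed_le fun s t h =>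
    biUnion_subset_biUnion_left h) fun s => ind_fin hQ hQ0 hQB h0 hI hB hMV s U fun i _ => hU i
  exact ind_fin (P := Q) hQ hQ0 hQB hQ0 hI hQB (fun A B ha hb _ _ _ => hQ A B ha hb) s U
    fun i _ => hU i

/-- All open subsets of an open subset of a normed space. -/
theorem ind_convex {V : Type} [NormedAddCommGroup V] [NormedSpace ℝ V] {T : Set V}
    {P : Set V → Prop}
    (hB : ∀ C, IsOpen C → Convex ℝ C → Bornology.IsBounded C → C ⊆ T → P C)
    (hMV : ∀ A B, IsOpen A → IsOpen B → A ⊆ T → B ⊆ T → P A → P B → P (A ∩ B) → P (A ∪ B))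
    (hD : ∀ (ι : Type) [Nonempty ι] (U : ι → Set V), (∀ i, IsOpen (U i)) → (∀ i, U i ⊆ T) →
      Directed (· ⊆ ·) U → (∀ i, P (U i)) → P (⋃ i, U i)) {W : Set V} (hW : IsOpen W)
    (hWT : W ⊆ T) : P W := by
  choose! r hr using Metric.isOpen_iff.1 hW
  have e : W = ⋃ x : W, ball (x : V) (r x) :=
    Subset.antisymm (fun x hx => mem_iUnion.2 ⟨⟨x, hx⟩, mem_ball_self (hr x hx).1⟩)
      (iUnion_subset fun x => (hr x x.2).2)
  rw [e]
  refine ind_union (𝓑 := {C | IsOpen C ∧ Convex ℝ C ∧ Bornology.IsBounded C ∧ C ⊆ T})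
    (Q := fun A => IsOpen A ∧ A ⊆ T)
    (fun A B ha hb => ⟨ha.1.union hb.1, union_subset ha.2 hb.2⟩) ⟨isOpen_empty, empty_subset _⟩
    (fun B h => ⟨h.1, h.2.2.2⟩)
    (hB _ isOpen_empty convex_empty Bornology.isBounded_empty (empty_subset _))
    (fun A ha B hb => ⟨ha.1.inter hb.1, ha.2.1.inter hb.2.1, ha.2.2.1.subset inter_subset_left,
      inter_subset_left.trans ha.2.2.2⟩) (fun B h => hB B h.1 h.2.1 h.2.2.1 h.2.2.2)
    (fun A B ha hb => hMV A B ha.1 hb.1 ha.2 hb.2)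
    (fun ι _ U h => hD ι U (fun i => (h i).1) fun i => (h i).2) _ fun x =>
      ⟨isOpen_ball, convex_ball _ _, isBounded_ball, (hr x x.2).2.trans hWT⟩

/-- From the members of `Q` inside the sets `T i` to the members inside their union. -/
theorem ind_cover {M : Type} {P Q : Set M → Prop} (hQ : ∀ A B, Q A → Q B → Q (A ∪ B))
    (hQ' : ∀ A B, Q A → Q B → Q (A ∩ B)) (hQ0 : Q ∅) (h0 : P ∅) {ι : Type} {T : ι → Set M}
    (hT : ∀ i, Q (T i)) (hB : ∀ i U, Q U → U ⊆ T i → P U)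
    (hMV : ∀ A B, Q A → Q B → P A → P B → P (A ∩ B) → P (A ∪ B))
    (hD : ∀ (ι : Type) [Nonempty ι] (U : ι → Set M), (∀ i, Q (U i)) → Directed (· ⊆ ·) U →
      (∀ i, P (U i)) → P (⋃ i, U i)) {W : Set M} (hW : Q W) (hWT : W ⊆ ⋃ i, T i) : P W := by
  have key : ∀ (s : Finset ι) (W : Set M), Q W → Q (W ∩ ⋃ i ∈ s, T i) ∧ P (W ∩ ⋃ i ∈ s, T i) := by
    classical
    intro s W hW
    induction s using Finset.induction_on with
    | empty => simpa using ⟨hQ0, h0⟩
    | insert a s ha ih =>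
      rw [Finset.set_biUnion_insert, inter_union_distrib_left]
      have h1 := hQ' _ _ hW (hT a)
      exact ⟨hQ _ _ h1 ih.1, hMV _ _ h1 ih.1 (hB a _ h1 inter_subset_right) ih.2
        (hB a _ (hQ' _ _ h1 ih.1) (inter_subset_left.trans inter_subset_right))⟩
  have e : W = ⋃ s : Finset ι, W ∩ ⋃ i ∈ s, T i := by
    rw [← inter_iUnion, ← iUnion_eq_iUnion_finset, inter_eq_left.2 hWT]
  rw [e]
  exact hD _ _ (fun s => (key s W hW).1) (Monotone.directed_le fun s t h =>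
    inter_subset_inter_right _ (biUnion_subset_biUnion_left h)) fun s => (key s W hW).2

/-- From compact sets inside the open sets `T i` to compact sets inside their union. `Q` is any
property inherited by subsets and unions. -/
theorem ind_compact {X : Type} [TopologicalSpace X] [T2Space X] {P : Set X → Prop} (h0 : P ∅)
    {ι : Type} {T : ι → Set X} (hT : ∀ i, IsOpen (T i)) {S : Set X}
    (hB : ∀ i L, IsCompact L → L ⊆ S → L ⊆ T i → P L)
    (hMV : ∀ A B, IsCompact A → IsCompact B → P A → P B → P (A ∩ B) → P (A ∪ B)) {L : Set X}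
    (hL : IsCompact L) (hS : L ⊆ S) (hLT : L ⊆ ⋃ i, T i) : P L := by
  classical
  obtain ⟨s, hs⟩ := hL.elim_finite_subcover T hT hLT
  clear hLT
  induction s using Finset.induction_on generalizing L with
  | empty => rw [subset_empty_iff.1 (by simpa using hs : L ⊆ ∅)]; exact h0
  | insert a s ha ih =>
    rw [Finset.set_biUnion_insert] at hs
    obtain ⟨A, B, hA, hB', hAT, hBT, rfl⟩ :=
      hL.binary_compact_cover (hT a) (isOpen_biUnion fun i _ => hT i) hs
    have hAS := subset_union_left.trans hS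
    exact hMV A B hA hB' (hB a A hA hAS hAT) (ih hB' (subset_union_right.trans hS) hBT)
      (hB a _ (hA.inter hB') (inter_subset_left.trans hAS) (inter_subset_left.trans hAT))

/-- Neighbourhoods of two compact sets with small intersection. -/
theorem exists_nhds_inter {X : Type} [TopologicalSpace X] [T2Space X] {A B N : Set X}
    (hA : IsCompact A) (hB : IsCompact B) (hN : IsOpen N) (h : A ∩ B ⊆ N) :
    ∃ U V, IsOpen U ∧ IsOpen V ∧ A ⊆ U ∧ B ⊆ V ∧ U ∩ V ⊆ N := by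
  obtain ⟨U, V, hU, hV, hAU, hBV, hd⟩ := SeparatedNhds.of_isCompact_isCompact
    (hA.diff hN) (hB.diff hN) (disjoint_left.2 fun x hx hx' => hx.2 (h ⟨hx.1, hx'.1⟩))
  refine ⟨U ∪ N, V ∪ N, hU.union hN, hV.union hN, fun x hx => ?_, fun x hx => ?_, ?_⟩
  · by_cases hx' : x ∈ N
    exacts [Or.inr hx', Or.inl (hAU ⟨hx, hx'⟩)]
  · by_cases hx' : x ∈ N
    exacts [Or.inr hx', Or.inl (hBV ⟨hx, hx'⟩)]
  · rintro x ⟨h1 | h1, h2 | h2⟩
    exacts [absurd h2 (disjoint_left.1 hd h1), h2, h1, h1]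

end Pool.Agent.MP_bc14e1_gt
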