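import Pool.Agent.MP_bc14e1_gt.If

/-! The assembly of the obstruction. -/

open Set Metric
open scoped Classical

namespace Pool.Agent.MP_bc14e1_gt

theorem obs_core (hP2 : Pack2Stmt) (hTI : ThomInvStmt) (hPair : PairStmt)
    (hLam : LamStmt) (hFG : FGStmt) (hPsd1 : Psd1Stmt) (hPsd2 : Psd2Stmt) (hDehn : DehnStmt)
    (hSym : DehnSymStmt) (hAS : ASStmt) (hA3 : A3Stmt) (hCl : ClashStmt) (hH0 : H0Stmt)
    (hL2 : Len2Stmt) (hJ : JStmt) (hCol : ColStmt) (hAl : AlphaStmt) (hN2 : Norm2Stmt)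
    (hL1 : Len1Stmt) {κ : Kit} {K : Set (E 4)} {ι : E 4 ≃ₗᵢ[ℝ] E 4} (Γ : Geo κ K ι)
    {Reg Cr : Type} [Finite Reg] [Finite Cr] {reg : Cr → Fin 4 → Reg} {ρ : Reg → Reg}
    (D : DehnData (Γ.h ⁻¹' Ioo (-1) 1 ∩ Γ.Fᶜ) reg) (hD : D.Sym Γ.I ρ) (C : Cert reg ρ) {n : ℕ}
    {φ : Tot ℤ Γ.X →ₗ[ℤ] ℤ} (hX : XPack κ Γ.o Γ.F n φ) {Y : Type} [TopologicalSpace Y]
    [T2Space Y] [MulAction (Multiplicative ℤ) Y] [ContinuousConstSMul (Multiplicative ℤ) Y]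
    {p : Y → Γ.X} {t : Multiplicative ℤ} {l : Y → ℤ} (h1 : Pack1 Γ.F φ p t l) (J : Y ≃ₜ Y)
    {ε : ℤ} (hε : ε = 1 ∨ ε = -1) (hpJ : ∀ y, p (J y) = Γ.I (p y))
    (hJg : ∀ (g : Multiplicative ℤ) y, J (g • y) = g ^ ε • J y)
    (hJJ : ∃ g : Multiplicative ℤ, ∀ y, J (J y) = g • y) {σU σL : Γ.X → Y}
    (hS : DehnSec D p σU σL fun r => t ^ C.gap r) : False := by
  have hO {Y' : Type} (p' : Y' → Γ.X) (hp : ∀ y, p' y ∈ Γ.Fᶜ) :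
      p' ⁻¹' (Γ.h ⁻¹' Ioo (-1) 1 ∩ Γ.Fᶜ) = (Γ.h ∘ p') ⁻¹' Ioo (-1) 1 := by
    ext y; exact and_iff_left (hp y)
  haveI : Nonempty Reg := ⟨C.R0⟩
  have hinj : ∀ a b : ℤ, t ^ a = t ^ b → a = b := fun a b h => by
    have := h1.tc.inf (a - b) (by rw [zpow_sub, h, mul_inv_cancel])
    omega
  obtain ⟨lg, hlg⟩ : ∃ lg : Multiplicative ℤ → ℤ, ∀ g, t ^ lg g = g :=
    ⟨fun g => (h1.gen g).choose, fun g => (h1.gen g).choose_spec.symm⟩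
  have DM := hDehn _ _ _ _ _ _ _ p reg D σU σL _ h1.tc.cov inter_subset_right hS
  obtain ⟨a₀, b₀, hab, hsym⟩ := hSym _ _ _ _ _ _ _ p reg D σU σL _ Γ.I ρ J (zpowGroupHom ε)
    h1.tc.cov inter_subset_right hS hD J.continuous hpJ hJg
  rw [hO p h1.tc.cov.mem] at DM hsym
  obtain rfl : ε = -1 := by
    obtain ⟨k, hk⟩ := C.gρ
    have e (r : Reg) : C.gap r * ε = lg a₀ + (k - C.gap r) + lg b₀ := by
      apply hinj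
      rw [zpow_mul, zpow_add, zpow_add, hlg, hlg, ← hk]
      exact hab r
    have e0 := e C.R0
    have e1 := e C.R1
    rw [C.g0] at e0
    rw [C.g1] at e1
    omega
  have hJs : ∀ y, J (t • y) = t⁻¹ • J y := fun y => by rw [hJg, zpow_neg_one]
  have hJ2 : ∀ y, J (J y) = y := by
    obtain ⟨g, hg⟩ := hJJ
    intro y
    have e : g⁻¹ • J y = g • J y := by rw [← zpow_neg_one, ← hJg, ← hg, hg (J y)]
    have e2 : g * g = 1 := h1.tc.cov.free _ (J y) (by rw [mul_smul, ← e, smul_inv_smul])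
    have e3 : g = 1 := by
      have := hinj (lg g + lg g) 0 (by rw [zpow_add, hlg, e2, zpow_zero])
      rw [← hlg g, show lg g = 0 by omega, zpow_zero]
    rw [hg, e3, one_smul]
  have hf : ∀ y, (Γ.h ∘ p) (t • y) = (Γ.h ∘ p) y := fun y => congrArg Γ.h (h1.tc.cov.inv t y)
  obtain ⟨τ₁, hτ₁, hi₁, -⟩ := hTI _ _ _ Γ.o Γ.F p t ⊥ h1.tc inferInstance
  obtain ⟨hpos, hpsd⟩ := hPsd1 κ _ _ _ Γ.o Γ.F n φ p t l τ₁ hX h1 hτ₁ hi₁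
  have A1 := hAS κ K ι Γ _ _ p t _ h1.tc (hPair κ _ _ _ Γ.o Γ.F p t τ₁ h1.tc hτ₁ hi₁).1 hpsd hf
  have H1 : H0N (dTw ℂ Y t) (lvTw ℂ t (Γ.h ∘ p) hf) := by
    have := hH0 _ _ _ _ (Γ.h ∘ p) t 1 (by simpa using hf) reg _ _ _ _ C.R0 C.R1 DM
      (fun g y => congrArg Γ.h (h1.tc.cov.inv g y)) (fun g => mul_comm _ _) (by simp [C.g0])
      (by simp [C.g1])
    revert this
    generalize_proofs hf'
    revert hf'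
    rw [pow_one]
    exact fun _ h => h
  have hω : omC ≠ 1 := by
    intro h
    have h3 : Real.pi / 3 ∈ Ioc (-Real.pi) Real.pi := by
      constructor <;> linarith [Real.pi_pos]
    have := Circle.arg_exp h3.1 h3.2
    rw [show Circle.exp (Real.pi / 3) = 1 from h] at this
    simp at this
    linarith [Real.pi_pos]
  have hLine := hA3 _ _ _ _ _ omC A1 H1
    (hJ κ K ι Γ _ _ p t τ₁ J h1.tc hτ₁ hi₁ hpJ hJs hJ2 hf) hω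
    (hL2 _ _ _ _ (Γ.h ∘ p) t hf reg C.gap _ _ _ omC DM h1.gen h1.tc.inf C.len2)
  obtain ⟨c, χ, -, hc0, hc1, hTw, hker⟩ := hCol _ _ _ _ (Γ.h ∘ p) t hf lg reg ρ C _ _ _ J a₀ DM hlg
    h1.tc.inf J.continuous (by simpa using hsym) hLine
  have hfg : FGI ℤ t (univ : Set Y) univ 1 := by
    simpa using hFG ℤ _ _ _ Γ.F p t h1.tc univ univ isCompact_univ isOpen_univ subset_rfl 1
  obtain ⟨A, _, _, r, e, τ, α₀, ψ, hcard, hτm, hτ1, hα1, hα2, hψ⟩ :=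
    hAl _ _ _ _ _ t lg reg C.gap _ _ _ c χ DM hlg h1.tc.inf hfg hker
  have hm : 0 < 6 * 2 ^ e := by positivity
  obtain ⟨α, G', Y', _, _, _, _, _, q, j, t', l', h2, hα⟩ :=
    hP2 _ _ _ A Γ.F φ p t l τ _ α₀ h1 hm hτm hτ1 hα1 hα2
  obtain ⟨a, σU', σL', hS', ha0, ha1, hw⟩ := hN2 _ _ _ A G' Y' _ _ Γ.F _ φ p t l τ _ α q j t' l'
    reg C.gap C.R0 C.R1 D σU σL lg c χ ψ h1 h2 hτ1 inter_subset_right hS C.g0 C.g1 hc0 hc1 hlg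
    (fun x hx => by
      have hz := DM.ellC_mem (subset_univ _) (fun _ _ _ => trivial) hx
      rw [← hψ x ⟨_, hz⟩ hx rfl, ← hα])
  have DM' := hDehn _ _ _ _ _ _ _ (p ∘ q) reg D σU' σL' _ h2.tc.cov inter_subset_right hS'
  rw [hO (p ∘ q) h2.tc.cov.mem] at DM'
  have hfin : Finite j.range := Finite.of_surjective _ j.rangeRestrict_surjective
  obtain ⟨τ₂, hτ₂, hi₂, hi₂'⟩ := hTI _ _ _ Γ.o Γ.F (p ∘ q) _ j.range h2.tc hfin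
  have hpsd2 := hPsd2 κ _ _ _ A G' Y' Γ.o Γ.F φ p t l τ _ α q j t' l' n r τ₁ τ₂ h1 h2 hm hcard hτ1
    hX.dep hτ₁ hi₁ hpos hτ₂ hi₂ fun a => hi₂' _ ⟨a, rfl⟩
  have hinv : ∀ (g : G') y, (Γ.h ∘ p ∘ q) (g • y) = (Γ.h ∘ p ∘ q) y :=
    fun g y => congrArg Γ.h (h2.tc.cov.inv g y)
  obtain ⟨P2, hP2'⟩ := hPair κ _ _ _ Γ.o Γ.F (p ∘ q) _ τ₂ h2.tc hτ₂ hi₂
  have A2 := hAS κ K ι Γ _ _ (p ∘ q) _ _ h2.tc P2 hpsd2 (hinv _)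
  have H2 := hH0 _ _ _ _ (Γ.h ∘ p ∘ q) t' _ (hinv _) reg _ _ _ _ C.R0 C.R1 DM' hinv h2.tc.cen
    (by simp [ha0, C.g0]) (by simp [ha1, C.g1])
  obtain ⟨ζ, hζ, x, hx⟩ := hTw e
  obtain ⟨e', x', hPr, hLen⟩ := hL1 _ _ A _ _ (Γ.h ∘ p ∘ q) t' _ (hinv _) τ j reg C.gap a _ _ _ ψ
    (lamF (t' ^ (6 * 2 ^ e)) (beta κ τ₂)) ζ x DM' hinv h2.jinj h2.conj h2.gen h2.tc.cen h2.tc.inf
    (hLam _ _ _ Γ.F _ _ _ h2.tc P2.lk).1 (fun a u v => by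
      refine finsum_congr fun k => ?_
      rw [← gs_mul, ← (Commute.zpow_right (h2.tc.cen (j a)) k).eq, gs_mul,
        hP2' _ (hi₂' _ ⟨a, rfl⟩)]) (by simpa [hw] using hx)
  exact hCl _ _ _ _ e' ζ x' A2 H2 hPr hζ hLen

theorem obs_stmt (hP1 : Pack1Stmt) (hP2 : Pack2Stmt) (hTI : ThomInvStmt)
    (hPair : PairStmt) (hLam : LamStmt) (hFG : FGStmt) (hPsd1 : Psd1Stmt) (hPsd2 : Psd2Stmt)
    (hXP : XPStmt) (hDehn : DehnStmt) (hSym : DehnSymStmt) (hPush : DehnPushStmt) (hAS : ASStmt)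
    (hA3 : A3Stmt) (hCl : ClashStmt) (hFl : FlipStmt) (hN1 : Norm1Stmt) (hH0 : H0Stmt)
    (hL2 : Len2Stmt) (hJ : JStmt) (hCol : ColStmt) (hAl : AlphaStmt) (hN2 : Norm2Stmt)
    (hL1 : Len1Stmt) : ObsStmt := by
  intro κ K ι Reg Cr _ _ reg ρ D₀ hD₀ ⟨C⟩
  refine ⟨fun Γ => ?_⟩
  obtain ⟨D, hD⟩ := hPush κ K ι Γ Reg Cr reg ρ D₀ hD₀
  obtain ⟨φ, hX⟩ := hXP κ K ι Γ
  obtain ⟨Y, _, _, _, _, p, l, h1, J, ε, hε, hpJ, hJg, hJJ⟩ :=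
    hP1 κ _ Γ.o Γ.F _ φ Γ.I Γ.flat hX Γ.II Γ.IF
  have hne : (Γ.F ∩ Γ.h ⁻¹' Ioo (-1) 1).Nonempty := by
    obtain ⟨u, hu⟩ : (sphere (0 : E 2) 1).Nonempty := NormedSpace.sphere_nonempty.2 zero_le_one
    have : Γ.δ u ∈ Γ.F ∩ Γ.h ⁻¹' {0} := Γ.δ1 ▸ mem_image_of_mem _ hu
    exact ⟨_, this.1, by rw [mem_preimage, show Γ.h (Γ.δ u) = 0 from this.2]; norm_num⟩
  obtain ⟨t', ht', σU, σL, hS⟩ := hN1 _ _ _ _ _ Γ.F _ φ p _ l reg ρ D C h1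
    (isOpen_Ioo.preimage Γ.hc) hne
  rcases ht' with rfl | rfl
  · exact obs_core hP2 hTI hPair hLam hFG hPsd1 hPsd2 hDehn hSym hAS hA3 hCl hH0 hL2 hJ hCol
      hAl hN2 hL1 Γ D hD C hX h1 J hε hpJ hJg hJJ hS
  · obtain ⟨hX', h1'⟩ := hFl κ _ _ _ Γ.o Γ.F _ φ p _ l hX h1
    exact obs_core hP2 hTI hPair hLam hFG hPsd1 hPsd2 hDehn hSym hAS hA3 hCl hH0 hL2 hJ hCol
      hAl hN2 hL1 Γ D hD C hX' h1' J hε hpJ hJg hJJ hS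

end Pool.Agent.MP_bc14e1_gt
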