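import Pool.Agent.MP_bc14e1_gt.P.Kit
import Pool.Agent.MP_bc14e1_gt.P.Ctr
import Pool.Agent.MP_bc14e1_gt.P.LocHom
import Pool.Agent.MP_bc14e1_gt.P.Flat
import Pool.Agent.MP_bc14e1_gt.P.Cov
import Pool.Agent.MP_bc14e1_gt.P.HL
import Pool.Agent.MP_bc14e1_gt.P.Sec
import Pool.Agent.MP_bc14e1_gt.P.Lift
import Pool.Agent.MP_bc14e1_gt.P.Tf
import Pool.Agent.MP_bc14e1_gt.P.Tr
import Pool.Agent.MP_bc14e1_gt.P.Laur
import Pool.Agent.MP_bc14e1_gt.P.Lam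
import Pool.Agent.MP_bc14e1_gt.P.LocCtr
import Pool.Agent.MP_bc14e1_gt.P.ExCov
import Pool.Agent.MP_bc14e1_gt.P.P1a
import Pool.Agent.MP_bc14e1_gt.P.Pack1
import Pool.Agent.MP_bc14e1_gt.P.P2a
import Pool.Agent.MP_bc14e1_gt.P.Pack2
import Pool.Agent.MP_bc14e1_gt.P.LocDeg
import Pool.Agent.MP_bc14e1_gt.P.LABase
import Pool.Agent.MP_bc14e1_gt.P.LAMV
import Pool.Agent.MP_bc14e1_gt.P.LemA
import Pool.Agent.MP_bc14e1_gt.P.Dia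
import Pool.Agent.MP_bc14e1_gt.P.ThBase
import Pool.Agent.MP_bc14e1_gt.P.ThMV
import Pool.Agent.MP_bc14e1_gt.P.ThomEx
import Pool.Agent.MP_bc14e1_gt.P.ThomInv
import Pool.Agent.MP_bc14e1_gt.P.Eta
import Pool.Agent.MP_bc14e1_gt.P.Swap
import Pool.Agent.MP_bc14e1_gt.P.PairA
import Pool.Agent.MP_bc14e1_gt.P.Pair
import Pool.Agent.MP_bc14e1_gt.P.FGMV
import Pool.Agent.MP_bc14e1_gt.P.FGCtr
import Pool.Agent.MP_bc14e1_gt.P.FGOff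
import Pool.Agent.MP_bc14e1_gt.P.FGRot
import Pool.Agent.MP_bc14e1_gt.P.FG
import Pool.Agent.MP_bc14e1_gt.P.Rot
import Pool.Agent.MP_bc14e1_gt.P.Inv
import Pool.Agent.MP_bc14e1_gt.P.Comp
import Pool.Agent.MP_bc14e1_gt.P.Inter
import Pool.Agent.MP_bc14e1_gt.P.PA
import Pool.Agent.MP_bc14e1_gt.P.Frob
import Pool.Agent.MP_bc14e1_gt.P.PP
import Pool.Agent.MP_bc14e1_gt.P.Fam
import Pool.Agent.MP_bc14e1_gt.P.MVi
import Pool.Agent.MP_bc14e1_gt.P.MVs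
import Pool.Agent.MP_bc14e1_gt.P.Base1H
import Pool.Agent.MP_bc14e1_gt.P.Base1
import Pool.Agent.MP_bc14e1_gt.P.PD1
import Pool.Agent.MP_bc14e1_gt.P.Base2
import Pool.Agent.MP_bc14e1_gt.P.PD2
import Pool.Agent.MP_bc14e1_gt.P.Uni
import Pool.Agent.MP_bc14e1_gt.P.Drop
import Pool.Agent.MP_bc14e1_gt.P.Rank1
import Pool.Agent.MP_bc14e1_gt.P.RkAlg
import Pool.Agent.MP_bc14e1_gt.P.Rank2a
import Pool.Agent.MP_bc14e1_gt.P.Rank2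
import Pool.Agent.MP_bc14e1_gt.P.LiftZ
import Pool.Agent.MP_bc14e1_gt.P.Herm
import Pool.Agent.MP_bc14e1_gt.P.PsdAlg
import Pool.Agent.MP_bc14e1_gt.P.Psd1
import Pool.Agent.MP_bc14e1_gt.P.RankD
import Pool.Agent.MP_bc14e1_gt.P.Rank3
import Pool.Agent.MP_bc14e1_gt.P.Gen
import Pool.Agent.MP_bc14e1_gt.P.Root
import Pool.Agent.MP_bc14e1_gt.P.Pos0
import Pool.Agent.MP_bc14e1_gt.P.Dim
import Pool.Agent.MP_bc14e1_gt.P.Kap
import Pool.Agent.MP_bc14e1_gt.P.Sard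
import Pool.Agent.MP_bc14e1_gt.P.Trans
import Pool.Agent.MP_bc14e1_gt.P.Fn
import Pool.Agent.MP_bc14e1_gt.P.Push1
import Pool.Agent.MP_bc14e1_gt.P.Push
import Pool.Agent.MP_bc14e1_gt.P.Inj0
import Pool.Agent.MP_bc14e1_gt.P.Nov
import Pool.Agent.MP_bc14e1_gt.P.Tower
import Pool.Agent.MP_bc14e1_gt.P.Psd2
import Pool.Agent.MP_bc14e1_gt.P.XP
import Pool.Agent.MP_bc14e1_gt.P.Dehn
import Pool.Agent.MP_bc14e1_gt.P.DehnSym
import Pool.Agent.MP_bc14e1_gt.P.DehnPush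
import Pool.Agent.MP_bc14e1_gt.P.Retr
import Pool.Agent.MP_bc14e1_gt.P.PDI
import Pool.Agent.MP_bc14e1_gt.P.AS
import Pool.Agent.MP_bc14e1_gt.P.Key
import Pool.Agent.MP_bc14e1_gt.P.Pk
import Pool.Agent.MP_bc14e1_gt.P.NS
import Pool.Agent.MP_bc14e1_gt.P.Her
import Pool.Agent.MP_bc14e1_gt.P.Iso
import Pool.Agent.MP_bc14e1_gt.P.Skew
import Pool.Agent.MP_bc14e1_gt.P.A3
import Pool.Agent.MP_bc14e1_gt.P.Restr
import Pool.Agent.MP_bc14e1_gt.P.Co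
import Pool.Agent.MP_bc14e1_gt.P.Clash
import Pool.Agent.MP_bc14e1_gt.P.Flip
import Pool.Agent.MP_bc14e1_gt.P.Norm1
import Pool.Agent.MP_bc14e1_gt.P.H0
import Pool.Agent.MP_bc14e1_gt.P.Len2
import Pool.Agent.MP_bc14e1_gt.P.J
import Pool.Agent.MP_bc14e1_gt.P.Col
import Pool.Agent.MP_bc14e1_gt.P.Ext
import Pool.Agent.MP_bc14e1_gt.P.Alpha
import Pool.Agent.MP_bc14e1_gt.P.Norm2
import Pool.Agent.MP_bc14e1_gt.P.Len1
import Pool.Agent.MP_bc14e1_gt.P.Glue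
import Pool.Agent.MP_bc14e1_gt.P.GTop
import Pool.Agent.MP_bc14e1_gt.P.GMan
import Pool.Agent.MP_bc14e1_gt.P.Refl
import Pool.Agent.MP_bc14e1_gt.P.InvDeg
import Pool.Agent.MP_bc14e1_gt.P.ChOri
import Pool.Agent.MP_bc14e1_gt.P.OriGlue
import Pool.Agent.MP_bc14e1_gt.P.GOri
import Pool.Agent.MP_bc14e1_gt.P.Imm
import Pool.Agent.MP_bc14e1_gt.P.Seam
import Pool.Agent.MP_bc14e1_gt.P.FlatW
import Pool.Agent.MP_bc14e1_gt.P.DiscW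
import Pool.Agent.MP_bc14e1_gt.P.Hur
import Pool.Agent.MP_bc14e1_gt.P.HomW
import Pool.Agent.MP_bc14e1_gt.P.GNum
import Pool.Agent.MP_bc14e1_gt.P.Dbl
import Pool.Agent.MP_bc14e1_gt.P.Neg
import Pool.Agent.MP_bc14e1_gt.Obs
import Pool.Agent.MP_bc14e1_gt.Kn.Main

/-! The assembly of all steps. -/

open Set Metric

namespace Pool.Agent.MP_bc14e1_gt

theorem ok_Kit : KitStmt :=
  kit_stmt

theorem ok_Ctr : CtrStmt :=
  ctr_stmt ok_Kit.some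

theorem ok_LocHom : LocHomStmt :=
  locHom_stmt ok_Kit.some ok_Ctr

theorem ok_Flat : FlatStmt :=
  flat_stmt

theorem ok_Cov : CovStmt :=
  cov_stmt

theorem ok_HL : HLStmt :=
  hl_stmt ok_Cov

theorem ok_Sec : SecStmt :=
  sec_stmt ok_Cov ok_HL

theorem ok_Lift : LiftStmt :=
  lift_stmt ok_Cov

theorem ok_Tf : TfStmt :=
  tf_stmt

theorem ok_Tr : TrStmt :=
  tr_stmt ok_Cov ok_Lift

theorem ok_Laur : LaurStmt :=
  laur_stmt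

theorem ok_Lam : LamStmt :=
  lam_stmt ok_Cov ok_Laur

theorem ok_bas1 : Bas1 :=
  ⟨ok_Kit, ok_Ctr, ok_LocHom, ok_Flat, ok_Cov, ok_HL, ok_Sec, ok_Lift, ok_Tf, ok_Tr, ok_Laur, ok_Lam⟩

theorem ok_LocCtr : LocCtrStmt :=
  locCtr_stmt

theorem ok_ExCov : ExCovStmt :=
  exCov_stmt ok_bas1

theorem ok_P1a : P1aStmt :=
  p1a_stmt ok_bas1

theorem ok_Pack1 : Pack1Stmt :=
  pack1_stmt ok_bas1 ok_LocCtr ok_ExCov ok_P1a

theorem ok_P2a : P2aStmt :=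
  p2a_stmt ok_bas1

theorem ok_Pack2 : Pack2Stmt :=
  pack2_stmt ok_bas1 ok_LocCtr ok_ExCov ok_P2a

theorem ok_LocDeg : LocDegStmt :=
  locDeg_stmt ok_bas1

theorem ok_LABase : LABaseStmt :=
  laBase_stmt ok_bas1

theorem ok_LAMV : LAMVStmt :=
  laMV_stmt ok_bas1

theorem ok_LemA : LemAStmt :=
  lemA_stmt ok_LABase ok_LAMV

theorem ok_Dia : DiaStmt :=
  dia_stmt ok_bas1 ok_LocCtr ok_LemA ok_LocDeg

theorem ok_ThBase : ThBaseStmt :=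
  thBase_stmt ok_bas1 ok_LocCtr ok_LocDeg

theorem ok_ThMV : ThMVStmt :=
  thMV_stmt ok_bas1 ok_LocDeg ok_Dia

theorem ok_ThomEx : ThomExStmt :=
  thomEx_stmt ok_bas1 ok_LocDeg ok_ThBase ok_ThMV

theorem ok_ThomInv : ThomInvStmt :=
  thomInv_stmt ok_bas1 ok_LocDeg ok_Dia ok_ThomEx

theorem ok_Eta : EtaStmt :=
  eta_stmt ok_bas1 ok_Dia

theorem ok_Swap : SwapStmt :=
  swap_stmt ok_bas1 ok_LocCtr ok_LocDeg ok_Dia

theorem ok_PairA : PairAStmt :=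
  pairA_stmt ok_bas1

theorem ok_Pair : PairStmt :=
  pair_stmt ok_bas1 ok_LocDeg ok_Dia ok_Eta ok_Swap ok_PairA

theorem ok_FGMV : FGMVStmt :=
  fgMV_stmt ok_bas1

theorem ok_FGCtr : FGCtrStmt :=
  fgCtr_stmt ok_bas1

theorem ok_FGOff : FGOffStmt :=
  fgOff_stmt ok_bas1 ok_FGMV ok_FGCtr

theorem ok_FGRot : FGRotStmt :=
  fgRot_stmt ok_bas1 ok_FGMV ok_FGOff

theorem ok_FG : FGStmt :=
  fg_stmt ok_bas1 ok_FGMV ok_FGOff ok_FGRot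

theorem ok_Rot : RotStmt :=
  rot_stmt ok_bas1

theorem ok_Inv : InvStmt :=
  inv_stmt ok_bas1 ok_LocDeg ok_Dia ok_Eta ok_PairA

theorem ok_Comp : CompStmt :=
  comp_stmt ok_bas1 ok_LocCtr ok_LemA ok_LocDeg ok_PairA

theorem ok_Inter : InterStmt :=
  inter_stmt ok_bas1 ok_PairA

theorem ok_PA : PAStmt :=
  pa_stmt ok_bas1 ok_Rot

theorem ok_bas2 : Bas2 :=
  ⟨ok_bas1, ok_LemA, ok_Rot, ok_ThomEx, ok_ThomInv, ok_Pair, ok_Inv, ok_Comp, ok_Inter, ok_FG, ok_PA⟩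

theorem ok_Frob : FrobStmt :=
  frob_stmt ok_Laur

theorem ok_PP : PPStmt :=
  pp_stmt ok_bas1

theorem ok_Fam : FamStmt :=
  fam_stmt ok_bas1 ok_LocCtr

theorem ok_MVi : MViStmt :=
  mvi_stmt

theorem ok_MVs : MVsStmt :=
  mvs_stmt

theorem ok_Base1H : Base1HStmt :=
  base1H_stmt ok_bas1 ok_LocDeg

theorem ok_Base1 : Base1Stmt :=
  base1_stmt ok_bas1 ok_Fam ok_Base1H

theorem ok_PD1 : PD1Stmt :=
  pd1_stmt ok_bas1 ok_LocCtr ok_Fam ok_MVi ok_MVs ok_Base1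

theorem ok_Base2 : Base2Stmt :=
  base2_stmt ok_bas1 ok_Rot

theorem ok_PD2 : PD2Stmt :=
  pd2_stmt ok_bas1 ok_Fam ok_MVi ok_MVs ok_PD1 ok_Base2

theorem ok_Uni : UniStmt :=
  uni_stmt ok_bas2 ok_Frob ok_PP ok_PD2

theorem ok_Drop : DropStmt :=
  drop_stmt

theorem ok_Rank1 : Rank1Stmt :=
  rank1_stmt ok_bas2 ok_Drop

theorem ok_RkAlg : RkAlgStmt :=
  rkAlg_stmt

theorem ok_Rank2a : Rank2aStmt :=
  rank2a_stmt ok_bas1 ok_Drop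

theorem ok_Rank2 : Rank2Stmt :=
  rank2_stmt ok_bas2 ok_RkAlg ok_Rank2a

theorem ok_LiftZ : LiftZStmt :=
  liftZ_stmt ok_bas2

theorem ok_Herm : HermStmt :=
  herm_stmt

theorem ok_PsdAlg : PsdAlgStmt :=
  psdAlg_stmt ok_Laur ok_Herm

theorem ok_Psd1 : Psd1Stmt :=
  psd1_stmt ok_bas2 ok_Uni ok_Rank1 ok_Rank2 ok_LiftZ ok_PsdAlg

theorem ok_RankD : RankDStmt :=
  rankD_stmt ok_bas1 ok_RkAlg

theorem ok_Rank3 : Rank3Stmt :=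
  rank3_stmt ok_bas1 ok_RkAlg ok_RankD

theorem ok_Gen : GenStmt :=
  gen_stmt ok_Laur

theorem ok_Root : RootStmt :=
  root_stmt ok_Laur

theorem ok_Pos0 : Pos0Stmt :=
  pos0_stmt ok_bas2 ok_Root

theorem ok_Dim : DimStmt :=
  dim_stmt ok_bas1

theorem ok_Kap : KapStmt :=
  kap_stmt ok_bas2 ok_LocCtr

theorem ok_Sard : SardStmt :=
  sard_stmt

theorem ok_Trans : TransStmt :=
  trans_stmt ok_Sard

theorem ok_Fn : FnStmt :=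
  fn_stmt ok_bas2 ok_LocCtr ok_Kap ok_Trans

theorem ok_Push1 : Push1Stmt :=
  push1_stmt ok_bas1 ok_Fam

theorem ok_Push : PushStmt :=
  push_stmt ok_bas1 ok_Push1

theorem ok_Inj0 : Inj0Stmt :=
  inj0_stmt ok_bas1 ok_Frob ok_PP ok_PD1

theorem ok_Nov : NovStmt :=
  nov_stmt ok_bas2 ok_Fam ok_Fn ok_Push ok_Inj0

theorem ok_Tower : TowerStmt :=
  tower_stmt

theorem ok_Psd2 : Psd2Stmt :=
  psd2_stmt ok_bas2 ok_Rank1 ok_Rank2 ok_Rank3 ok_Gen ok_Pos0 ok_Dim ok_Nov ok_Tower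

theorem ok_XP : XPStmt :=
  xp_stmt ok_bas2

theorem ok_Dehn : DehnStmt :=
  dehn_stmt ok_bas1

theorem ok_DehnSym : DehnSymStmt :=
  dehnSym_stmt ok_bas1

theorem ok_DehnPush : DehnPushStmt :=
  dehnPush_stmt

theorem ok_Retr : RetrStmt :=
  retr_stmt ok_bas1

theorem ok_PDI : PDIStmt :=
  pdi_stmt ok_bas1 ok_Frob ok_PP ok_PD2

theorem ok_AS : ASStmt :=
  as_stmt ok_bas2 ok_Retr ok_PDI

theorem ok_Key : KeyStmt :=
  key_stmt ok_Laur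

theorem ok_Pk : PkStmt :=
  pk_stmt ok_Laur ok_Key

theorem ok_NS : NSStmt :=
  ns_stmt ok_Laur ok_Key

theorem ok_Her : HerStmt :=
  her_stmt ok_Laur ok_Key

theorem ok_Iso : IsoStmt :=
  iso_stmt ok_Laur ok_Key ok_Her

theorem ok_Skew : SkewStmt :=
  skew_stmt ok_Laur ok_Key ok_Her

theorem ok_A3 : A3Stmt :=
  a3_stmt ok_Laur ok_Pk ok_NS ok_Iso ok_Skew

theorem ok_Restr : RestrStmt :=
  restr_stmt

theorem ok_Co : CoStmt :=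
  co_stmt ok_Laur ok_Key

theorem ok_Clash : ClashStmt :=
  clash_stmt ok_Laur ok_Restr ok_Co ok_Pk ok_NS ok_Iso

theorem ok_Flip : FlipStmt :=
  flip_stmt

theorem ok_Norm1 : Norm1Stmt :=
  norm1_stmt ok_bas1 ok_Dehn

theorem ok_H0 : H0Stmt :=
  h0_stmt

theorem ok_Len2 : Len2Stmt :=
  len2_stmt

theorem ok_J : JStmt :=
  j_stmt ok_bas2

theorem ok_Col : ColStmt :=
  col_stmt

theorem ok_Ext : ExtStmt :=
  ext_stmt ok_Laur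

theorem ok_Alpha : AlphaStmt :=
  alpha_stmt ok_Ext

theorem ok_Norm2 : Norm2Stmt :=
  norm2_stmt ok_bas1

theorem ok_Len1 : Len1Stmt :=
  len1_stmt

theorem ok_Glue : GlueStmt :=
  glue_stmt

theorem ok_GTop : GTopStmt :=
  gTop_stmt

theorem ok_GMan : GManStmt :=
  gMan_stmt

theorem ok_Refl : ReflStmt :=
  refl_stmt ok_bas1

theorem ok_InvDeg : InvDegStmt :=
  invDeg_stmt ok_bas1 ok_Refl

theorem ok_ChOri : ChOriStmt :=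
  chOri_stmt ok_bas1

theorem ok_OriGlue : OriGlueStmt :=
  oriGlue_stmt

theorem ok_GOri : GOriStmt :=
  gOri_stmt ok_bas1 ok_InvDeg ok_ChOri ok_OriGlue

theorem ok_Imm : ImmStmt :=
  imm_stmt

theorem ok_Seam : SeamStmt :=
  seam_stmt

theorem ok_FlatW : FlatWStmt :=
  flatW_stmt ok_Imm ok_Seam

theorem ok_DiscW : DiscWStmt :=
  discW_stmt

theorem ok_Hur : HurStmt :=
  hur_stmt ok_bas1

theorem ok_HomW : HomWStmt :=
  homW_stmt ok_bas1 ok_Hur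

theorem ok_GNum : GNumStmt :=
  gNum_stmt ok_bas2 ok_LocDeg

theorem ok_Dbl : DblStmt :=
  dbl_stmt ok_Glue ok_GTop ok_GMan ok_GOri ok_FlatW ok_DiscW ok_HomW ok_GNum

theorem ok_Neg : NegStmt :=
  neg_stmt

theorem ok_Obs : ObsStmt :=
  obs_stmt ok_Pack1 ok_Pack2 ok_ThomInv ok_Pair ok_Lam ok_FG ok_Psd1 ok_Psd2 ok_XP ok_Dehn ok_DehnSym ok_DehnPush
    ok_AS ok_A3 ok_Clash ok_Flip ok_Norm1 ok_H0 ok_Len2 ok_J ok_Col ok_Alpha ok_Norm2 ok_Len1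

end Pool.Agent.MP_bc14e1_gt
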