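import Pool.Agent.MP_bc14e1_gt.Defs

/-! Singular chains: elementary properties, cones, subdivision (adapted from MP_4f4d9f_gt). -/

namespace Pool.Agent.MP_bc14e1_gt

/-- The augmentation. -/
noncomputable def aug (R : Type) [Ring R] (X : Type) [TopologicalSpace X] :
    (Sing X 0 →₀ R) →ₗ[R] R := Finsupp.linearCombination R fun _ => 1

section Basic


open Finsupp

variable (R : Type) [Ring R] {X Y Z : Type} [TopologicalSpace X] [TopologicalSpace Y]
  [TopologicalSpace Z]

theorem bd_apply (k : ℕ) (c : Sing X (k + 1) →₀ R) :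
    bd R X k c = ∑ i : Fin (k + 2), (-1 : ℤ) ^ (i : ℕ) • mapDomain (face i) c := by
  simp only [bd, LinearMap.sum_apply, LinearMap.smul_apply, lmapDomain_apply]

theorem bd_single (k : ℕ) (σ : Sing X (k + 1)) (a : R) :
    bd R X k (single σ a) = ∑ i : Fin (k + 2), (-1 : ℤ) ^ (i : ℕ) • single (face i σ) a := by
  simp only [bd_apply, mapDomain_single]

theorem push_single (f : C(X, Y)) (k : ℕ) (σ : Sing X k) (a : R) :
    push R f k (single σ a) = single (f.comp σ) a := by
  simp only [push, lmapDomain_apply, mapDomain_single]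

theorem aug_single (σ : Sing X 0) (a : R) : aug R X (single σ a) = a := by
  simp [aug]

theorem face_comp (f : C(X, Y)) {k : ℕ} (i : Fin (k + 2)) (σ : Sing X (k + 1)) :
    face i (f.comp σ) = f.comp (face i σ) := rfl

theorem face_face {k : ℕ} (σ : Sing X (k + 2)) (i : Fin (k + 3)) (j : Fin (k + 2)) :
    face j (face i σ) = face (j.predAbove i) (face (i.succAbove j) σ) := by
  ext t
  simp only [face, ContinuousMap.comp_apply, ContinuousMap.coe_mk, stdSimplex.map_comp_apply]
  congr 2
  funext m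
  exact (Fin.succAbove_succAbove_succAbove_predAbove i j m).symm

theorem bd_bd (k : ℕ) (c : Sing X (k + 2) →₀ R) : bd R X k (bd R X (k + 1) c) = 0 := by
  induction c using Finsupp.induction_linear with
  | zero => simp
  | add a b ha hb => simp [ha, hb]
  | single σ a =>
    simp only [bd_single, map_sum, map_zsmul, Finset.smul_sum, smul_smul]
    rw [← Finset.sum_product']
    refine Finset.sum_involution (fun p _ => (p.1.succAbove p.2, p.2.predAbove p.1))
      ?_ ?_ (fun _ _ => by simp) ?_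
    · rintro ⟨i, j⟩ -
      dsimp only
      rw [← face_face, ← add_smul]
      convert zero_smul ℤ _
      have := Fin.neg_one_pow_succAbove_add_predAbove (R := ℤ) i j
      rw [← pow_add, ← pow_add, this]
      ring
    · rintro ⟨i, j⟩ - - h
      exact Fin.succAbove_ne i j (congrArg Prod.fst h)
    · rintro ⟨i, j⟩ -
      exact Prod.ext (Fin.succAbove_succAbove_predAbove i j) (Fin.predAbove_predAbove_succAbove i j)

theorem aug_bd (c : Sing X 1 →₀ R) : aug R X (bd R X 0 c) = 0 := by
  induction c using Finsupp.induction_linear with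
  | zero => simp
  | add a b ha hb => simp [ha, hb]
  | single σ a =>
    simp only [bd_single, map_sum, map_zsmul, aug_single]
    simp [Fin.sum_univ_two]

theorem bd_push (f : C(X, Y)) (k : ℕ) (c : Sing X (k + 1) →₀ R) :
    bd R Y k (push R f (k + 1) c) = push R f k (bd R X k c) := by
  induction c using Finsupp.induction_linear with
  | zero => simp
  | add a b ha hb => simp [ha, hb]
  | single σ a => simp only [push_single, bd_single, map_sum, map_zsmul, face_comp]

theorem aug_push (f : C(X, Y)) (c : Sing X 0 →₀ R) : aug R Y (push R f 0 c) = aug R X c := by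
  induction c using Finsupp.induction_linear with
  | zero => simp
  | add a b ha hb => simp [ha, hb]
  | single σ a => simp only [push_single, aug_single]

theorem push_push (g : C(Y, Z)) (f : C(X, Y)) (k : ℕ) (c : Sing X k →₀ R) :
    push R g k (push R f k c) = push R (g.comp f) k c := by
  simp only [push, lmapDomain_apply, ← mapDomain_comp]
  rfl

theorem push_id (k : ℕ) (c : Sing X k →₀ R) : push R (ContinuousMap.id X) k c = c := by
  simp only [push, lmapDomain_apply]
  exact mapDomain_id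

variable {R}

theorem mem_supp {A : Set X} {k : ℕ} {c : Sing X k →₀ R} :
    c ∈ supp R A k ↔ ∀ σ ∈ c.support, ∀ t, σ t ∈ A := by
  simp only [supp, mem_supported, Set.subset_def, Finset.mem_coe, Set.mem_setOf_eq, Set.mem_range,
    forall_exists_index, forall_apply_eq_imp_iff]

theorem single_mem_supp {A : Set X} {k : ℕ} {σ : Sing X k} (a : R) (h : ∀ t, σ t ∈ A) :
    single σ a ∈ supp R A k :=
  single_mem_supported R a (by rintro _ ⟨t, rfl⟩; exact h t)

/-- Induction on chains supported in `A`. -/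
theorem supp_induction {A : Set X} {k : ℕ} {P : (Sing X k →₀ R) → Prop} (h0 : P 0)
    (hadd : ∀ a b, P a → P b → P (a + b))
    (h1 : ∀ (σ : Sing X k) (a : R), (∀ t, σ t ∈ A) → P (single σ a))
    {c : Sing X k →₀ R} (hc : c ∈ supp R A k) : P c := by
  rw [← c.sum_single, Finsupp.sum]
  exact Finset.sum_induction _ P hadd h0 fun σ hσ => h1 σ _ (mem_supp.1 hc σ hσ)

theorem supp_mono {A B : Set X} (h : A ⊆ B) (k : ℕ) : supp R A k ≤ supp R B k :=
  supported_mono fun _ hσ => Set.Subset.trans hσ h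

theorem supp_inter (A B : Set X) (k : ℕ) : supp R (A ∩ B) k = supp R A k ⊓ supp R B k := by
  ext c
  simp only [Submodule.mem_inf, mem_supp, Set.mem_inter_iff, forall_and]

theorem mem_supp_univ {k : ℕ} (c : Sing X k →₀ R) : c ∈ supp R Set.univ k :=
  mem_supp.2 fun _ _ _ => trivial

theorem eq_zero_of_mem_supp_empty {k : ℕ} {c : Sing X k →₀ R} (h : c ∈ supp R ∅ k) : c = 0 := by
  rw [← support_eq_empty, Finset.eq_empty_iff_forall_notMem]
  exact fun σ hσ => mem_supp.1 h σ hσ (Classical.arbitrary _)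

theorem bd_mem_supp {A : Set X} {k : ℕ} {c : Sing X (k + 1) →₀ R} (h : c ∈ supp R A (k + 1)) :
    bd R X k c ∈ supp R A k := by
  refine supp_induction (P := fun c => bd R X k c ∈ supp R A k) (by simp)
    (fun a b ha hb => by simpa using add_mem ha hb) (fun σ a hσ => ?_) h
  rw [bd_single]
  exact sum_mem fun i _ => zsmul_mem (single_mem_supp (σ := face i σ) a fun t => hσ _) _

theorem push_mem_supp (f : C(X, Y)) {A : Set X} {B : Set Y} (hf : Set.MapsTo f A B) {k : ℕ}
    {c : Sing X k →₀ R} (h : c ∈ supp R A k) : push R f k c ∈ supp R B k := by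
  refine supp_induction (P := fun c => push R f k c ∈ supp R B k) (by simp)
    (fun a b ha hb => by simpa using add_mem ha hb) (fun σ a hσ => ?_) h
  rw [push_single]
  exact single_mem_supp a fun t => hf (hσ t)

/-- A chain is carried by a compact set. -/
theorem exists_compact_supp {A : Set X} {k : ℕ} {c : Sing X k →₀ R} (h : c ∈ supp R A k) :
    ∃ K, IsCompact K ∧ K ⊆ A ∧ c ∈ supp R K k := by
  refine ⟨⋃ σ ∈ c.support, Set.range σ,
    c.support.isCompact_biUnion fun σ _ => isCompact_range σ.continuous, ?_, ?_⟩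
  · simp only [Set.iUnion_subset_iff]
    rintro σ hσ _ ⟨t, rfl⟩
    exact mem_supp.1 h σ hσ t
  · exact mem_supp.2 fun σ hσ t => Set.mem_biUnion hσ ⟨t, rfl⟩

/-- A `0`-chain in `A ∪ B` is the sum of a `0`-chain in `A` and a `0`-chain in `B`. -/
theorem supp_union_zero (A B : Set X) : supp R (A ∪ B) 0 = supp R A 0 ⊔ supp R B 0 := by
  refine le_antisymm (fun c hc => ?_)
    (sup_le (supp_mono Set.subset_union_left 0) (supp_mono Set.subset_union_right 0))
  refine supp_induction (P := fun c => c ∈ supp R A 0 ⊔ supp R B 0) (zero_mem _)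
    (fun a b ha hb => add_mem ha hb) (fun σ a hσ => ?_) hc
  rcases hσ default with h | h
  · exact Submodule.mem_sup_left (single_mem_supp a fun t => by rwa [Subsingleton.elim t default])
  · exact Submodule.mem_sup_right (single_mem_supp a fun t => by rwa [Subsingleton.elim t default])

theorem push_injective (f : C(X, Y)) (hf : Function.Injective f) (k : ℕ) :
    Function.Injective (push R f k) :=
  mapDomain_injective fun _ _ h => ContinuousMap.ext fun t => hf (congrArg (· t) h)

/-- Chains supported in the range of an embedding come from the source. -/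
theorem exists_push_eq (f : C(X, Y)) (hf : Topology.IsEmbedding f) {A : Set X} {k : ℕ}
    {c : Sing Y k →₀ R} (h : c ∈ supp R (f '' A) k) : ∃ b ∈ supp R A k, push R f k b = c := by
  refine supp_induction (P := fun c => ∃ b ∈ supp R A k, push R f k b = c) ⟨0, zero_mem _, by simp⟩
    ?_ (fun σ a hσ => ?_) h
  · rintro _ _ ⟨a, ha, rfl⟩ ⟨b, hb, rfl⟩
    exact ⟨a + b, add_mem ha hb, by simp⟩
  · choose g hg hg' using hσ
    have hc : Continuous g := hf.continuous_iff.2 (by
      convert σ.continuous using 1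
      exact funext hg')
    refine ⟨single ⟨g, hc⟩ a, single_mem_supp a hg, ?_⟩
    rw [push_single]
    congr 1
    exact ContinuousMap.ext hg'

end Basic

section Cone


open Finsupp

/-- The standard simplex. -/
abbrev Sx (k : ℕ) : Type := stdSimplex ℝ (Fin (k + 1))

/-- The inclusion of the `i`-th face. -/
noncomputable def coface {k : ℕ} (i : Fin (k + 2)) : C(Sx k, Sx (k + 1)) :=
  ⟨stdSimplex.map i.succAbove, stdSimplex.continuous_map _⟩

theorem coface_same {k : ℕ} (i : Fin (k + 2)) (x : Sx k) : coface i x i = 0 := by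
  show FunOnFinite.linearMap ℝ ℝ i.succAbove x i = 0
  rw [FunOnFinite.linearMap_apply_apply]
  exact Finset.sum_eq_zero fun j hj => absurd (Finset.mem_filter.1 hj).2 (Fin.succAbove_ne i j)

theorem coface_succAbove {k : ℕ} (i : Fin (k + 2)) (x : Sx k) (j : Fin (k + 1)) :
    coface i x (i.succAbove j) = x j := by
  show FunOnFinite.linearMap ℝ ℝ i.succAbove x (i.succAbove j) = x j
  rw [FunOnFinite.linearMap_apply_apply]
  simp [Finset.filter_eq']

/-- The quotient map from the cylinder onto the cone. -/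
noncomputable def cyl (k : ℕ) : C(unitInterval × Sx k, Sx (k + 1)) where
  toFun p := ⟨Fin.cons (p.1 : ℝ) fun j => (1 - p.1) * p.2 j, by
    refine ⟨Fin.cases p.1.2.1 fun j => mul_nonneg (sub_nonneg.2 p.1.2.2) (stdSimplex.zero_le p.2 j), ?_⟩
    simp [Fin.sum_univ_succ (n := k + 1), ← Finset.mul_sum]⟩
  continuous_toFun := by
    refine Continuous.subtype_mk (continuous_pi fun j => ?_) _
    refine Fin.cases ?_ (fun j => ?_) j
    · simp only [Fin.cons_zero]; fun_prop
    · simp only [Fin.cons_succ]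
      exact (continuous_const.sub (continuous_subtype_val.comp continuous_fst)).mul
        ((continuous_apply j).comp (continuous_subtype_val.comp continuous_snd))

theorem cyl_zero {k : ℕ} (s : unitInterval) (y : Sx k) : cyl k (s, y) 0 = s := rfl

theorem cyl_succ {k : ℕ} (s : unitInterval) (y : Sx k) (j : Fin (k + 1)) :
    cyl k (s, y) j.succ = (1 - s) * y j := rfl

theorem cyl_surj (k : ℕ) : Function.Surjective (cyl k) := by
  intro x
  have hs : x 0 + ∑ j : Fin (k + 1), x j.succ = 1 := by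
    rw [← Fin.sum_univ_succ]; exact stdSimplex.sum_eq_one x
  by_cases h : x 0 = 1
  · refine ⟨(1, Classical.arbitrary _), stdSimplex.ext (funext fun j => ?_)⟩
    refine Fin.cases ?_ (fun j => ?_) j
    · rw [cyl_zero, h]; rfl
    · rw [cyl_succ]
      have h0 : ∑ j : Fin (k + 1), x j.succ = 0 := by linarith
      rw [(Finset.sum_eq_zero_iff_of_nonneg fun j _ => stdSimplex.zero_le x _).1 h0 j (Finset.mem_univ _)]
      simp
  · have h1 : 0 < 1 - x 0 := sub_pos.2 (lt_of_le_of_ne (stdSimplex.le_one x 0) h)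
    refine ⟨(⟨x 0, stdSimplex.zero_le x 0, stdSimplex.le_one x 0⟩, ⟨fun j => x j.succ / (1 - x 0),
      fun j => div_nonneg (stdSimplex.zero_le x _) h1.le, ?_⟩), stdSimplex.ext (funext fun j => ?_)⟩
    · rw [← Finset.sum_div, div_eq_one_iff_eq h1.ne']; linarith
    · refine Fin.cases rfl (fun j => ?_) j
      rw [cyl_succ]
      exact mul_div_cancel₀ _ h1.ne'

theorem cyl_quot (k : ℕ) : Topology.IsQuotientMap (cyl k) :=
  IsClosedMap.isQuotientMap (cyl k).continuous.isClosedMap (cyl k).continuous (cyl_surj k)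

theorem cyl_eq {k : ℕ} {p q : unitInterval × Sx k} (h : cyl k p = cyl k q) :
    p = q ∨ (p.1 = 1 ∧ q.1 = 1) := by
  obtain ⟨s, y⟩ := p
  obtain ⟨t, z⟩ := q
  obtain rfl : s = t := Subtype.ext (congrArg (fun x : Sx (k + 1) => x 0) h)
  by_cases h1 : s = 1
  · exact Or.inr ⟨h1, h1⟩
  · refine Or.inl (Prod.ext rfl (stdSimplex.ext (funext fun j => ?_)))
    have h2 : (1 - s : ℝ) ≠ 0 := fun h3 => h1 (Subtype.ext (sub_eq_zero.1 h3).symm)
    exact mul_left_cancel₀ h2 (congrArg (fun x : Sx (k + 1) => x j.succ) h)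

theorem coface_zero_eq {k : ℕ} (y : Sx k) : coface 0 y = cyl k (0, y) := by
  refine stdSimplex.ext (funext fun j => ?_)
  refine Fin.cases ?_ (fun j => ?_) j
  · rw [coface_same, cyl_zero]; rfl
  · rw [cyl_succ, ← Fin.succAbove_zero_apply, coface_succAbove]; simp

theorem coface_succ_cyl {k : ℕ} (i : Fin (k + 2)) (s : unitInterval) (y : Sx k) :
    coface i.succ (cyl k (s, y)) = cyl (k + 1) (s, coface i y) := by
  refine stdSimplex.ext (funext fun j => ?_)
  refine Fin.cases ?_ (fun j => ?_) j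
  · rw [cyl_zero, ← Fin.succ_succAbove_zero i, coface_succAbove, cyl_zero]
  · rw [cyl_succ]
    refine Fin.succAboveCases i ?_ (fun j => ?_) j
    · rw [coface_same, coface_same, mul_zero]
    · rw [← Fin.succ_succAbove_succ, coface_succAbove, coface_succAbove, cyl_succ]

theorem coface_one_eq (y : Sx 0) : coface (1 : Fin 2) y = cyl 0 (1, y) := by
  refine stdSimplex.ext (funext fun j => ?_)
  refine Fin.cases ?_ (fun j => ?_) j
  · rw [cyl_zero]
    exact (coface_succAbove (1 : Fin 2) y 0).trans (stdSimplex.eq_one_of_unique (X := Fin 1) y 0)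
  · rw [cyl_succ, Subsingleton.elim j 0]
    exact (coface_same (1 : Fin 2) y).trans (by simp)

variable (R : Type) [Ring R] {X Y : Type} [TopologicalSpace X] [TopologicalSpace Y]
  {f : C(X, Y)} {y₀ : Y}

theorem cone_factors (H : f.Homotopy (ContinuousMap.const X y₀)) {k : ℕ} (σ : Sing X k) :
    Function.FactorsThrough
      (H.toContinuousMap.comp ((ContinuousMap.id unitInterval).prodMap σ)) (cyl k) := by
  intro p q h
  rcases cyl_eq h with rfl | ⟨h1, h2⟩
  · rfl
  · show H (p.1, σ p.2) = H (q.1, σ q.2)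
    rw [h1, h2, H.apply_one, H.apply_one]
    rfl

/-- The cone over a singular simplex along a null-homotopy. -/
noncomputable def coneS (H : f.Homotopy (ContinuousMap.const X y₀)) {k : ℕ} (σ : Sing X k) :
    Sing Y (k + 1) :=
  (cyl_quot k).lift _ (cone_factors H σ)

theorem coneS_cyl (H : f.Homotopy (ContinuousMap.const X y₀)) {k : ℕ} (σ : Sing X k)
    (s : unitInterval) (y : Sx k) : coneS H σ (cyl k (s, y)) = H (s, σ y) :=
  congrArg (fun g : C(unitInterval × Sx k, Y) => g (s, y))
    ((cyl_quot k).lift_comp _ (cone_factors H σ))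

theorem face_zero_coneS (H : f.Homotopy (ContinuousMap.const X y₀)) {k : ℕ} (σ : Sing X k) :
    face 0 (coneS H σ) = f.comp σ := by
  ext y
  show coneS H σ (coface 0 y) = f (σ y)
  rw [coface_zero_eq, coneS_cyl, H.apply_zero]

theorem face_succ_coneS (H : f.Homotopy (ContinuousMap.const X y₀)) {k : ℕ} (σ : Sing X (k + 1))
    (i : Fin (k + 2)) : face i.succ (coneS H σ) = coneS H (face i σ) := by
  ext x
  obtain ⟨⟨s, y⟩, rfl⟩ := cyl_surj k x
  show coneS H σ (coface i.succ (cyl k (s, y))) = _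
  rw [coface_succ_cyl, coneS_cyl, coneS_cyl]
  rfl

theorem face_one_coneS (H : f.Homotopy (ContinuousMap.const X y₀)) (σ : Sing X 0) :
    face (1 : Fin 2) (coneS H σ) = ContinuousMap.const _ y₀ := by
  ext y
  show coneS H σ (coface 1 y) = y₀
  rw [coface_one_eq, coneS_cyl, H.apply_one]
  rfl

/-- The cone operator on chains. -/
noncomputable def cone (H : f.Homotopy (ContinuousMap.const X y₀)) (k : ℕ) :
    (Sing X k →₀ R) →ₗ[R] (Sing Y (k + 1) →₀ R) := lmapDomain R R (coneS H)

theorem cone_single (H : f.Homotopy (ContinuousMap.const X y₀)) (k : ℕ) (σ : Sing X k) (a : R) :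
    cone R H k (single σ a) = single (coneS H σ) a := by
  simp only [cone, lmapDomain_apply, mapDomain_single]

theorem bd_cone_succ (H : f.Homotopy (ContinuousMap.const X y₀)) (k : ℕ)
    (c : Sing X (k + 1) →₀ R) :
    bd R Y (k + 1) (cone R H (k + 1) c) = push R f (k + 1) c - cone R H k (bd R X k c) := by
  induction c using Finsupp.induction_linear with
  | zero => simp
  | add a b ha hb => simp only [map_add, ha, hb]; abel
  | single σ a =>
    rw [cone_single, bd_single, bd_single, push_single, Fin.sum_univ_succ, face_zero_coneS, map_sum,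
      sub_eq_add_neg, ← Finset.sum_neg_distrib]
    simp only [face_succ_coneS, map_zsmul, cone_single, Fin.val_zero, pow_zero, one_smul,
      Fin.val_succ, pow_succ, mul_neg, mul_one, neg_smul]

theorem bd_cone_zero (H : f.Homotopy (ContinuousMap.const X y₀)) (c : Sing X 0 →₀ R) :
    bd R Y 0 (cone R H 0 c) =
      push R f 0 c - single (ContinuousMap.const _ y₀) (aug R X c) := by
  induction c using Finsupp.induction_linear with
  | zero => simp
  | add a b ha hb => simp only [map_add, ha, hb, single_add]; abel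
  | single σ a =>
    rw [cone_single, bd_single, push_single, aug_single, Fin.sum_univ_two, face_zero_coneS,
      face_one_coneS]
    simp [sub_eq_add_neg]

variable {R} in
theorem cone_mem_supp (H : f.Homotopy (ContinuousMap.const X y₀)) {A : Set X} {B : Set Y}
    (hAB : ∀ s, ∀ x ∈ A, H (s, x) ∈ B) {k : ℕ} {c : Sing X k →₀ R} (h : c ∈ supp R A k) :
    cone R H k c ∈ supp R B (k + 1) := by
  refine supp_induction (P := fun c => cone R H k c ∈ supp R B (k + 1)) (by simp)
    (fun a b ha hb => by simpa using add_mem ha hb) (fun σ a hσ => ?_) h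
  rw [cone_single]
  refine single_mem_supp a fun t => ?_
  obtain ⟨⟨s, y⟩, rfl⟩ := cyl_surj k t
  rw [coneS_cyl]
  exact hAB s _ (hσ y)

end Cone

section Subdiv


open Finsupp

variable (R : Type) [Ring R] {X Y : Type} [TopologicalSpace X] [TopologicalSpace Y]

variable (X) in
/-- The natural operator on chains defined by a universal chain on the standard simplex. -/
noncomputable def ev {k l : ℕ} (m : Sing (Sx k) l →₀ R) :
    (Sing X k →₀ R) →ₗ[R] (Sing X l →₀ R) :=
  linearCombination R fun σ : Sing X k => push R σ l m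

theorem ev_single {k l : ℕ} (m : Sing (Sx k) l →₀ R) (σ : Sing X k) (a : R) :
    ev R X m (single σ a) = a • push R σ l m := linearCombination_single ..

theorem push_ev (f : C(X, Y)) {k l : ℕ} (m : Sing (Sx k) l →₀ R) (c : Sing X k →₀ R) :
    push R f l (ev R X m c) = ev R Y m (push R f k c) := by
  induction c using Finsupp.induction_linear with
  | zero => simp
  | add a b ha hb => simp only [map_add, ha, hb]
  | single σ a => rw [push_single, ev_single, ev_single, map_smul, push_push]

variable {R} in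
theorem ev_mem_supp {k l : ℕ} (m : Sing (Sx k) l →₀ R) {A : Set X} {c : Sing X k →₀ R}
    (h : c ∈ supp R A k) : ev R X m c ∈ supp R A l := by
  refine supp_induction (P := fun c => ev R X m c ∈ supp R A l) (by simp)
    (fun a b ha hb => by simpa using add_mem ha hb) (fun σ a hσ => ?_) h
  rw [ev_single]
  exact Submodule.smul_mem _ _ (push_mem_supp σ (fun t _ => hσ t) (mem_supp_univ m))

/-- The fundamental chain of the standard simplex. -/
noncomputable def iota (k : ℕ) : Sing (Sx k) k →₀ R := single (ContinuousMap.id _) 1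

theorem push_iota {k : ℕ} (σ : Sing X k) : push R σ k (iota R k) = single σ 1 :=
  push_single R σ k _ 1

theorem ev_iota {k : ℕ} (c : Sing X k →₀ R) : ev R X (iota R k) c = c := by
  induction c using Finsupp.induction_linear with
  | zero => simp
  | add a b ha hb => simp only [map_add, ha, hb]
  | single σ a => rw [ev_single, push_iota, smul_single, smul_eq_mul, mul_one]

theorem ev_apply_iota {k l : ℕ} (m : Sing (Sx k) l →₀ R) : ev R (Sx k) m (iota R k) = m := by
  rw [iota, ev_single, one_smul, push_id]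

/-- The straight-line contraction of the standard simplex to its barycentre. -/
noncomputable def bary (k : ℕ) :
    (ContinuousMap.id (Sx k)).Homotopy (ContinuousMap.const _ stdSimplex.barycenter) where
  toFun p := ⟨(1 - p.1 : ℝ) • p.2.1 + (p.1 : ℝ) • (stdSimplex.barycenter : Sx k).1,
    convex_stdSimplex ℝ _ p.2.2 (stdSimplex.barycenter : Sx k).2 (sub_nonneg.2 p.1.2.2) p.1.2.1
      (sub_add_cancel _ _)⟩
  continuous_toFun := Continuous.subtype_mk (by fun_prop) _
  map_zero_left x := Subtype.ext (by simp)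
  map_one_left x := Subtype.ext (by simp)

/-- The subdivision of the standard simplex. -/
noncomputable def sdU : (k : ℕ) → (Sing (Sx k) k →₀ R)
  | 0 => iota R 0
  | k + 1 => cone R (bary (k + 1)) k (ev R _ (sdU k) (bd R _ k (iota R (k + 1))))

/-- The universal chain homotopy. -/
noncomputable def sdHU : (k : ℕ) → (Sing (Sx k) (k + 1) →₀ R)
  | 0 => 0
  | k + 1 => cone R (bary (k + 1)) (k + 1)
      (iota R (k + 1) - sdU R (k + 1) - ev R _ (sdHU k) (bd R _ k (iota R (k + 1))))

variable (X) in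
/-- Barycentric subdivision. -/
noncomputable def sdR (k : ℕ) : (Sing X k →₀ R) →ₗ[R] (Sing X k →₀ R) := ev R X (sdU R k)

variable (X) in
/-- The chain homotopy between the identity and the subdivision. -/
noncomputable def sdHR (k : ℕ) : (Sing X k →₀ R) →ₗ[R] (Sing X (k + 1) →₀ R) := ev R X (sdHU R k)

theorem sdR_zero (c : Sing X 0 →₀ R) : sdR R X 0 c = c := ev_iota R c

theorem sdHR_zero (c : Sing X 0 →₀ R) : sdHR R X 0 c = 0 := by
  induction c using Finsupp.induction_linear with
  | zero => simp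
  | add a b ha hb => simp only [map_add, ha, hb, add_zero]
  | single σ a => rw [sdHR, ev_single, sdHU, map_zero, smul_zero]

theorem push_sdR (f : C(X, Y)) (k : ℕ) (c : Sing X k →₀ R) :
    push R f k (sdR R X k c) = sdR R Y k (push R f k c) := push_ev R f _ c

theorem push_sdHR (f : C(X, Y)) (k : ℕ) (c : Sing X k →₀ R) :
    push R f (k + 1) (sdHR R X k c) = sdHR R Y k (push R f k c) := push_ev R f _ c

theorem bd_sdR_of {k : ℕ}
    (h : bd R _ k (sdU R (k + 1)) = sdR R _ k (bd R _ k (iota R (k + 1))))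
    (c : Sing X (k + 1) →₀ R) : bd R X k (sdR R X (k + 1) c) = sdR R X k (bd R X k c) := by
  induction c using Finsupp.induction_linear with
  | zero => simp
  | add a b ha hb => simp only [map_add, ha, hb]
  | single σ a =>
    rw [sdR, ev_single, map_smul, bd_push, h, push_sdR, ← bd_push, push_iota, ← map_smul,
      ← map_smul, smul_single, smul_eq_mul, mul_one]

theorem bd_sdU (k : ℕ) :
    bd R _ k (sdU R (k + 1)) = sdR R _ k (bd R _ k (iota R (k + 1))) := by
  induction k with
  | zero =>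
    rw [sdU, bd_cone_zero, push_id, sdU, ev_iota, aug_bd, single_zero, sub_zero, sdR_zero]
  | succ k ih =>
    rw [sdU, bd_cone_succ, push_id]
    have := bd_sdR_of R ih (bd R _ (k + 1) (iota R (k + 1 + 1)))
    rw [bd_bd, map_zero, sdR] at this
    rw [this, map_zero, sub_zero, sdR]

theorem bd_sdR (k : ℕ) (c : Sing X (k + 1) →₀ R) :
    bd R X k (sdR R X (k + 1) c) = sdR R X k (bd R X k c) := bd_sdR_of R (bd_sdU R k) c

theorem bd_sdHR_of {k : ℕ}
    (h : bd R _ (k + 1) (sdHU R (k + 1)) =
      iota R (k + 1) - sdU R (k + 1) - sdHR R _ k (bd R _ k (iota R (k + 1))))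
    (c : Sing X (k + 1) →₀ R) :
    bd R X (k + 1) (sdHR R X (k + 1) c) = c - sdR R X (k + 1) c - sdHR R X k (bd R X k c) := by
  induction c using Finsupp.induction_linear with
  | zero => simp
  | add a b ha hb => simp only [map_add, ha, hb]; abel
  | single σ a =>
    rw [sdHR, ev_single, map_smul, bd_push, h, map_sub, map_sub, push_sdHR, ← bd_push, push_iota,
      smul_sub, smul_sub, ← map_smul (sdHR R X k), ← map_smul (bd R X k), smul_single, smul_eq_mul,
      mul_one, sdR, ev_single]

theorem bd_sdHU (k : ℕ) : bd R _ (k + 1) (sdHU R (k + 1)) =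
    iota R (k + 1) - sdU R (k + 1) - sdHR R _ k (bd R _ k (iota R (k + 1))) := by
  induction k with
  | zero =>
    rw [sdHU, bd_cone_succ, push_id, ← sdHR, sdHR_zero, sub_zero, map_sub, bd_sdU, sdR_zero,
      sub_self, map_zero, sub_zero]
  | succ k ih =>
    rw [sdHU, bd_cone_succ, push_id, ← sdHR, map_sub (bd R _ _), map_sub (bd R _ _), bd_sdU,
      bd_sdHR_of R ih, bd_bd, map_zero, sub_zero, sub_self, map_zero, sub_zero]

theorem bd_sdHR (k : ℕ) (c : Sing X (k + 1) →₀ R) :
    bd R X (k + 1) (sdHR R X (k + 1) c) = c - sdR R X (k + 1) c - sdHR R X k (bd R X k c) :=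
  bd_sdHR_of R (bd_sdHU R k) c

variable {R} in
theorem sdR_mem_supp {A : Set X} {k : ℕ} {c : Sing X k →₀ R} (h : c ∈ supp R A k) :
    sdR R X k c ∈ supp R A k := ev_mem_supp _ h

variable {R} in
theorem sdHR_mem_supp {A : Set X} {k : ℕ} {c : Sing X k →₀ R} (h : c ∈ supp R A k) :
    sdHR R X k c ∈ supp R A (k + 1) := ev_mem_supp _ h

/-! ### Mesh -/

/-- An affine simplex with one coordinate bounded below by `δ`. -/
def Doeb (δ : ℝ) {n k : ℕ} (ρ : Sing (Sx n) k) : Prop :=
  (∃ L : (Fin (k + 1) → ℝ) →ₗ[ℝ] (Fin (n + 1) → ℝ), ∀ x : Sx k, (ρ x).1 = L x.1) ∧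
    ∃ j, ∀ x, δ ≤ ρ x j

theorem Doeb.coface {δ : ℝ} {n k : ℕ} {ρ : Sing (Sx n) k} (h : Doeb δ ρ) (i : Fin (n + 2)) :
    Doeb δ ((coface i).comp ρ) := by
  obtain ⟨⟨L, hL⟩, j, hj⟩ := h
  refine ⟨⟨FunOnFinite.linearMap ℝ ℝ i.succAbove ∘ₗ L, fun x => ?_⟩, i.succAbove j, fun x => ?_⟩
  · rw [LinearMap.comp_apply, ← hL]; rfl
  · rw [ContinuousMap.comp_apply, coface_succAbove]; exact hj x

theorem Doeb.cone {δ : ℝ} {n k : ℕ} {ρ : Sing (Sx n) k} (h : Doeb δ ρ)
    (hδ : ((n + 1 : ℕ) : ℝ)⁻¹ ≤ δ) : Doeb ((n + 1 : ℕ) : ℝ)⁻¹ (coneS (bary n) ρ) := by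
  obtain ⟨⟨L, hL⟩, j, hj⟩ := h
  refine ⟨⟨L ∘ₗ LinearMap.funLeft ℝ ℝ Fin.succ +
    (LinearMap.proj 0).smulRight (stdSimplex.barycenter : Sx n).1, fun x => ?_⟩, j, fun x => ?_⟩
  · obtain ⟨⟨s, y⟩, rfl⟩ := cyl_surj k x
    rw [coneS_cyl]
    show (1 - s : ℝ) • (ρ y).1 + (s : ℝ) • (stdSimplex.barycenter : Sx n).1 =
      L ((1 - s : ℝ) • y.1) + (s : ℝ) • (stdSimplex.barycenter : Sx n).1
    rw [map_smul, hL]
  · obtain ⟨⟨s, y⟩, rfl⟩ := cyl_surj k x
    rw [coneS_cyl]
    show _ ≤ (1 - s : ℝ) * ρ y j + (s : ℝ) * (Fintype.card (Fin (n + 1)) : ℝ)⁻¹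
    rw [Fintype.card_fin]
    nlinarith [mul_le_mul_of_nonneg_left (hδ.trans (hj y)) (sub_nonneg.2 s.2.2)]

/-- The `ℓ¹` distance on the standard simplex. -/
noncomputable def dOne {k : ℕ} (x y : Sx k) : ℝ := ∑ i, |x i - y i|

theorem dOne_nonneg {k : ℕ} (x y : Sx k) : 0 ≤ dOne x y :=
  Finset.sum_nonneg fun _ _ => abs_nonneg _

theorem dOne_le_two {k : ℕ} (x y : Sx k) : dOne x y ≤ 2 := by
  calc dOne x y ≤ ∑ i, (x i + y i) := Finset.sum_le_sum fun i _ => by
        have := stdSimplex.zero_le x i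
        have := stdSimplex.zero_le y i
        rw [abs_le]; constructor <;> linarith
    _ = 2 := by rw [Finset.sum_add_distrib, stdSimplex.sum_eq_one, stdSimplex.sum_eq_one]; norm_num

theorem dist_le_dOne {k : ℕ} (x y : Sx k) : dist x y ≤ dOne x y := by
  rw [Subtype.dist_eq]
  exact (dist_pi_le_iff (dOne_nonneg x y)).2 fun i =>
    Finset.single_le_sum (f := fun i => |x i - y i|) (fun _ _ => abs_nonneg _) (Finset.mem_univ i)

theorem Doeb.contract {δ : ℝ} {n k : ℕ} {ρ : Sing (Sx n) k} (h : Doeb δ ρ) (x y : Sx k) :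
    dOne (ρ x) (ρ y) ≤ (1 - δ) * dOne x y := by
  classical
  obtain ⟨⟨L, hL⟩, j, hj⟩ := h
  set w : Fin (k + 1) → Fin (n + 1) → ℝ :=
    fun i l => ρ (stdSimplex.vertex i) l - δ * (Pi.single j 1 : Fin (n + 1) → ℝ) l with hw
  have hw0 : ∀ i l, 0 ≤ w i l := fun i l => by
    by_cases hl : l = j
    · subst hl; simpa [hw] using hj _
    · simp [hw, Pi.single_eq_of_ne hl]
  have hw1 : ∀ i, ∑ l, w i l = 1 - δ := fun i => by
    simp [hw, Finset.sum_sub_distrib, ← Finset.mul_sum]
  have hx : ∀ (x : Sx k) l, ρ x l = ∑ i, x i * ρ (stdSimplex.vertex i) l := fun x l => by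
    show (ρ x).1 l = ∑ i, x.1 i * (ρ (stdSimplex.vertex i)).1 l
    simp only [hL]
    conv_lhs => rw [pi_eq_sum_univ' x.1, map_sum]
    simp
  have hd : ∀ l, ρ x l - ρ y l = ∑ i, (x i - y i) * w i l := fun l => by
    rw [hx x, hx y]
    simp only [hw, mul_sub, sub_mul, Finset.sum_sub_distrib, ← Finset.sum_mul,
      stdSimplex.sum_eq_one]
    ring
  calc dOne (ρ x) (ρ y) ≤ ∑ l, ∑ i, |x i - y i| * w i l := Finset.sum_le_sum fun l _ => by
        rw [hd]
        refine (Finset.abs_sum_le_sum_abs _ _).trans (Finset.sum_le_sum fun i _ => ?_)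
        rw [abs_mul, abs_of_nonneg (hw0 i l)]
    _ = (1 - δ) * dOne x y := by
        rw [Finset.sum_comm, dOne, Finset.mul_sum]
        exact Finset.sum_congr rfl fun i _ => by rw [← Finset.mul_sum, hw1, mul_comm]

variable {R} in
theorem map_supported {α β : Type} {S : Set α} {T : Submodule R (β →₀ R)}
    (F : (α →₀ R) →ₗ[R] (β →₀ R)) (h : ∀ a ∈ S, F (single a 1) ∈ T) {c : α →₀ R}
    (hc : c ∈ supported R R S) : F c ∈ T := by
  rw [supported_eq_span_single] at hc
  refine (Submodule.span_le (p := T.comap F)).2 ?_ hc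
  rintro _ ⟨a, ha, rfl⟩
  exact h a ha

theorem sdU_doeb (k : ℕ) : sdU R k ∈ supported R R {ρ | Doeb ((k + 1 : ℕ) : ℝ)⁻¹ ρ} := by
  induction k with
  | zero =>
    refine single_mem_supported R _ ⟨⟨LinearMap.id, fun _ => rfl⟩, 0, fun x => ?_⟩
    exact le_of_eq_of_le (by simp) (stdSimplex.eq_one_of_unique (X := Fin 1) x 0).ge
  | succ k ih =>
    rw [sdU, iota, bd_single, map_sum, map_sum]
    refine sum_mem fun i _ => ?_
    rw [map_zsmul, map_zsmul, ev_single, one_smul]
    refine zsmul_mem (map_supported (cone R (bary (k + 1)) k ∘ₗ push R _ k) (fun ρ hρ => ?_) ih) _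
    rw [LinearMap.comp_apply, push_single, cone_single]
    refine single_mem_supported R _ (Doeb.cone (Doeb.coface hρ i) ?_)
    exact inv_anti₀ (by positivity) (by norm_cast; omega)

theorem sdR_pow_single {k : ℕ} (σ : Sing X k) (m : ℕ) :
    (sdR R X k ^ m) (single σ 1) ∈ supported R R {τ | ∃ ρ : Sing (Sx k) k, τ = σ.comp ρ ∧
      ∀ x y, dOne (ρ x) (ρ y) ≤ (1 - ((k + 1 : ℕ) : ℝ)⁻¹) ^ m * dOne x y} := by
  induction m with
  | zero => exact single_mem_supported R _ ⟨ContinuousMap.id _, rfl, fun x y => by simp⟩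
  | succ m ih =>
    rw [pow_succ' (sdR R X k), Module.End.mul_apply]
    refine map_supported _ ?_ ih
    rintro _ ⟨ρ, rfl, hρ⟩
    rw [sdR, ev_single, one_smul]
    refine map_supported _ (fun ρ' hρ' => ?_) (sdU_doeb R k)
    rw [push_single]
    refine single_mem_supported R _ ⟨ρ.comp ρ', rfl, fun x y => (hρ _ _).trans ?_⟩
    rw [pow_succ, mul_assoc]
    refine mul_le_mul_of_nonneg_left (Doeb.contract hρ' x y) (pow_nonneg (sub_nonneg.2 ?_) _)
    exact inv_le_one_of_one_le₀ (by norm_cast; omega)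

variable {R}

/-- Small chains for any family of open sets. -/
theorem sdR_small {ι : Type} {U : ι → Set X} (hU : ∀ i, IsOpen (U i)) {k : ℕ} {c : Sing X k →₀ R}
    (h : c ∈ supp R (⋃ i, U i) k) :
    ∃ m : ℕ, ∀ m' ≥ m, (sdR R X k ^ m') c ∈ ⨆ i, supp R (U i) k := by
  refine supp_induction (P := fun c => ∃ m : ℕ, ∀ m' ≥ m, (sdR R X k ^ m') c ∈ ⨆ i, supp R (U i) k)
    ⟨0, fun _ _ => by simp⟩ ?_ (fun σ a hσ => ?_) h
  · rintro a b ⟨m, hm⟩ ⟨n, hn⟩
    refine ⟨max m n, fun m' h' => ?_⟩
    rw [map_add]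
    exact add_mem (hm _ (le_of_max_le_left h')) (hn _ (le_of_max_le_right h'))
  obtain ⟨ε, hε, hL⟩ := lebesgue_number_lemma_of_metric (isCompact_univ (X := Sx k))
    (c := fun i => σ ⁻¹' U i) (fun i => (hU i).preimage σ.continuous)
    fun t _ => by simpa using hσ t
  have h0 : (0 : ℝ) ≤ 1 - ((k + 1 : ℕ) : ℝ)⁻¹ :=
    sub_nonneg.2 (inv_le_one_of_one_le₀ (by norm_cast; omega))
  have h1 : 1 - ((k + 1 : ℕ) : ℝ)⁻¹ < 1 := sub_lt_self _ (by positivity)
  obtain ⟨m, hm⟩ := exists_pow_lt_of_lt_one (half_pos hε) h1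
  refine ⟨m, fun m' h' => ?_⟩
  rw [← mul_one a, ← smul_eq_mul, ← smul_single, map_smul]
  refine Submodule.smul_mem _ _ (map_supported LinearMap.id ?_ (sdR_pow_single R σ m'))
  rintro _ ⟨ρ, rfl, hρ⟩
  obtain ⟨i, hi⟩ := hL (ρ (Classical.arbitrary _)) trivial
  refine Submodule.mem_iSup_of_mem i (single_mem_supp _ fun t => hi ?_)
  have h2 := (pow_le_pow_of_le_one h0 h1.le h').trans_lt hm
  have h3 := mul_le_mul_of_nonneg_left (dOne_le_two t (Classical.arbitrary _)) (pow_nonneg h0 m')
  exact (dist_le_dOne _ _).trans_lt ((hρ _ _).trans_lt (by linarith))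

theorem sdR_small_two {U V : Set X} (hU : IsOpen U) (hV : IsOpen V) {k : ℕ} {c : Sing X k →₀ R}
    (h : c ∈ supp R (U ∪ V) k) :
    ∃ m : ℕ, ∀ m' ≥ m, (sdR R X k ^ m') c ∈ supp R U k ⊔ supp R V k := by
  obtain ⟨m, hm⟩ := sdR_small (U := fun b : Bool => cond b U V) (by rintro (_ | _) <;> assumption)
    (by rwa [← Set.union_eq_iUnion])
  refine ⟨m, fun m' h' => ?_⟩
  have := hm m' h'
  rwa [iSup_bool_eq] at this

/-- A chain in a directed union of open sets lies in one of them. -/
theorem exists_supp_of_directed {ι : Type} [Nonempty ι] {U : ι → Set X} (hU : ∀ i, IsOpen (U i))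
    (hd : Directed (· ⊆ ·) U) {k : ℕ} {c : Sing X k →₀ R} (h : c ∈ supp R (⋃ i, U i) k) :
    ∃ i, c ∈ supp R (U i) k := by
  obtain ⟨K, hK, hKU, hc⟩ := exists_compact_supp h
  obtain ⟨i, hi⟩ := hK.elim_directed_cover U hU hKU hd
  exact ⟨i, supp_mono hi k hc⟩

/-! ### Iterated subdivision and the small-chain lemma -/

variable (R X) in
/-- The chain homotopy between the identity and the `m`-fold subdivision. -/
noncomputable def sdHPow (m k : ℕ) : (Sing X k →₀ R) →ₗ[R] (Sing X (k + 1) →₀ R) :=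
  ∑ j ∈ Finset.range m, sdHR R X k ∘ₗ (sdR R X k ^ j)

theorem bd_sdR_pow (m k : ℕ) (c : Sing X (k + 1) →₀ R) :
    bd R X k ((sdR R X (k + 1) ^ m) c) = (sdR R X k ^ m) (bd R X k c) := by
  induction m with
  | zero => rfl
  | succ m ih => rw [pow_succ', pow_succ', Module.End.mul_apply, Module.End.mul_apply, bd_sdR, ih]

theorem bd_sdHPow (m k : ℕ) (c : Sing X (k + 1) →₀ R) :
    bd R X (k + 1) (sdHPow R X m (k + 1) c) =
      c - (sdR R X (k + 1) ^ m) c - sdHPow R X m k (bd R X k c) := by
  induction m with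
  | zero => simp [sdHPow]
  | succ m ih =>
    simp only [sdHPow, Finset.sum_range_succ, LinearMap.add_apply, map_add, LinearMap.comp_apply]
      at ih ⊢
    rw [ih, bd_sdHR, bd_sdR_pow, pow_succ', Module.End.mul_apply]
    abel

theorem sdR_pow_mem_supp {A : Set X} (m : ℕ) {k : ℕ} {c : Sing X k →₀ R} (h : c ∈ supp R A k) :
    (sdR R X k ^ m) c ∈ supp R A k := by
  induction m with
  | zero => exact h
  | succ m ih => rw [pow_succ', Module.End.mul_apply]; exact sdR_mem_supp ih

theorem sdHPow_mem_supp {A : Set X} (m : ℕ) {k : ℕ} {c : Sing X k →₀ R} (h : c ∈ supp R A k) :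
    sdHPow R X m k c ∈ supp R A (k + 1) := by
  rw [sdHPow, LinearMap.sum_apply]
  exact sum_mem fun j _ => sdHR_mem_supp (sdR_pow_mem_supp j h)

/-- A chain in `A ∪ B` with small boundary is homologous to a small chain. -/
theorem small_chainR {A B : Set X} (hA : IsOpen A) (hB : IsOpen B) (k : ℕ)
    (c : Sing X (k + 1) →₀ R) (hc : c ∈ supp R (A ∪ B) (k + 1))
    (hd : bd R X k c ∈ supp R A k ⊔ supp R B k) :
    ∃ h ∈ supp R (A ∪ B) (k + 2),
      c - bd R X (k + 1) h ∈ supp R A (k + 1) ⊔ supp R B (k + 1) := by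
  obtain ⟨m, hm⟩ := sdR_small_two hA hB hc
  refine ⟨_, sdHPow_mem_supp m hc, ?_⟩
  rw [bd_sdHPow, sub_sub, sub_sub_cancel]
  refine add_mem (hm m le_rfl) ?_
  obtain ⟨a, ha, b, hb, hab⟩ := Submodule.mem_sup.1 hd
  rw [← hab, map_add]
  exact Submodule.add_mem_sup (sdHPow_mem_supp m ha) (sdHPow_mem_supp m hb)

end Subdiv

end Pool.Agent.MP_bc14e1_gt
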