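import Mathlib

/-! Definitions used in the statement. -/

open Set Metric
open scoped Manifold ContDiff

namespace Pool.Agent.MP_bc14e1_gt

/-- Euclidean space. -/
abbrev E (n : ℕ) : Type := EuclideanSpace ℝ (Fin n)

/-! ### Singular chains -/

/-- Singular `k`-simplices of `X`. -/
abbrev Sing (X : Type) [TopologicalSpace X] (k : ℕ) : Type :=
  ContinuousMap (stdSimplex ℝ (Fin (k + 1))) X

/-- The `i`-th face of a singular simplex. -/
noncomputable def face {X : Type} [TopologicalSpace X] {k : ℕ} (i : Fin (k + 2))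
    (σ : Sing X (k + 1)) : Sing X k :=
  σ.comp ⟨stdSimplex.map i.succAbove, stdSimplex.continuous_map _⟩

/-- The boundary map of singular chains with coefficients in `R`: the alternating sum of faces. -/
noncomputable def bd (R : Type) [Ring R] (X : Type) [TopologicalSpace X] (k : ℕ) :
    (Sing X (k + 1) →₀ R) →ₗ[R] (Sing X k →₀ R) :=
  ∑ i : Fin (k + 2), (-1 : ℤ) ^ (i : ℕ) • Finsupp.lmapDomain R R (face i)

/-- Push-forward of singular chains. -/
noncomputable def push (R : Type) [Ring R] {X Y : Type} [TopologicalSpace X] [TopologicalSpace Y]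
    (f : C(X, Y)) (k : ℕ) : (Sing X k →₀ R) →ₗ[R] (Sing Y k →₀ R) :=
  Finsupp.lmapDomain R R fun σ => f.comp σ

/-- Chains all of whose simplices lie in `A`. -/
def supp (R : Type) [Ring R] {X : Type} [TopologicalSpace X] (A : Set X) (k : ℕ) :
    Submodule R (Sing X k →₀ R) :=
  Finsupp.supported R R {σ | Set.range σ ⊆ A}

/-- The integral `k`-chain `c` is zero in `H_k(A, B)`: it is the boundary of a chain in `A` plus a
chain in `B`. -/
def Null {X : Type} [TopologicalSpace X] (A B : Set X) (k : ℕ) (c : Sing X k →₀ ℤ) : Prop :=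
  ∃ b ∈ supp ℤ A (k + 1), c - bd ℤ X k b ∈ supp ℤ B k

/-- The `4`-simplex of `X × Y` given by two `2`-simplices and two vertex maps. -/
noncomputable def shuf {X Y : Type} [TopologicalSpace X] [TopologicalSpace Y] (σ : Sing X 2)
    (τ : Sing Y 2) (p q : Fin 5 → Fin 3) : Sing (X × Y) 4 →₀ ℤ :=
  Finsupp.single ((σ.comp ⟨stdSimplex.map p, stdSimplex.continuous_map _⟩).prodMk
    (τ.comp ⟨stdSimplex.map q, stdSimplex.continuous_map _⟩)) 1

/-- The Eilenberg-Zilber shuffle product of two `2`-chains: the signed sum over the six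
`(2,2)`-shuffles. -/
noncomputable def cross22 {X Y : Type} [TopologicalSpace X] [TopologicalSpace Y]
    (x : Sing X 2 →₀ ℤ) (y : Sing Y 2 →₀ ℤ) : Sing (X × Y) 4 →₀ ℤ :=
  x.sum fun σ a => y.sum fun τ b => (a * b) •
    (shuf σ τ ![0, 1, 2, 2, 2] ![0, 0, 0, 1, 2] - shuf σ τ ![0, 1, 1, 2, 2] ![0, 0, 1, 1, 2]
      + shuf σ τ ![0, 1, 1, 1, 2] ![0, 0, 1, 2, 2] + shuf σ τ ![0, 0, 1, 2, 2] ![0, 1, 1, 1, 2]
      - shuf σ τ ![0, 0, 1, 1, 2] ![0, 1, 1, 2, 2] + shuf σ τ ![0, 0, 0, 1, 2] ![0, 1, 2, 2, 2])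

/-- An orientation of a `4`-manifold: a generator `o p` of the infinite cyclic group
`H_4(W, W - p)` for every point `p`, such that near every point the generators are the
restrictions of one relative cycle. -/
structure Orientation4 (W : Type) [TopologicalSpace W] where
  o : W → (Sing W 4 →₀ ℤ)
  rel : ∀ p, bd ℤ W 3 (o p) ∈ supp ℤ {p}ᶜ 3
  gen : ∀ p (c : Sing W 4 →₀ ℤ), bd ℤ W 3 c ∈ supp ℤ {p}ᶜ 3 →
    ∃! n : ℤ, Null univ {p}ᶜ 4 (c - n • o p)
  loc : ∀ p, ∃ U ∈ nhds p, ∃ w : Sing W 4 →₀ ℤ, bd ℤ W 3 w ∈ supp ℤ Uᶜ 3 ∧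
    ∀ q ∈ U, Null univ {q}ᶜ 4 (w - o q)

/-- The intersection number of the `2`-cycles `x` and `y` is `n`: in `H_4(W × W, W × W - Δ)` the
class of `x × y` is `n` times the class of the fibre `W × p` with its orientation at `p`. -/
def InterNum {W : Type} [TopologicalSpace W] (o : Orientation4 W) (x y : Sing W 2 →₀ ℤ) (n : ℤ) :
    Prop :=
  ∃ p : W, Null univ {z : W × W | z.1 ≠ z.2} 4
    (cross22 x y - n • push ℤ ((ContinuousMap.id W).prodMk (ContinuousMap.const W p)) 4 (o.o p))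

/-! ### Knots -/

/-- A long knot: a smooth embedding of the line in `ℝ³` that is the first coordinate axis outside
the ball of radius `R`. -/
structure LongKnot where
  f : ℝ → E 3
  R : ℝ
  pos : 0 < R
  smooth : ContDiff ℝ ∞ f
  inj : Function.Injective f
  imm : ∀ t, deriv f t ≠ 0
  far : ∀ t, R ≤ |t| → f t = EuclideanSpace.single 0 t
  near : ∀ t, |t| < R → ‖f t‖ < R

/-- The connected sum of two long knots: the first is moved to the left of the origin, the second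
to the right. -/
noncomputable def sumCurve (K L : LongKnot) (t : ℝ) : E 3 :=
  if t ≤ 0 then K.f (t + K.R) - EuclideanSpace.single 0 K.R
  else L.f (t - L.R) + EuclideanSpace.single 0 L.R

/-- Inverse stereographic projection `ℝ³ → S³ ⊆ ℝ⁴` from the pole `(-1, 0, 0, 0)`. -/
noncomputable def stereoInv (w : E 3) : E 4 :=
  (1 + ‖w‖ ^ 2)⁻¹ • !₂[1 - ‖w‖ ^ 2, 2 * w 0, 2 * w 1, 2 * w 2]

/-- The knot in `S³` that closes up a long curve. -/
def closeUp (f : ℝ → E 3) : Set (E 4) := insert !₂[-1, 0, 0, 0] (range fun t => stereoInv (f t))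

section Discs

variable (A : Type) {B : Type} [NormedAddCommGroup A] [NormedSpace ℝ A] [NormedAddCommGroup B]
  [NormedSpace ℝ B]

/-- For `A = ℝ²`, `B = ℝ⁴`: `K ⊆ S³` is smoothly slice, that is, it bounds a smoothly and properly
embedded disc in `B⁴` that is transverse to the boundary sphere. -/
def Slc (K : Set B) : Prop :=
  ∃ d : A → B, (∀ x ∈ closedBall (0 : A) 1, ContDiffAt ℝ ∞ d x) ∧
    InjOn d (closedBall 0 1) ∧
    (∀ x ∈ closedBall (0 : A) 1, Function.Injective (fderiv ℝ d x)) ∧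
    (∀ x ∈ ball (0 : A) 1, ‖d x‖ < 1) ∧ d '' sphere 0 1 = K ∧
    ∀ u ∈ sphere (0 : A) 1, 0 < deriv (fun r : ℝ => ‖d (r • u)‖) 1

/-- `d` is a smooth embedding of the closed unit disc in `W` with boundary `c⁻¹ K`, with interior
outside the closed unit ball of the chart `c`, and transverse to its boundary sphere. -/
def NeatDisc {W : Type} [TopologicalSpace W] [ChartedSpace B W] (c : OpenPartialHomeomorph W B)
    (K : Set B) (d : A → W) : Prop :=
  (∀ x ∈ closedBall (0 : A) 1, ContMDiffAt 𝓘(ℝ, A) 𝓘(ℝ, B) ∞ d x) ∧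
    InjOn d (closedBall 0 1) ∧
    (∀ x ∈ closedBall (0 : A) 1, Function.Injective (mfderiv 𝓘(ℝ, A) 𝓘(ℝ, B) d x)) ∧
    (∀ x ∈ ball (0 : A) 1, d x ∉ c.symm '' closedBall 0 1) ∧
    d '' sphere 0 1 = c.symm '' K ∧
    ∀ u ∈ sphere (0 : A) 1, deriv (fun r : ℝ => ‖c (d (r • u))‖) 1 < 0

/-- The `2`-cycles `S i` lie in `V - D`, are a basis of `H_2(V; ℤ)` and have intersection
numbers `ε δ_ij`. -/
def SignBasis {W : Type} [TopologicalSpace W] (o : Orientation4 W) (ε : ℤ) (V D : Set W) {k : ℕ}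
    (S : Fin k → (Sing W 2 →₀ ℤ)) : Prop :=
  (∀ i, S i ∈ supp ℤ (V \ D) 2 ∧ bd ℤ W 1 (S i) = 0) ∧
    (∀ z ∈ supp ℤ V 2, bd ℤ W 1 z = 0 → ∃! n : Fin k → ℤ, Null V ∅ 2 (z - ∑ i, n i • S i)) ∧
    ∀ i j, InterNum o (S i) (S j) (if i = j then ε else 0)

/-- For `A = ℝ²`, `B = ℝ⁴`: `K ⊆ S³` is `0`-positive (`ε = 1`) or `0`-negative (`ε = -1`). The
`4`-manifold `V` with boundary `S³` is written as the complement of the open unit ball of a smooth
chart `c` in a closed smooth oriented `4`-manifold `W`. -/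
def ZeroSgn (ε : ℤ) (K : Set B) : Prop :=
  ∃ (W : Type) (_ : TopologicalSpace W) (_ : T2Space W) (_ : CompactSpace W)
    (_ : ChartedSpace B W) (_ : IsManifold 𝓘(ℝ, B) ∞ W) (o : Orientation4 W)
    (c : OpenPartialHomeomorph W B) (V : Set W) (d : A → W) (k : ℕ)
    (S : Fin k → (Sing W 2 →₀ ℤ)),
    c ∈ IsManifold.maximalAtlas 𝓘(ℝ, B) ∞ W ∧ closedBall 0 1 ⊆ c.target ∧
    V = (c.symm '' ball 0 1)ᶜ ∧ SimplyConnectedSpace V ∧ NeatDisc A c K d ∧
    SignBasis o ε V (d '' closedBall 0 1) S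

/-- An orientation reversing linear isometric involution maps `K` to itself without fixed points
on `K`. For a knot `K ⊆ S³` this says that `K` is strongly positive amphichiral. -/
def RevInv (K : Set B) : Prop :=
  ∃ ι : B ≃ₗᵢ[ℝ] B, (∀ x, ι (ι x) = x) ∧
    LinearMap.det (ι.toLinearEquiv : B →ₗ[ℝ] B) = -1 ∧ ι '' K = K ∧ ∀ x ∈ K, ι x ≠ x

end Discs

end Pool.Agent.MP_bc14e1_gt
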