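import Pool.Agent.MP_bc14e1_gt.Core2

/-! The structures used in the proof. -/

open Set Metric
open scoped Classical Manifold ContDiff

namespace Pool.Agent.MP_bc14e1_gt

noncomputable section

section Chains

variable (R : Type) [CommRing R] {X : Type} [TopologicalSpace X]

/-- Chains of degree `k` in `A`. -/
def CC (A : Set X) (k : ℕ) : Submodule R (Tot R X) := CH R A ⊓ DG R X k

/-- Cycles of degree `k` in `A`. -/
def ZC (A : Set X) (k : ℕ) : Submodule R (Tot R X) := CC R A k ⊓ LinearMap.ker (dT R X)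

/-- Boundaries of degree `k` in `A`. -/
def BC (A : Set X) (k : ℕ) : Submodule R (Tot R X) := (CC R A (k + 1)).map (dT R X)

/-- The second homology of `A` has dimension at most `n`. -/
def Dep0 (A : Set X) (n : ℕ) : Prop :=
  ∀ z : Fin (n + 1) → Tot R X, (∀ i, z i ∈ ZC R A 2) →
    ∃ a : Fin (n + 1) → R, a ≠ 0 ∧ ∑ i, a i • z i ∈ BC R A 2

/-- `A` contracts to `x` inside `A`. -/
def Ctr (A : Set X) (x : X) : Prop :=
  x ∈ A ∧ ∃ H : ℝ × X → X, ContinuousOn H (Icc 0 1 ×ˢ A) ∧ MapsTo H (Icc 0 1 ×ˢ A) A ∧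
    (∀ y ∈ A, H (0, y) = y) ∧ ∀ y ∈ A, H (1, y) = x

end Chains

/-! ### Flat surfaces and covers -/

section Cov

variable {X Y : Type} [TopologicalSpace X] [TopologicalSpace Y]

/-- A chart in which `F` is a coordinate plane. -/
def FlatCh (F : Set X) (e : OpenPartialHomeomorph X (ℂ × ℂ)) : Prop :=
  ∀ x ∈ e.source, x ∈ F ↔ (e x).2 = 0

structure Flat (F : Set X) : Prop where
  cl : IsClosed F
  ch : ∀ x ∈ F, ∃ e, FlatCh F e ∧ x ∈ e.source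

/-- The rotation loop in a chart. -/
def rotL (e : OpenPartialHomeomorph X (ℂ × ℂ)) (z w : ℂ) (θ : ℝ) : X :=
  e.symm (z, Complex.exp (2 * Real.pi * Complex.I * θ) * w)

/-- The rotation loop bounds a normal disc in the chart. -/
def Mer (F : Set X) (e : OpenPartialHomeomorph X (ℂ × ℂ)) (z w : ℂ) : Prop :=
  FlatCh F e ∧ w ≠ 0 ∧ ∀ w' : ℂ, ‖w'‖ ≤ ‖w‖ → (z, w') ∈ e.target

/-- Sets that contain the normal disc through each point. -/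
def DiscCl (B : Set (ℂ × ℂ)) : Prop := ∀ x ∈ B, ∀ w' : ℂ, ‖w'‖ ≤ ‖x.2‖ → (x.1, w') ∈ B

/-- Rotation invariant sets. -/
def RotInv (B : Set (ℂ × ℂ)) : Prop := ∀ x ∈ B, ∀ w' : ℂ, ‖w'‖ = ‖x.2‖ → (x.1, w') ∈ B

/-- A regular cover of the open set `Z` with group `G`. -/
structure GCov (G : Type) [Group G] [MulAction G Y] (Z : Set X) (p : Y → X) : Prop where
  cont : Continuous p
  inv : ∀ (g : G) (y : Y), p (g • y) = p y
  mem : ∀ y, p y ∈ Z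
  free : ∀ (g : G) (y : Y), g • y = y → g = 1
  trans : ∀ y y', p y = p y' → ∃ g : G, y' = g • y
  sec : ∀ x ∈ Z, ∃ U, IsOpen U ∧ x ∈ U ∧ U ⊆ Z ∧ ∃ σ : X → Y, ContinuousOn σ U ∧
    (∀ x ∈ U, p (σ x) = x) ∧ IsOpen (σ '' U)

variable {G : Type} [Group G] [MulAction G Y]

instance subCont [ContinuousConstSMul G Y] (H : Subgroup G) : ContinuousConstSMul H Y :=
  ⟨fun g => continuous_const_smul (g : G)⟩

/-- A cover of the complement of a flat surface in which a power of each meridian is the central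
element `s` or its inverse. -/
structure TC (F : Set X) (p : Y → X) (s : G) : Prop where
  flat : Flat F
  cov : GCov G Fᶜ p
  cen : ∀ g, g * s = s * g
  inf : ∀ n : ℤ, s ^ n = 1 → n = 0
  fin : (Subgroup.zpowers s).FiniteIndex
  rot : ∃ m : ℕ, ∀ e z w, Mer F e z w → ∀ γ : C(unitInterval, Y),
    (∀ θ : unitInterval, p (γ θ) = rotL e z w θ) →
    ∃ g : G, γ 1 = g • γ 0 ∧ (g ^ m = s ∨ g ^ m = s⁻¹)

/-- Closed invariant sets that are compact modulo `s`. -/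
def Cocpt (s : G) (K : Set Y) : Prop :=
  IsClosed K ∧ Inv s K ∧ ∃ L, IsCompact L ∧ K ⊆ ⋃ n : ℤ, (fun y => s ^ n • y) '' L

/-- The invariant second homology has rank at most `n`. -/
def Dep (R : Type) [CommRing R] (Y : Type) [TopologicalSpace Y] [MulAction G Y]
    [ContinuousConstSMul G Y] (s : G) (B : Set G) (n : ℕ) : Prop :=
  ∀ z : Fin (n + 1) → Tot R Y, (∀ i, z i ∈ ZC R univ 2 ∧ ∀ g ∈ B, gs R Y g (z i) = z i) →
    ∃ a : Fin (n + 1) → Lam R, a ≠ 0 ∧ ∃ b ∈ DG R Y 3, (∀ g ∈ B, gs R Y g b = b) ∧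
      ∑ i, act R Y s (a i) (z i) = dT R Y b

/-- The image of the homology of `A` in the homology of `B` is finitely generated. -/
def FGI (R : Type) [CommRing R] [ContinuousConstSMul G Y] (s : G) (A B : Set Y) (k : ℕ) : Prop :=
  ∃ (n : ℕ) (z : Fin n → Tot R Y), (∀ i, z i ∈ ZC R B k) ∧
    ∀ y ∈ ZC R A k, ∃ a : Fin n → Lam R, y - ∑ i, act R Y s (a i) (z i) ∈ BC R B k

/-- The infinite cyclic cover defined by the cocycle `φ`. -/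
structure Pack1 (F : Set X) (φ : Tot ℤ X →ₗ[ℤ] ℤ) (p : Y → X) (t : G) (l : Y → ℤ) : Prop where
  tc : TC F p t
  gen : ∀ g : G, ∃ n : ℤ, g = t ^ n
  lev : ∀ y, l (t • y) = l y + 1
  hol : ∀ c : Tot ℤ Y, φ (psh ℤ p c) = val0 ℤ l (dT ℤ Y c)
  conn : PathConnectedSpace Y

/-- The finite abelian cover of the infinite cyclic cover defined by the cocycle `α`. -/
structure Pack2 (F : Set X) (p : Y → X) (t : G) {A : Type} [AddCommGroup A] (τ : A ≃ₗ[ℤ] A) (m : ℕ)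
    (α : Tot ℤ Y →+ A) {Y' G' : Type} [TopologicalSpace Y'] [Group G'] [MulAction G' Y']
    (q : Y' → Y) (j : Multiplicative A →* G') (t' : G') (l : Y' → A) : Prop where
  tc : TC F (p ∘ q) (t' ^ m)
  cov : GCov j.range univ q
  jinj : Function.Injective j
  conj : ∀ a, t' * j (Multiplicative.ofAdd a) * t'⁻¹ = j (Multiplicative.ofAdd (τ a))
  gen : ∀ g, ∃ (a : A) (n : ℤ), g = j (Multiplicative.ofAdd a) * t' ^ n
  qt : ∀ y, q (t' • y) = t • q y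
  la : ∀ a y, l (j (Multiplicative.ofAdd a) • y) = a + l y
  lt : ∀ y, l (t' • y) = τ (l y)
  hol : ∀ c : Tot ℤ Y', α (psh ℤ q c) = val0 ℤ l (dT ℤ Y' c)

end Cov

/-! ### Thom cocycles and the intersection pairing -/

section Thom

variable {X Y : Type} [TopologicalSpace X] [TopologicalSpace Y]

/-- `f` preserves the orientation. -/
def OriPres (o : Orientation4 X) (f : X ≃ₜ X) : Prop :=
  ∀ x, Null univ {f x}ᶜ 4 (push ℤ (f : C(X, X)) 4 (o.o x) - o.o (f x))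

/-- The local degree at `y` of the chain `c` for the orientation pulled back along `q`. -/
def LocDeg (o : Orientation4 X) (q : Y → X) (y : Y) (c : Tot ℝ Y) (r : ℝ) : Prop :=
  ∃ U, IsOpen U ∧ y ∈ U ∧ InjOn q U ∧ c ∈ CC ℝ U 4 ∧ dT ℝ Y c ∈ CH ℝ (U \ {y}) ∧
    ∃ b, psh ℝ q c - r • castZ ℝ X (inc ℤ 4 (o.o (q y))) - dT ℝ X b ∈ CH ℝ {q y}ᶜ

def coevR (τ : TS X → ℝ) : Tot ℝ X →ₗ[ℝ] ℝ := Finsupp.linearCombination ℝ τ

def coevC (τ : TS X → ℝ) : Tot ℂ X →ₗ[ℂ] ℂ := Finsupp.linearCombination ℂ fun σ => (τ σ : ℂ)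

/-- A Thom cocycle of the diagonal. -/
structure IsThom (o : Orientation4 X) (q : Y → X) (τ : TS (Y × Y) → ℝ) : Prop where
  dg : ∀ σ, σ.1 ≠ 4 → τ σ = 0
  off : ∀ σ : TS (Y × Y), (∀ t, (σ.2 t).1 ≠ (σ.2 t).2) → τ σ = 0
  coc : ∀ c, coevR τ (dT ℝ _ c) = 0
  one : ∀ y c r, LocDeg o q y c r → coevR τ (psh ℝ (fun x => (x, y)) c) = r

/-- Invariance of a cochain under a map. -/
def ThomInv (τ : TS (Y × Y) → ℝ) (f : Y → Y) : Prop :=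
  ∀ c, coevR τ (psh ℝ (Prod.map f f) c) = coevR τ c

def sgc (k : ℕ) : ℤ := (-1) ^ (k * (k - 1) / 2 + 1)

/-- Sesquilinear forms on complex chains. -/
abbrev Form (Y : Type) [TopologicalSpace Y] : Type := Tot ℂ Y →ₗ[ℂ] Tot ℂ Y →ₗ⋆[ℂ] ℂ

/-- The intersection pairing of chains defined by a Thom cocycle. -/
def beta (κ : Kit) (τ : TS (Y × Y) → ℝ) : Form Y :=
  LinearMap.mk₂'ₛₗ (RingHom.id ℂ) (starRingEnd ℂ)
    (fun u v => coevC τ (κ.cx ℂ Y Y (sgn ℂ Y sgc u) (cjT Y v)))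
    (fun _ _ _ => by simp) (fun _ _ _ => by simp) (fun _ _ _ => by simp)
    (fun _ _ _ => by rw [LinearMap.map_smulₛₗ, map_smul, map_smul])

variable {G : Type} [Group G] [MulAction G Y]

/-- Invariant forms that vanish on chains with disjoint supports. -/
structure LK (s : G) (b : Form Y) : Prop where
  inv : ∀ u v, b (gs ℂ Y s u) (gs ℂ Y s v) = b u v
  loc : ∀ A B : Set Y, Disjoint A B → ∀ u ∈ CH ℂ A, ∀ v ∈ CH ℂ B, b u v = 0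

/-- The equivariant form with values in the Laurent polynomials. -/
def lamF (s : G) (b : Form Y) (u v : Tot ℂ Y) : Lam ℂ :=
  ∑ᶠ n : ℤ, LaurentPolynomial.T n * LaurentPolynomial.C (b u (gs ℂ Y (s ^ n) v))

/-- The properties of the intersection pairing. -/
structure Pair (o : Orientation4 X) (q : Y → X) (s : G) (b : Form Y) : Prop where
  lk : LK s b
  stokes : ∀ u v, b (dT ℂ Y u) v = b u (dT ℂ Y v)
  dg : ∀ k l, k + l ≠ 4 → ∀ u ∈ DG ℂ Y k, ∀ v ∈ DG ℂ Y l, b u v = 0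
  one : ∀ y c r, LocDeg o q y c r → b (cast Complex.ofRealHom Y c) (pt ℂ y) = -r
  real : ∀ u v, b (cjT Y u) (cjT Y v) = starRingEnd ℂ (b u v)
  sym : ∃ E₁ E₂, LK s E₁ ∧ LK s E₂ ∧ ∀ u ∈ DG ℂ Y 2, ∀ v ∈ DG ℂ Y 2,
    b u v - starRingEnd ℂ (b v u) = E₁ (dT ℂ Y u) v + E₂ u (dT ℂ Y v)

/-- Multiples of the Laurent polynomial `g`. -/
def Mul0 [ContinuousConstSMul G Y] (s : G) (g : Lam ℂ) : Submodule ℂ (Tot ℂ Y) :=
  LinearMap.range (act ℂ Y s g)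

end Thom

/-! ### The closed manifold -/

def shell : Set (E 4) := {x | 1 / 2 < ‖x‖ ∧ ‖x‖ < 1}

/-- The involution of the shell. -/
def invS (ι : E 4 ≃ₗᵢ[ℝ] E 4) (x : E 4) : E 4 := ((3 / 2 - ‖x‖) / ‖x‖) • ι x

/-- The complement of the cone over `K` in the shell. -/
def shellO (K : Set (E 4)) : Set (E 4) := {x | x ∈ shell ∧ ‖x‖⁻¹ • x ∉ K}

/-- The double of a definite manifold along the involution `ι`, with the sphere `F`. -/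
structure Geo (κ : Kit) (K : Set (E 4)) (ι : E 4 ≃ₗᵢ[ℝ] E 4) where
  X : Type
  [top : TopologicalSpace X]
  [t2 : T2Space X]
  [cpt : CompactSpace X]
  [ch : ChartedSpace (E 4) X]
  [mf : IsManifold (𝓡 4) ∞ X]
  o : Orientation4 X
  F : Set X
  flat : Flat F
  I : X ≃ₜ X
  II : ∀ x, I (I x) = x
  IF : ∀ x, I x ∈ F ↔ x ∈ F
  Io : OriPres o I
  h : X → ℝ
  hc : Continuous h
  hI : ∀ x, h (I x) = -h x
  emb : OpenPartialHomeomorph (E 4) X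
  src : emb.source = shell
  tgt : emb.target = h ⁻¹' Ioo (-1) 1
  h_emb : ∀ x ∈ shell, h (emb x) = 3 - 4 * ‖x‖
  F_emb : ∀ x ∈ shell, emb x ∈ F ↔ ‖x‖⁻¹ • x ∈ K
  I_emb : ∀ x ∈ shell, I (emb x) = emb (invS ι x)
  δ : E 2 → X
  δc : ContinuousOn δ (closedBall 0 1)
  δi : InjOn δ (closedBall 0 1)
  δ0 : δ '' closedBall 0 1 = F ∩ h ⁻¹' Iic 0
  δ1 : δ '' sphere 0 1 = F ∩ h ⁻¹' {0}
  conn : IsPathConnected (h ⁻¹' Iio 1)
  H1 : ZC ℤ (h ⁻¹' Iio 1) 1 ≤ BC ℤ (h ⁻¹' Iio 1) 1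
  k : ℕ
  S : Fin k → Tot ℤ X
  Sm : ∀ i, S i ∈ ZC ℤ (Fᶜ ∩ h ⁻¹' Iio 0) 2
  H2 : ∀ z ∈ ZC ℤ (h ⁻¹' Iio 1) 2, ∃ n : Fin k → ℤ, z - ∑ i, n i • S i ∈ BC ℤ (h ⁻¹' Iio 1) 2
  num : ∀ τ, IsThom o id τ → ∀ i j,
    beta κ τ (castZ ℂ X (S i)) (castZ ℂ X (S j)) = if i = j then 1 else 0

attribute [instance] Geo.top Geo.t2 Geo.cpt Geo.ch Geo.mf

/-- The homology of the complement of the sphere. -/
structure XPack (κ : Kit) {X : Type} [TopologicalSpace X] (o : Orientation4 X) (F : Set X) (n : ℕ)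
    (φ : Tot ℤ X →ₗ[ℤ] ℤ) : Prop where
  conn : IsPathConnected Fᶜ
  coc : ∀ c ∈ CH ℤ Fᶜ, φ (dT ℤ X c) = 0
  dg : ∀ k, k ≠ 1 → ∀ c ∈ DG ℤ X k, φ c = 0
  gen : ∃ μ ∈ ZC ℤ Fᶜ 1, φ μ = 1 ∧ ∀ z ∈ ZC ℤ Fᶜ 1, z - φ z • μ ∈ BC ℤ Fᶜ 1
  rot : ∀ e z w, Mer F e z w → ∀ γ : C(unitInterval, X),
    (∀ θ : unitInterval, γ θ = rotL e z w θ) → φ (pth ℤ γ) = 1 ∨ φ (pth ℤ γ) = -1
  dep : Dep0 (ZMod 2) Fᶜ n
  cls : ∃ x : Fin n → Tot ℤ X, (∀ i, x i ∈ ZC ℤ Fᶜ 2) ∧ ∀ τ, IsThom o id τ → ∀ i j,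
    beta κ τ (castZ ℂ X (x i)) (castZ ℂ X (x j)) = if i = j then 1 else 0

/-! ### Dehn presentations -/

/-- The open cover of a knot complement given by a diagram. -/
structure DehnData {Z : Type} [TopologicalSpace Z] (O : Set Z) {Reg Cr : Type}
    (reg : Cr → Fin 4 → Reg) where
  Up : Set Z
  Lo : Set Z
  n : Z
  s : Z
  Rg : Reg → Set Z
  B : Cr → Set Z
  U1 : Cr → Set Z
  U2 : Cr → Set Z
  L1 : Cr → Set Z
  L2 : Cr → Set Z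
  r : Reg → Z
  a : Reg → C(unitInterval, Z)
  b : Reg → C(unitInterval, Z)
  opU : IsOpen Up
  opL : IsOpen Lo
  ctU : Ctr Up n
  ctL : Ctr Lo s
  opR : ∀ R, IsOpen (Rg R)
  pcR : ∀ R, IsPathConnected (Rg R)
  djR : Pairwise fun R R' => Disjoint (Rg R) (Rg R')
  unR : ⋃ R, Rg R = Up ∩ Lo
  opB : ∀ c, IsOpen (B c)
  ctB : ∀ c, ∃ x, Ctr (B c) x
  djB : Pairwise fun c c' => Disjoint (B c) (B c')
  cover : Up ∪ Lo ∪ ⋃ c, B c = O
  op : ∀ c, IsOpen (U1 c) ∧ IsOpen (U2 c) ∧ IsOpen (L1 c) ∧ IsOpen (L2 c)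
  pc : ∀ c, IsPathConnected (U1 c) ∧ IsPathConnected (U2 c) ∧ IsPathConnected (L1 c) ∧
    IsPathConnected (L2 c)
  dj : ∀ c, Disjoint (U1 c) (U2 c) ∧ Disjoint (L1 c) (L2 c)
  un : ∀ c, U1 c ∪ U2 c = B c ∩ Up ∧ L1 c ∪ L2 c = B c ∩ Lo
  ne : ∀ c, (U1 c ∩ L1 c).Nonempty ∧ (U1 c ∩ L2 c).Nonempty ∧ (U2 c ∩ L2 c).Nonempty ∧
    (U2 c ∩ L1 c).Nonempty
  sub : ∀ c, U1 c ∩ L1 c ⊆ Rg (reg c 0) ∧ U1 c ∩ L2 c ⊆ Rg (reg c 1) ∧
    U2 c ∩ L2 c ⊆ Rg (reg c 2) ∧ U2 c ∩ L1 c ⊆ Rg (reg c 3)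
  rm : ∀ R, r R ∈ Rg R
  a0 : ∀ R, a R 0 = n
  a1 : ∀ R, a R 1 = r R
  am : ∀ R t, a R t ∈ Up
  b0 : ∀ R, b R 0 = r R
  b1 : ∀ R, b R 1 = s
  bm : ∀ R t, b R t ∈ Lo

/-- The map `f` preserves the upper and lower parts and permutes the regions by `ρ`. -/
structure DehnData.Sym {Z : Type} [TopologicalSpace Z] {O : Set Z} {Reg Cr : Type}
    {reg : Cr → Fin 4 → Reg} (D : DehnData O reg) (f : Z → Z) (ρ : Reg → Reg) : Prop where
  up : MapsTo f D.Up D.Up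
  lo : MapsTo f D.Lo D.Lo
  rg : ∀ R, MapsTo f (D.Rg R) (D.Rg (ρ R))

section Dehn

variable (S : Type) [CommRing S] {Reg Cr G : Type} [Group G]

/-- The first boundary map of the Dehn complex. -/
def d1A (h : Reg → G) : ((Reg × G) →₀ S) →ₗ[S] ((Bool × G) →₀ S) :=
  Finsupp.linearCombination S fun x =>
    Finsupp.single (true, x.2 * h x.1) 1 - Finsupp.single (false, x.2) 1

/-- The second boundary map of the Dehn complex. -/
def d2A (reg : Cr → Fin 4 → Reg) (h : Reg → G) : ((Cr × G) →₀ S) →ₗ[S] ((Reg × G) →₀ S) :=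
  Finsupp.linearCombination S fun x =>
    Finsupp.single (reg x.1 0, x.2) 1 - Finsupp.single (reg x.1 1, x.2) 1 +
      Finsupp.single (reg x.1 2, x.2 * (h (reg x.1 1) * (h (reg x.1 2))⁻¹)) 1 -
      Finsupp.single (reg x.1 3, x.2 * (h (reg x.1 1) * (h (reg x.1 2))⁻¹)) 1

variable {X Y : Type} [TopologicalSpace X] [TopologicalSpace Y] [MulAction G Y]

/-- The singular chain of a chain of the Dehn complex. -/
def ellC (l : Reg → Tot ℤ Y) : ((Reg × G) →₀ S) →ₗ[S] Tot S Y :=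
  Finsupp.linearCombination S fun x => gs S Y x.2 (castZ S Y (l x.1))

/-- Sections over the upper and lower parts and their holonomy. -/
structure DehnSec {O : Set X} {reg : Cr → Fin 4 → Reg} (D : DehnData O reg) (p : Y → X)
    (σU σL : X → Y) (h : Reg → G) : Prop where
  cU : ContinuousOn σU D.Up
  cL : ContinuousOn σL D.Lo
  pU : ∀ x ∈ D.Up, p (σU x) = x
  pL : ∀ x ∈ D.Lo, p (σL x) = x
  hol : ∀ R, σU (D.r R) = h R • σL (D.r R)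

/-- The lifted path through the region `R`. -/
def DehnData.ell {O : Set X} {reg : Cr → Fin 4 → Reg} (D : DehnData O reg) (σU σL : X → Y)
    (h : Reg → G) (R : Reg) : Tot ℤ Y :=
  psh ℤ σU (pth ℤ (D.a R)) + gs ℤ Y (h R) (psh ℤ σL (pth ℤ (D.b R)))

/-- The Dehn complex computes the homology of `O` in low degrees. -/
structure DehnMap (O : Set Y) (reg : Cr → Fin 4 → Reg) (h : Reg → G) (l : Reg → Tot ℤ Y)
    (yn ys : Y) : Prop where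
  mem : ∀ R, l R ∈ CC ℤ O 1
  bd : ∀ R, dT ℤ Y (l R) = pt ℤ (h R • ys) - pt ℤ yn
  hol : ∀ c, h (reg c 0) = h (reg c 1) * (h (reg c 2))⁻¹ * h (reg c 3)
  gen : ∀ (S : Type) [CommRing S], ∀ z ∈ ZC S O 1, ∃ x : (Reg × G) →₀ S,
    d1A S h x = 0 ∧ z - ellC S l x ∈ BC S O 1
  inj : ∀ (S : Type) [CommRing S] (x : (Reg × G) →₀ S), d1A S h x = 0 →
    (ellC S l x ∈ BC S O 1 ↔ x ∈ LinearMap.range (d2A S reg h))
  h0 : ∀ y ∈ O, ∃ g : G, JoinedIn O y (g • yn)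
  h0i : ∀ g : G, JoinedIn O yn (g • yn) →
    Finsupp.single (false, g) 1 - Finsupp.single (false, 1) 1 ∈ LinearMap.range (d1A ℤ h)

variable {S} [ContinuousConstSMul G Y] {O : Set Y} {reg : Cr → Fin 4 → Reg} {h : Reg → G}
  {l : Reg → Tot ℤ Y} {yn ys : Y}

theorem DehnMap.dT_ellC (D : DehnMap O reg h l yn ys) (x : (Reg × G) →₀ S) :
    dT S Y (ellC S l x) = Finsupp.linearCombination S
      (fun z : Bool × G => pt S (z.2 • cond z.1 ys yn)) (d1A S h x) := by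
  induction x using Finsupp.induction_linear with
  | zero => simp
  | add a b ha hb => simp only [map_add, ha, hb]
  | single z a =>
    simp only [ellC, d1A, Finsupp.linearCombination_single, map_smul, map_sub, one_smul, cond]
    rw [dT_gs, ← cast_dT, D.bd, map_sub, cast_pt, cast_pt, map_sub, gs, psh_pt, psh_pt, mul_smul]

theorem DehnMap.ellC_mem (D : DehnMap O reg h l yn ys) {O' : Set Y} (hO : O ⊆ O')
    (hO' : ∀ (g : G), ∀ y ∈ O', g • y ∈ O') {x : (Reg × G) →₀ S} (hx : d1A S h x = 0) :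
    ellC S l x ∈ ZC S O' 1 := by
  refine ⟨?_, by rw [SetLike.mem_coe, LinearMap.mem_ker, D.dT_ellC, hx, map_zero]⟩
  rw [ellC, Finsupp.linearCombination_apply]
  exact Submodule.sum_mem _ fun z _ => Submodule.smul_mem _ _
    ⟨gs_mem_CH _ (hO' _) (cast_mem_CH _ (CH_mono hO (D.mem z.1).1)),
      gs_mem_DG _ (cast_mem_DG _ (D.mem z.1).2)⟩

end Dehn

/-! ### Colourings and twisted complexes -/

/-- The ring `R[ω]` with `ω ^ 2 = ω - 1`. -/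
abbrev Eis (R : Type) [CommRing R] : Type := QuadraticAlgebra R (-1) 1

/-- The unit `ω`. -/
def om (R : Type) [CommRing R] : (Eis R)ˣ where
  val := ⟨0, 1⟩
  inv := ⟨1, -1⟩
  val_inv := by ext <;> simp [QuadraticAlgebra.re_one, QuadraticAlgebra.im_one]
  inv_val := by ext <;> simp [QuadraticAlgebra.re_one, QuadraticAlgebra.im_one]

/-- Reduction modulo eight. -/
def red8 (x : Eis ℤ) : Eis (ZMod 8) := ⟨x.re, x.im⟩

/-- The primitive sixth root of unity. -/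
def omC : Circle := Circle.exp (Real.pi / 3)

section Tw

variable {Reg Cr : Type} (reg : Cr → Fin 4 → Reg) (gap : Reg → ℤ)

/-- Dehn colourings with values in `R[ω]`. -/
def IsCol {R : Type} [CommRing R] (c : Reg → Eis R) : Prop :=
  ∀ x, c (reg x 0) - c (reg x 1) +
    (om R ^ (gap (reg x 1) - gap (reg x 2)) : (Eis R)ˣ) * (c (reg x 2) - c (reg x 3)) = 0

/-- The colouring is compatible with the symmetry `ρ`. -/
def JComp {R : Type} [CommRing R] (ρ : Reg → Reg) (c : Reg → Eis R) : Prop :=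
  ∃ μ u v : Eis R, ∀ r, star (c (ρ r)) = μ * c r + u + v * (om R ^ gap r : (Eis R)ˣ)

def d1T (w : Reg → ℤ → ℂ) : ((Reg × ℤ) →₀ ℂ) →ₗ[ℂ] ((Bool × ℤ) →₀ ℂ) :=
  Finsupp.linearCombination ℂ fun x =>
    w x.1 x.2 • Finsupp.single (true, x.2 + gap x.1) 1 - Finsupp.single (false, x.2) 1

def d2T (w : Reg → ℤ → ℂ) : ((Cr × ℤ) →₀ ℂ) →ₗ[ℂ] ((Reg × ℤ) →₀ ℂ) :=
  Finsupp.linearCombination ℂ fun x =>
    Finsupp.single (reg x.1 0, x.2) 1 - Finsupp.single (reg x.1 1, x.2) 1 +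
      (w (reg x.1 1) x.2 / w (reg x.1 2) (x.2 + (gap (reg x.1 1) - gap (reg x.1 2)))) •
        (Finsupp.single (reg x.1 2, x.2 + (gap (reg x.1 1) - gap (reg x.1 2))) 1 -
          Finsupp.single (reg x.1 3, x.2 + (gap (reg x.1 1) - gap (reg x.1 2))) 1)

/-- The shift by `m`. -/
def shT (Reg : Type) (m : ℤ) : Module.End ℂ ((Reg × ℤ) →₀ ℂ) :=
  Finsupp.lmapDomain ℂ ℂ fun x => (x.1, x.2 + m)

/-- The operator `shift - ω`. -/
def piT (Reg : Type) (m : ℤ) (ζ : ℂ) : Module.End ℂ ((Reg × ℤ) →₀ ℂ) := shT Reg m - ζ • 1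

/-- The primary part at `ω` of the twisted homology has length one. -/
structure Len1T (w : Reg → ℤ → ℂ) (m : ℤ) (ζ : ℂ) (x : (Reg × ℤ) →₀ ℂ) : Prop where
  cyc : d1T gap w x = 0
  tor : piT Reg m ζ x ∈ LinearMap.range (d2T reg gap w)
  nz : x ∉ LinearMap.range (d2T reg gap w)
  prim : ∀ y, d1T gap w y = 0 → ∀ k : ℕ, (piT Reg m ζ ^ k) y ∈ LinearMap.range (d2T reg gap w) →
    ∃ μ : ℂ, y - μ • x ∈ LinearMap.range (d2T reg gap w)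
  top : ∀ y, d1T gap w y = 0 → ∃ (μ : ℂ) (y' : (Reg × ℤ) →₀ ℂ), d1T gap w y' = 0 ∧
    y - μ • x - piT Reg m ζ y' ∈ LinearMap.range (d2T reg gap w)

/-- The primary part at `ω` of the untwisted homology is killed by `t - ω` and has dimension at
most two. -/
structure Len2T (ζ : ℂ) : Prop where
  ann : ∃ D : Polynomial ℂ, D.eval ζ ≠ 0 ∧ ∀ y, d1T gap (fun _ _ => 1) y = 0 →
    piT Reg 1 ζ (Polynomial.aeval (shT Reg 1) D y) ∈ LinearMap.range (d2T reg gap fun _ _ => 1)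
  top : ∃ x₁ x₂, d1T gap (fun _ _ => 1) x₁ = 0 ∧ d1T gap (fun _ _ => 1) x₂ = 0 ∧
    ∀ y, d1T gap (fun _ _ => 1) y = 0 → ∃ (μ₁ μ₂ : ℂ) (y' : (Reg × ℤ) →₀ ℂ),
      d1T gap (fun _ _ => 1) y' = 0 ∧
      y - μ₁ • x₁ - μ₂ • x₂ - piT Reg 1 ζ y' ∈ LinearMap.range (d2T reg gap fun _ _ => 1)

/-- The twisted homology for the colouring `c` has a simple root on the unit circle. -/
def TwOK (χ : AddChar (Eis (ZMod 8)) ℂ) (c : Reg → Eis (ZMod 8)) : Prop :=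
  ∀ j : ℕ, ∃ ζ : Circle, ζ ≠ 1 ∧ ∃ x, Len1T reg gap
    (fun r n => χ ((om (ZMod 8) ^ n : (Eis (ZMod 8))ˣ) * c r)) (6 * 2 ^ j) ζ x

end Tw

/-- The algebraic certificate of the knot. -/
structure Cert {Reg Cr : Type} (reg : Cr → Fin 4 → Reg) (ρ : Reg → Reg) where
  gap : Reg → ℤ
  R0 : Reg
  R1 : Reg
  g0 : gap R0 = 0
  g1 : gap R1 = 1
  gρ : ∃ k, ∀ r, gap (ρ r) = k - gap r
  gapU : ∀ n : Reg → ℤ, (∀ c, n (reg c 0) = n (reg c 1) - n (reg c 2) + n (reg c 3)) →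
    ∃ a b, ∀ r, n r = a + b * gap r
  c1 : Reg → Eis ℤ
  c2 : Reg → Eis ℤ
  col1 : IsCol reg gap c1 ∧ c1 R0 = 0 ∧ c1 R1 = 0
  col2 : IsCol reg gap c2 ∧ c2 R0 = 0 ∧ c2 R1 = 0
  colZ : ∀ c : Reg → Eis ℤ, IsCol reg gap c → c R0 = 0 → c R1 = 0 →
    ∃ a b, ∀ r, c r = a * c1 r + b * c2 r
  len2 : Len2T reg gap omC
  tw : ∀ a b : Eis (ZMod 8), IsUnit a ∨ IsUnit b →
    JComp gap ρ (fun r => a * red8 (c1 r) + b * red8 (c2 r)) →
    ∃ χ, TwOK reg gap χ fun r => a * red8 (c1 r) + b * red8 (c2 r)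
  ex : ∃ (a b : Eis ℤ) (χ : AddChar (Eis (ZMod 8)) ℂ),
    TwOK reg gap χ fun r => red8 (a * c1 r + b * c2 r)

/-! ### The algebraic shadow of a cover of the double -/

section AS

variable {C : Type} [AddCommGroup C] [Module (Lam ℂ) C]

/-- Sesquilinear forms over the Laurent polynomials. -/
structure Sesq (l : C → C → Lam ℂ) : Prop where
  add_left : ∀ u u' v, l (u + u') v = l u v + l u' v
  smul_left : ∀ (a : Lam ℂ) u v, l (a • u) v = a * l u v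
  add_right : ∀ u v v', l u (v + v') = l u v + l u v'
  smul_right : ∀ (a : Lam ℂ) u v, l u (a • v) = cj a * l u v

variable (d : C →ₗ[Lam ℂ] C) (M : ℕ → Set ℝ → Submodule (Lam ℂ) C)

/-- Sesquilinear forms that vanish on chains with disjoint levels. -/
def LocS (l : C → C → Lam ℂ) : Prop :=
  Sesq l ∧ ∀ k k' J J', Disjoint J J' → ∀ u ∈ M k J, ∀ v ∈ M k' J', l u v = 0

/-- A chain deformation of the levels `J'` into the levels `J`. -/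
def Retr (J' J : Set ℝ) : Prop :=
  ∃ r H : C →ₗ[Lam ℂ] C, ∀ k,
    (∀ c ∈ M k J', r c ∈ M k J ∧ H c ∈ M (k + 1) J' ∧ d (H c) + H (d c) = c - r c) ∧
    ∀ c ∈ M k J, H c ∈ M (k + 1) J

structure IsAS (l : C → C → Lam ℂ) : Prop where
  dd : ∀ c, d (d c) = 0
  d_mem : ∀ k J, ∀ c ∈ M (k + 1) J, d c ∈ M k J
  d_zero : ∀ J, ∀ c ∈ M 0 J, d c = 0
  mono : ∀ k J J', J ⊆ J' → M k J ≤ M k J'
  inter : ∀ k J J', M k J ⊓ M k J' ≤ M k (J ∩ J')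
  tf0 : ∀ g : Lam ℂ, g ≠ 0 → ∀ c : C, g • c = 0 → c = 0
  tf : ∀ g : Lam ℂ, g ≠ 0 → ∀ k J, ∀ c : C, g • c ∈ M k J → c ∈ M k J
  cpt : ∀ k J, ∀ c ∈ M k J, ∃ J₀ ⊆ J, IsCompact J₀ ∧ c ∈ M k J₀
  retrN : ∀ a' a b b' : ℝ, -1 ≤ a' → a' ≤ a → a < b → b ≤ b' → b' ≤ 1 →
    Retr d M (Ioo a' b') (Ioo a b)
  retrV : ∀ b b' : ℝ, -1 < b → b ≤ b' → b' ≤ 1 → Retr d M (Iio b') (Iio b)
  loc : LocS M l
  stokes : ∀ u v, l (d u) v = l u (d v)
  sym : ∃ E₁ E₂, LocS M E₁ ∧ LocS M E₂ ∧ ∀ u ∈ M 2 univ, ∀ v ∈ M 2 univ,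
    l u v - cj (l v u) = E₁ (d u) v + E₂ u (d v)
  psd : ∃ bad : Set Circle, bad.Finite ∧ ∀ η ∉ bad, ∀ z ∈ M 2 univ, d z = 0 →
    0 ≤ (evL η (l z z)).re
  pdV : ∀ ζ : Circle, ζ ≠ 1 → ∀ (n : ℕ) (c : ℝ), -1 < c → c < 1 → ∀ x ∈ M 1 (Iic c), d x = 0 →
    (¬ ∃ w ∈ M 2 (Iio 1), ∃ y ∈ M 1 (Iio 1), x = d w + piL ζ ^ n • y) →
    ∃ b ∈ M 3 (Iio 1), ∃ a ∈ M 2 (Iio 1), ∃ r ∈ M 2 (Ioo c 1),
      d b = piL ζ ^ n • a + r ∧ ¬ piL ζ ^ n ∣ l b x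
  pdN : ∀ ζ : Circle, ζ ≠ 1 → ∀ a c : ℝ, -1 < a → c < 1 → ∀ u ∈ M 2 (Icc a c),
    (∃ y, d u = piL ζ • y) →
    (¬ ∃ w ∈ M 3 (Ioo (-1) 1), ∃ y ∈ M 2 (Ioo (-1) 1), u = d w + piL ζ • y) →
    ∃ b ∈ M 2 (Ioo (-1) 1), ∃ a' ∈ M 1 (Ioo (-1) 1), ∃ r₁ ∈ M 1 (Ioo (-1) a),
      ∃ r₂ ∈ M 1 (Ioo c 1), d b = piL ζ • a' + r₁ + r₂ ∧ (∃ y, d r₁ = piL ζ • y) ∧
        evL ζ (l b u) ≠ 0
  fgV : ∃ (n : ℕ) (z : Fin n → C), (∀ i, z i ∈ M 1 (Iio 1) ∧ d (z i) = 0) ∧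
    ∀ y ∈ M 1 (Iio 1), d y = 0 →
      ∃ a : Fin n → Lam ℂ, ∃ b ∈ M 2 (Iio 1), y = ∑ i, a i • z i + d b
  mv : ∀ y ∈ M 1 (Ioo (-1) 1), ∀ c ∈ M 2 univ, y = d c →
    ∃ c₁ ∈ M 2 (Iio 1), ∃ c₂ ∈ M 2 (Ioi (-1)), y = d c₁ + d c₂ ∧ d c₁ ∈ M 1 (Ioo (-1) 1)

/-- The deck transformation acts trivially on the components over the shell. -/
def H0N : Prop :=
  ∀ y ∈ M 0 (Ioo (-1) 1), ∃ w ∈ M 1 (Ioo (-1) 1), (LaurentPolynomial.T 1 - 1 : Lam ℂ) • y = d w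

/-- Cycles over the shell. -/
def ZN : Submodule (Lam ℂ) C := M 1 (Ioo (-1) 1) ⊓ LinearMap.ker d

/-- Boundaries over the shell. -/
def BN : Submodule (Lam ℂ) C := (M 2 (Ioo (-1) 1)).map d

/-- A self-adjoint projector. -/
structure Proj (l : C → C → Lam ℂ) (e : C →ₗ[Lam ℂ] C) : Prop where
  ee : ∀ c, e (e c) = e c
  ed : ∀ c, e (d c) = d (e c)
  mem : ∀ k J, ∀ c ∈ M k J, e c ∈ M k J
  adj : ∀ u v, l (e u) v = l u (e v)

structure Len1 (e : C →ₗ[Lam ℂ] C) (ζ : Circle) (x : C) : Prop where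
  cyc : x ∈ ZN d M
  ex : e x = x
  tor : piL ζ • x ∈ BN d M
  nz : x ∉ BN d M
  prim : ∀ y ∈ ZN d M, e y = y → ∀ n : ℕ, piL ζ ^ n • y ∈ BN d M →
    ∃ μ : ℂ, y - (LaurentPolynomial.C μ : Lam ℂ) • x ∈ BN d M
  top : ∀ y ∈ ZN d M, e y = y → ∃ μ : ℂ, ∃ y' ∈ ZN d M,
    y - (LaurentPolynomial.C μ : Lam ℂ) • x - piL ζ • y' ∈ BN d M

structure Len2 (ζ : Circle) : Prop where
  ann : ∃ D : Lam ℂ, evL ζ D ≠ 0 ∧ ∀ y ∈ ZN d M, (piL ζ * D) • y ∈ BN d M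
  top : ∃ x₁ ∈ ZN d M, ∃ x₂ ∈ ZN d M, ∀ y ∈ ZN d M, ∃ μ₁ μ₂ : ℂ, ∃ y' ∈ ZN d M,
    y - (LaurentPolynomial.C μ₁ : Lam ℂ) • x₁ - (LaurentPolynomial.C μ₂ : Lam ℂ) • x₂ -
      piL ζ • y' ∈ BN d M

/-- An antilinear involution that reverses the levels and preserves the form. -/
structure JInv (l : C → C → Lam ℂ) (J : C →+ C) : Prop where
  smul : ∀ (a : Lam ℂ) c, J (a • c) = cj a • J c
  JJ : ∀ c, J (J c) = c
  Jd : ∀ c, J (d c) = d (J c)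
  mem : ∀ k S, ∀ c ∈ M k S, J c ∈ M k ((fun r => -r) ⁻¹' S)
  inv : ∃ E₁ E₂, LocS M E₁ ∧ LocS M E₂ ∧ ∀ u ∈ M 2 univ, ∀ v ∈ M 2 univ,
    cj (l (J u) (J v)) - l u v = E₁ (d u) v + E₂ u (d v)

/-- The cycles over the shell that bound span at most a line modulo `T - ω`. -/
def Line (ζ : Circle) : Prop :=
  ∃ w ∈ ZN d M, ∀ y ∈ ZN d M, (∃ b ∈ M 2 univ, y = d b) → ∃ μ : ℂ, ∃ y' ∈ ZN d M,
    y - (LaurentPolynomial.C μ : Lam ℂ) • w - piL ζ • y' ∈ BN d M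

end AS

end

end Pool.Agent.MP_bc14e1_gt
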